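import Pool.Agent.W_52423f_h30.Defs

/-!
# The map on points induced by a field homomorphism
-/

namespace Pool.Agent.PTwist

open WeierstrassCurve WeierstrassCurve.Affine

section

variable {k K : Type*} [Field k] [Field K] (V : WeierstrassCurve k) (ι : k →+* K)

@[simp] theorem pmap_zero : pmap V ι 0 = 0 := rfl

@[simp] theorem pmap_some {x y : k} (h : V.toAffine.Nonsingular x y) :
    pmap V ι (.some x y h) = .some (ι x) (ι y) ((map_nonsingular _ ι.injective x y).mpr h) := rfl

theorem pmap_injective : Function.Injective (pmap V ι) := by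
  rintro (_ | ⟨x₁, y₁, h₁⟩) (_ | ⟨x₂, y₂, h₂⟩) h
  · rfl
  · exact absurd h (by simp [pmap])
  · exact absurd h (by simp [pmap])
  · simp only [pmap, Point.some.injEq] at h
    obtain ⟨hx, hy⟩ := h
    have hx' := ι.injective hx
    have hy' := ι.injective hy
    subst hx' hy'
    rfl

theorem iX_pmap (P : V.toAffine.Point) : iX (V.map ι) (pmap V ι P) = ι (iX V P) := by
  rcases P with _ | ⟨x, y, h⟩
  · simp [pmap, iX]
  · simp [pmap, iX]

theorem iV_pmap (P : V.toAffine.Point) : iV (V.map ι) (pmap V ι P) = ι (iV V P) := by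
  rcases P with _ | ⟨x, y, h⟩
  · simp [pmap, iV]
  · simp [pmap, iV, map_ofNat]

theorem pmap_neg (P : V.toAffine.Point) : pmap V ι (-P) = -pmap V ι P := by
  rcases P with _ | ⟨x, y, h⟩
  · rfl
  · simp only [Point.neg_some, pmap, Point.some.injEq, true_and]
    exact (map_negY ι x y).symm

variable [DecidableEq k] [DecidableEq K]

/-- as in Mathlib for `Point.map`: cases, `map_slope`, `map_addX`, `map_addY` -/
theorem pmap_add (P Q : V.toAffine.Point) : pmap V ι (P + Q) = pmap V ι P + pmap V ι Q := by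
  rcases P with _ | ⟨x₁, y₁, h₁⟩
  · change pmap V ι (0 + Q) = 0 + pmap V ι Q
    rw [zero_add, zero_add]
  rcases Q with _ | ⟨x₂, y₂, h₂⟩
  · change pmap V ι (Point.some x₁ y₁ h₁ + 0) = pmap V ι (Point.some x₁ y₁ h₁) + 0
    rw [add_zero, add_zero]
  by_cases hxy : x₁ = x₂ ∧ y₁ = V.toAffine.negY x₂ y₂
  · rw [Point.add_of_Y_eq hxy.1 hxy.2, pmap_some, pmap_some,
      Point.add_of_Y_eq (congrArg ι hxy.1) (by rw [hxy.2]; exact (map_negY ι x₂ y₂).symm), pmap_zero]
  · have hxy' : ¬(ι x₁ = ι x₂ ∧ ι y₁ = (V.map ι).toAffine.negY (ι x₂) (ι y₂)) := fun h =>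
      hxy ⟨ι.injective h.1, ι.injective (h.2.trans (map_negY ι x₂ y₂))⟩
    rw [Point.add_some hxy, pmap_some, pmap_some, pmap_some, Point.add_some hxy']
    simp only [Point.some.injEq]
    constructor
    · rw [map_slope]; exact (map_addX ι _ _ _).symm
    · rw [map_slope]; exact (map_addY ι _ _ _ _).symm

theorem pmap_sub (P Q : V.toAffine.Point) : pmap V ι (P - Q) = pmap V ι P - pmap V ι Q := by
  rw [sub_eq_add_neg, pmap_add, pmap_neg, ← sub_eq_add_neg]

/-- the map as a homomorphism of groups -/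
noncomputable def PMap_hom : V.toAffine.Point →+ (V.map ι).toAffine.Point where
  toFun := pmap V ι
  map_zero' := rfl
  map_add' := pmap_add V ι

theorem pmap_zsmul (m : ℤ) (P : V.toAffine.Point) : pmap V ι (m • P) = m • pmap V ι P :=
  map_zsmul (PMap_hom V ι) m P

theorem pmap_sum {T : Type*} (t : Finset T) (P : T → V.toAffine.Point) :
    pmap V ι (∑ i ∈ t, P i) = ∑ i ∈ t, pmap V ι (P i) :=
  map_sum (PMap_hom V ι) P t

end

section Galois

variable {F M : Type*} [Field F] [Field M] [Algebra F M] (W : WeierstrassCurve F)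
  [DecidableEq M]

theorem iX_map (g : M →ₐ[F] M) (P : (W⁄M).toAffine.Point) :
    iX (W⁄M) (Point.map g P) = g (iX (W⁄M) P) := by
  rcases P with _ | ⟨x, y, h⟩
  · exact (map_zero g).symm
  · rw [Point.map_some, iX_some, iX_some, map_inv₀]

theorem iV_map (g : M →ₐ[F] M) (P : (W⁄M).toAffine.Point) :
    iV (W⁄M) (Point.map g P) = g (iV (W⁄M) P) := by
  rcases P with _ | ⟨x, y, h⟩
  · exact (map_zero g).symm
  · rw [Point.map_some, iV_some, iV_some]
    simp only [map_mul, map_neg, map_add, map_pow, map_inv₀, map_ofNat]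
    have h1 : g (W⁄M).a₁ = (W⁄M).a₁ := by
      simp [WeierstrassCurve.baseChange]
    have h3 : g (W⁄M).a₃ = (W⁄M).a₃ := by
      simp [WeierstrassCurve.baseChange]
    rw [h1, h3]

end Galois

end Pool.Agent.PTwist
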