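import Pool.Agent.W_52423f_h30.Ser

/-!
# The addition theorem, algebraic identities and derivations
-/

namespace Pool.Agent.PTwist

open PowerSeries

section Ring

variable {S : Type*} [CommRing S]

/-- the denominator `2 (f₁ + f₂) + b₂ f₁ f₂ + b₄ f₁ f₂ (f₁ + f₂) + b₆ f₁² f₂² - v₁ v₂` -/
def dd (b₂ b₄ b₆ f₁ f₂ v₁ v₂ : S) : S :=
  2 * (f₁ + f₂) + b₂ * f₁ * f₂ + b₄ * f₁ * f₂ * (f₁ + f₂) + b₆ * f₁ ^ 2 * f₂ ^ 2 - v₁ * v₂

/-- The algebraic identity behind the addition theorem (`linear_combination` with the two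
hypotheses; their cofactors are polynomials of degree one in `v₁, v₂`: both sides are of degree
`3` in `v₁, v₂`, reduce them). -/
theorem AddA_identity (b₂ b₄ b₆ f₁ f₂ v₁ v₂ : S)
    (h₁ : v₁ ^ 2 = 4 * f₁ + b₂ * f₁ ^ 2 + 2 * b₄ * f₁ ^ 3 + b₆ * f₁ ^ 4)
    (h₂ : v₂ ^ 2 = 4 * f₂ + b₂ * f₂ ^ 2 + 2 * b₄ * f₂ ^ 3 + b₆ * f₂ ^ 4) :
    2 * dd b₂ b₄ b₆ f₁ f₂ v₁ v₂ * (v₁ + v₂) =
      (f₁ - f₂) * (2 * (v₁ - v₂) + b₂ * (v₁ * f₂ - f₁ * v₂) +
        b₄ * (2 * f₁ * v₁ * f₂ - f₁ ^ 2 * v₂ + v₁ * f₂ ^ 2 - 2 * f₁ * f₂ * v₂) +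
        2 * b₆ * f₁ * f₂ * (v₁ * f₂ - f₁ * v₂) -
        ((2 + b₂ * f₁ + 3 * b₄ * f₁ ^ 2 + 2 * b₆ * f₁ ^ 3) * v₂ -
          v₁ * (2 + b₂ * f₂ + 3 * b₄ * f₂ ^ 2 + 2 * b₆ * f₂ ^ 3))) := by
  unfold dd
  linear_combination (-2 * v₂) * h₁ + (-2 * v₁) * h₂

end Ring

variable {k : Type*} [Field k]

/-- coefficientwise derivative with respect to `b` of a power series over `k[b]` -/
noncomputable def dB (F : PowerSeries (Polynomial k)) : PowerSeries (Polynomial k) :=
  PowerSeries.mk fun n => Polynomial.derivative (coeff n F)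

/-- the operator `ζ ∂_ζ - (1 + b) ∂_b` on `k[b][[ζ]]` -/
noncomputable def dE (F : PowerSeries (Polynomial k)) : PowerSeries (Polynomial k) :=
  X * derivative (Polynomial k) F - C (1 + Polynomial.X) * dB F

theorem AddA_dB_add (F G : PowerSeries (Polynomial k)) : dB (F + G) = dB F + dB G := by
  ext n : 1
  simp [dB]

theorem AddA_dB_sub (F G : PowerSeries (Polynomial k)) : dB (F - G) = dB F - dB G := by
  ext n : 1
  simp [dB]

theorem AddA_dB_mul (F G : PowerSeries (Polynomial k)) : dB (F * G) = dB F * G + F * dB G := by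
  ext n : 1
  simp only [dB, coeff_mk, coeff_mul, map_add, Polynomial.derivative_sum,
    Polynomial.derivative_mul, Finset.sum_add_distrib]

theorem dE_add (F G : PowerSeries (Polynomial k)) : dE (F + G) = dE F + dE G := by
  unfold dE
  rw [AddA_dB_add, map_add]
  ring

theorem AddA_leibniz {R : Type*} [CommRing R] (F G : PowerSeries R) :
    derivative R (F * G) = F * derivative R G + G * derivative R F := by
  rw [Derivation.leibniz]
  rfl

/-- Leibniz rule (both `ζ ∂_ζ` and `∂_b` are derivations) -/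
theorem dE_mul (F G : PowerSeries (Polynomial k)) : dE (F * G) = dE F * G + F * dE G := by
  unfold dE
  rw [AddA_dB_mul, AddA_leibniz]
  ring

theorem dE_const (a : k) : dE (C (Polynomial.C a) : PowerSeries (Polynomial k)) = 0 := by
  have h : dB (C (Polynomial.C a) : PowerSeries (Polynomial k)) = 0 := by
    ext n : 1
    simp only [dB, coeff_mk, coeff_C, map_zero]
    split_ifs <;> simp
  unfold dE
  rw [h, derivative_C]
  simp

theorem dE_sub (F G : PowerSeries (Polynomial k)) : dE (F - G) = dE F - dE G := by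
  unfold dE
  rw [AddA_dB_sub, map_sub]
  ring

/-- `f(ζ) ↦ ζ f'(ζ)` -/
theorem dE_map (f : PowerSeries k) : dE (PowerSeries.map Polynomial.C f) =
    X * PowerSeries.map Polynomial.C (derivative k f) := by
  have h : dB (PowerSeries.map Polynomial.C f) = 0 := by
    ext n : 1
    simp [dB]
  have h2 : derivative (Polynomial k) (PowerSeries.map Polynomial.C f) =
      PowerSeries.map Polynomial.C (derivative k f) := by
    ext n : 1
    simp [coeff_derivative]
  unfold dE
  rw [h, h2]
  simp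

/-- `f(b ζ) ↦ - ζ f'(b ζ)` -/
theorem dE_rescale_X (f : PowerSeries k) :
    dE (rescale Polynomial.X (PowerSeries.map Polynomial.C f)) =
      -(X * rescale Polynomial.X (PowerSeries.map Polynomial.C (derivative k f))) := by
  ext n : 1
  unfold dE
  rcases n with _ | n
  · simp [dB, coeff_zero_eq_constantCoeff]
  · simp only [map_sub, map_neg, coeff_succ_X_mul, coeff_derivative, coeff_rescale, coeff_map,
      coeff_C_mul, dB, coeff_mk, Polynomial.derivative_mul, Polynomial.derivative_X_pow,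
      Polynomial.derivative_C, Polynomial.C_mul, Polynomial.C_add, map_natCast, map_one]
    simp only [Nat.add_sub_cancel]
    push_cast
    ring

/-- `f((1 + b) ζ) ↦ 0` -/
theorem dE_rescale_one_add (f : PowerSeries k) :
    dE (rescale (1 + Polynomial.X) (PowerSeries.map Polynomial.C f)) = 0 := by
  ext n : 1
  unfold dE
  rcases n with _ | n
  · simp [dB, coeff_zero_eq_constantCoeff]
  · simp only [map_sub, coeff_succ_X_mul, coeff_derivative, coeff_rescale, coeff_map,
      coeff_C_mul, dB, coeff_mk, Polynomial.derivative_mul, Polynomial.derivative_pow,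
      Polynomial.derivative_C, Polynomial.derivative_add, Polynomial.derivative_one,
      Polynomial.derivative_X, map_natCast, map_one, map_zero]
    simp only [Nat.add_sub_cancel]
    push_cast
    ring

end Pool.Agent.PTwist
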