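import Pool.Agent.W_52423f_h30.AddU

/-!
# The addition theorem for the power series `fe`
-/

namespace Pool.Agent.PTwist

open PowerSeries

variable {k : Type*} [Field k] [CharZero k] (b₂ b₄ b₆ : k)

omit [CharZero k] in
theorem AddB_map_rescale (β : k) (c : Polynomial k) (f : PowerSeries k) :
    PowerSeries.map (Polynomial.evalRingHom β) (rescale c (PowerSeries.map Polynomial.C f)) =
      rescale (c.eval β) f := by
  refine PowerSeries.ext fun n => ?_
  simp [coeff_rescale, coeff_map]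

omit [CharZero k] in
theorem AddB_map_map (β : k) (f : PowerSeries k) :
    PowerSeries.map (Polynomial.evalRingHom β) (PowerSeries.map Polynomial.C f) = f := by
  refine PowerSeries.ext fun n => ?_
  simp [coeff_map]

theorem AddB_map_dd {R S : Type*} [CommRing R] [CommRing S] (φ : R →+* S)
    (a₂ a₄ a₆ f₁ f₂ v₁ v₂ : R) :
    φ (dd a₂ a₄ a₆ f₁ f₂ v₁ v₂) = dd (φ a₂) (φ a₄) (φ a₆) (φ f₁) (φ f₂) (φ v₁) (φ v₂) := by
  unfold dd
  simp only [map_sub, map_add, map_mul, map_pow, map_ofNat]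

omit [CharZero k] in
theorem AddB_map_CC (β a : k) :
    PowerSeries.map (Polynomial.evalRingHom β)
      (C (Polynomial.C a) : PowerSeries (Polynomial k)) = C a := by
  rw [PowerSeries.map_C]
  simp

/-- the image of the denominator at `b = β` -/
theorem AddB_map_D (β : k) :
    PowerSeries.map (Polynomial.evalRingHom β)
      (dd (C (Polynomial.C b₂)) (C (Polynomial.C b₄)) (C (Polynomial.C b₆))
        (PowerSeries.map Polynomial.C (fe b₂ b₄ b₆))
        (rescale Polynomial.X (PowerSeries.map Polynomial.C (fe b₂ b₄ b₆)))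
        (PowerSeries.map Polynomial.C (derivative k (fe b₂ b₄ b₆)))
        (rescale Polynomial.X (PowerSeries.map Polynomial.C (derivative k (fe b₂ b₄ b₆))))) =
      dd (C b₂) (C b₄) (C b₆) (fe b₂ b₄ b₆) (rescale β (fe b₂ b₄ b₆))
        (derivative k (fe b₂ b₄ b₆)) (rescale β (derivative k (fe b₂ b₄ b₆))) := by
  rw [AddB_map_dd]
  simp only [AddB_map_CC, AddB_map_map, AddB_map_rescale, Polynomial.eval_X]

theorem AddB_map_rhs (f : PowerSeries k) :
    PowerSeries.map Polynomial.C (rhs b₂ b₄ b₆ f) =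
      2 + C (Polynomial.C b₂) * PowerSeries.map Polynomial.C f +
        3 * C (Polynomial.C b₄) * PowerSeries.map Polynomial.C f ^ 2 +
        2 * C (Polynomial.C b₆) * PowerSeries.map Polynomial.C f ^ 3 := by
  unfold rhs
  simp only [map_add, map_mul, map_pow, map_ofNat, PowerSeries.map_C]

theorem AddB_map_qq (f : PowerSeries k) :
    PowerSeries.map Polynomial.C (qq b₂ b₄ b₆ f) =
      4 * PowerSeries.map Polynomial.C f + C (Polynomial.C b₂) * PowerSeries.map Polynomial.C f ^ 2 +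
        2 * C (Polynomial.C b₄) * PowerSeries.map Polynomial.C f ^ 3 +
        C (Polynomial.C b₆) * PowerSeries.map Polynomial.C f ^ 4 := by
  unfold qq
  simp only [map_add, map_mul, map_pow, map_ofNat, PowerSeries.map_C]

omit [CharZero k] in
theorem AddB_dE_two (F : PowerSeries (Polynomial k)) : dE (2 * F) = 2 * dE F := by
  rw [two_mul, dE_add, two_mul]

/-- the relation `2 D (v₁ + v₂) ζ = (f₁ - f₂) dE D` -/
theorem AddB_rel (f₁ f₂ v₁ v₂ h₁ h₂ : PowerSeries (Polynomial k))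
    (hf₁ : dE f₁ = X * v₁) (hf₂ : dE f₂ = -(X * v₂)) (hv₁ : dE v₁ = X * h₁)
    (hv₂ : dE v₂ = -(X * h₂))
    (hh₁ : h₁ = 2 + C (Polynomial.C b₂) * f₁ + 3 * C (Polynomial.C b₄) * f₁ ^ 2 +
      2 * C (Polynomial.C b₆) * f₁ ^ 3)
    (hh₂ : h₂ = 2 + C (Polynomial.C b₂) * f₂ + 3 * C (Polynomial.C b₄) * f₂ ^ 2 +
      2 * C (Polynomial.C b₆) * f₂ ^ 3)
    (hq₁ : v₁ ^ 2 = 4 * f₁ + C (Polynomial.C b₂) * f₁ ^ 2 + 2 * C (Polynomial.C b₄) * f₁ ^ 3 +
      C (Polynomial.C b₆) * f₁ ^ 4)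
    (hq₂ : v₂ ^ 2 = 4 * f₂ + C (Polynomial.C b₂) * f₂ ^ 2 + 2 * C (Polynomial.C b₄) * f₂ ^ 3 +
      C (Polynomial.C b₆) * f₂ ^ 4) :
    2 * dd (C (Polynomial.C b₂)) (C (Polynomial.C b₄)) (C (Polynomial.C b₆)) f₁ f₂ v₁ v₂ *
        (X * (v₁ + v₂)) =
      (f₁ - f₂) *
        dE (dd (C (Polynomial.C b₂)) (C (Polynomial.C b₄)) (C (Polynomial.C b₆)) f₁ f₂ v₁ v₂) := by
  have hid := AddA_identity (C (Polynomial.C b₂)) (C (Polynomial.C b₄)) (C (Polynomial.C b₆))
    f₁ f₂ v₁ v₂ hq₁ hq₂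
  have hD : dE (dd (C (Polynomial.C b₂)) (C (Polynomial.C b₄)) (C (Polynomial.C b₆))
      f₁ f₂ v₁ v₂) = X * (2 * (v₁ - v₂) + C (Polynomial.C b₂) * (v₁ * f₂ - f₁ * v₂) +
        C (Polynomial.C b₄) * (2 * f₁ * v₁ * f₂ - f₁ ^ 2 * v₂ + v₁ * f₂ ^ 2 - 2 * f₁ * f₂ * v₂) +
        2 * C (Polynomial.C b₆) * f₁ * f₂ * (v₁ * f₂ - f₁ * v₂) -
        ((2 + C (Polynomial.C b₂) * f₁ + 3 * C (Polynomial.C b₄) * f₁ ^ 2 +
            2 * C (Polynomial.C b₆) * f₁ ^ 3) * v₂ -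
          v₁ * (2 + C (Polynomial.C b₂) * f₂ + 3 * C (Polynomial.C b₄) * f₂ ^ 2 +
            2 * C (Polynomial.C b₆) * f₂ ^ 3))) := by
    unfold dd
    rw [dE_sub, dE_add, dE_add, dE_add, AddB_dE_two, dE_add, dE_mul (_ * f₁) f₂,
      dE_mul (C (Polynomial.C b₂)) f₁, dE_mul (C (Polynomial.C b₄) * f₁ * f₂) (f₁ + f₂),
      dE_mul (C (Polynomial.C b₄) * f₁) f₂, dE_mul (C (Polynomial.C b₄)) f₁, dE_add,
      dE_mul (C (Polynomial.C b₆) * f₁ ^ 2) (f₂ ^ 2), dE_mul (C (Polynomial.C b₆)) (f₁ ^ 2),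
      pow_two f₁, pow_two f₂, dE_mul f₁ f₁, dE_mul f₂ f₂, dE_mul v₁ v₂,
      dE_const, dE_const, dE_const, hf₁, hf₂, hv₁, hv₂, hh₁, hh₂]
    ring
  rw [hD]
  linear_combination X * hid

/-- The addition theorem with a parameter `b`:
`f((1+b)ζ) * D(ζ, bζ) = 2 (f(ζ) - f(bζ))²`.
Put `G` = left side - right side.  With `D' = dE`, `f₁ = f(ζ)`, `f₂ = f(bζ)`, `v₁ = f'(ζ)`,
`v₂ = f'(bζ)` one has `D' f₁ = ζ v₁`, `D' f₂ = - ζ v₂`, `D' v₁ = ζ h₁`, `D' v₂ = - ζ h₂` (`fe_ode`),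
`D' f((1+b)ζ) = 0`.  By `AddA_identity` (times `ζ`; relations `v² = qq f` from `fe_sq` mapped to
`k[b][[ζ]]`) `2 D (v₁ + v₂) ζ = (f₁ - f₂) D'(D)`, so that
`D * D'(2 (f₁ - f₂)²) = 2 (f₁ - f₂)² * D'(D)` and `D * D'(G) = G * D'(D)`.
At `b = 0` we have `f₂ = v₂ = 0`, `D = 2 f₁ ≠ 0`, `G = f₁ * 2 f₁ - 2 f₁² = 0`.  Now
`AddA_unique`. -/
theorem add_formal :
    rescale (1 + Polynomial.X) (PowerSeries.map Polynomial.C (fe b₂ b₄ b₆)) *
      dd (C (Polynomial.C b₂)) (C (Polynomial.C b₄)) (C (Polynomial.C b₆))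
        (PowerSeries.map Polynomial.C (fe b₂ b₄ b₆))
        (rescale Polynomial.X (PowerSeries.map Polynomial.C (fe b₂ b₄ b₆)))
        (PowerSeries.map Polynomial.C (derivative k (fe b₂ b₄ b₆)))
        (rescale Polynomial.X (PowerSeries.map Polynomial.C (derivative k (fe b₂ b₄ b₆)))) =
    2 * (PowerSeries.map Polynomial.C (fe b₂ b₄ b₆) -
      rescale Polynomial.X (PowerSeries.map Polynomial.C (fe b₂ b₄ b₆))) ^ 2 := by
  set F : PowerSeries (Polynomial k) :=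
    rescale (1 + Polynomial.X) (PowerSeries.map Polynomial.C (fe b₂ b₄ b₆)) with hF
  set f₁ : PowerSeries (Polynomial k) := PowerSeries.map Polynomial.C (fe b₂ b₄ b₆) with hf₁
  set f₂ : PowerSeries (Polynomial k) := rescale Polynomial.X f₁ with hf₂
  set v₁ : PowerSeries (Polynomial k) :=
    PowerSeries.map Polynomial.C (derivative k (fe b₂ b₄ b₆)) with hv₁
  set v₂ : PowerSeries (Polynomial k) := rescale Polynomial.X v₁ with hv₂
  have e1 : dE f₁ = X * v₁ := dE_map _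
  have e2 : dE f₂ = -(X * v₂) := dE_rescale_X _
  have e3 : dE v₁ = X * PowerSeries.map Polynomial.C (rhs b₂ b₄ b₆ (fe b₂ b₄ b₆)) := by
    rw [hv₁, dE_map, fe_ode]
  have e4 : dE v₂ = -(X * rescale Polynomial.X
      (PowerSeries.map Polynomial.C (rhs b₂ b₄ b₆ (fe b₂ b₄ b₆)))) := by
    rw [hv₂, hv₁, dE_rescale_X, fe_ode]
  have e5 : dE F = 0 := dE_rescale_one_add _
  have q1 : v₁ ^ 2 = 4 * f₁ + C (Polynomial.C b₂) * f₁ ^ 2 + 2 * C (Polynomial.C b₄) * f₁ ^ 3 +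
      C (Polynomial.C b₆) * f₁ ^ 4 := by
    rw [hv₁, ← map_pow, fe_sq, AddB_map_qq]
  have hresC : ∀ a : k, rescale (Polynomial.X : Polynomial k)
      (C (Polynomial.C a) : PowerSeries (Polynomial k)) = C (Polynomial.C a) := by
    intro a
    refine PowerSeries.ext fun n => ?_
    rw [coeff_rescale, coeff_C]
    split_ifs with hn
    · rw [hn]; simp
    · simp
  have q2 : v₂ ^ 2 = 4 * f₂ + C (Polynomial.C b₂) * f₂ ^ 2 + 2 * C (Polynomial.C b₄) * f₂ ^ 3 +
      C (Polynomial.C b₆) * f₂ ^ 4 := by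
    have h := congrArg (rescale (Polynomial.X : Polynomial k)) q1
    simpa only [map_add, map_mul, map_pow, map_ofNat, hresC] using h
  have h1 := AddB_map_rhs b₂ b₄ b₆ (fe b₂ b₄ b₆)
  have h2 : rescale Polynomial.X (PowerSeries.map Polynomial.C (rhs b₂ b₄ b₆ (fe b₂ b₄ b₆))) =
      2 + C (Polynomial.C b₂) * f₂ + 3 * C (Polynomial.C b₄) * f₂ ^ 2 +
        2 * C (Polynomial.C b₆) * f₂ ^ 3 := by
    rw [h1]
    simp only [map_add, map_mul, map_pow, map_ofNat, hresC]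
    rfl
  have hrel := AddB_rel b₂ b₄ b₆ f₁ f₂ v₁ v₂ _ _ e1 e2 e3 e4 h1 h2 q1 q2
  have hev : PowerSeries.map (Polynomial.evalRingHom (0 : k))
      (dd (C (Polynomial.C b₂)) (C (Polynomial.C b₄)) (C (Polynomial.C b₆)) f₁ f₂ v₁ v₂) =
      2 * fe b₂ b₄ b₆ := by
    rw [AddB_map_D b₂ b₄ b₆ 0]
    have z1 : rescale (0 : k) (fe b₂ b₄ b₆) = 0 := by
      refine PowerSeries.ext fun n => ?_
      rw [coeff_rescale]
      rcases n with _ | n
      · rw [fe_coeff_zero]; simp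
      · simp
    have z2 : rescale (0 : k) (derivative k (fe b₂ b₄ b₆)) = 0 := by
      refine PowerSeries.ext fun n => ?_
      rw [coeff_rescale]
      rcases n with _ | n
      · rw [coeff_derivative, zero_add, fe_coeff_one]; simp
      · simp
    rw [z1, z2]
    unfold dd
    ring
  have hG : F * dd (C (Polynomial.C b₂)) (C (Polynomial.C b₄)) (C (Polynomial.C b₆)) f₁ f₂ v₁ v₂ -
      2 * (f₁ - f₂) ^ 2 = 0 := by
    refine AddA_unique
      (D := dd (C (Polynomial.C b₂)) (C (Polynomial.C b₄)) (C (Polynomial.C b₆)) f₁ f₂ v₁ v₂)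
      (E := dE (dd (C (Polynomial.C b₂)) (C (Polynomial.C b₄)) (C (Polynomial.C b₆))
        f₁ f₂ v₁ v₂)) ?_ ?_ ?_
    · rw [dE_sub, dE_mul F, e5, AddB_dE_two, pow_two, dE_mul, dE_sub, e1, e2]
      linear_combination (-2 * (f₁ - f₂)) * hrel
    · rw [map_sub, map_mul, hev, map_mul, map_pow, map_sub, hF, hf₂, hf₁, AddB_map_rescale,
        AddB_map_rescale, AddB_map_map, map_ofNat]
      have z1 : rescale (Polynomial.eval (0 : k) Polynomial.X) (fe b₂ b₄ b₆) = 0 := by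
        rw [Polynomial.eval_X]
        refine PowerSeries.ext fun n => ?_
        rw [coeff_rescale]
        rcases n with _ | n
        · rw [fe_coeff_zero]; simp
        · simp
      have z3 : rescale (Polynomial.eval (0 : k) (1 + Polynomial.X)) (fe b₂ b₄ b₆) =
          fe b₂ b₄ b₆ := by
        refine PowerSeries.ext fun n => ?_
        rw [coeff_rescale]
        simp
      rw [z1, z3]
      ring
    · rw [hev]
      intro h0
      have h3 := congrArg (coeff 2) h0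
      rw [two_mul, map_add, fe_coeff_two, map_zero] at h3
      norm_num at h3
  exact sub_eq_zero.1 hG

/-- Specialization `b = β` of `add_formal` (apply `PowerSeries.map (Polynomial.evalRingHom β)`;
`rescale_map`). -/
theorem add_formal' (β : k) :
    rescale (1 + β) (fe b₂ b₄ b₆) *
      dd (C b₂) (C b₄) (C b₆) (fe b₂ b₄ b₆) (rescale β (fe b₂ b₄ b₆))
        (derivative k (fe b₂ b₄ b₆)) (rescale β (derivative k (fe b₂ b₄ b₆))) =
    2 * (fe b₂ b₄ b₆ - rescale β (fe b₂ b₄ b₆)) ^ 2 := by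
  have h := congrArg (PowerSeries.map (Polynomial.evalRingHom β)) (add_formal b₂ b₄ b₆)
  rw [map_mul, AddB_map_D, AddB_map_rescale, map_mul, map_pow, map_sub, AddB_map_map,
    AddB_map_rescale, map_ofNat, Polynomial.eval_X] at h
  rw [show Polynomial.eval β (1 + Polynomial.X) = 1 + β by simp] at h
  exact h

end Pool.Agent.PTwist
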