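import Pool.Agent.W_52423f_h30.AddA

/-!
# A uniqueness theorem for a first order equation over `k[b][[ζ]]`
-/

namespace Pool.Agent.PTwist

open PowerSeries

variable {k : Type*} [Field k]

theorem AddU_dvd {G : PowerSeries (Polynomial k)}
    (h0 : PowerSeries.map (Polynomial.evalRingHom (0 : k)) G = 0) :
    ∃ G₁ : PowerSeries (Polynomial k), G = C (Polynomial.X) * G₁ := by
  refine ⟨PowerSeries.mk fun n => (coeff n G).divX, ?_⟩
  refine PowerSeries.ext fun n => ?_
  rw [coeff_C_mul, coeff_mk]
  have h1 : (coeff n G).eval 0 = 0 := by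
    have := congrArg (coeff n) h0
    simpa using this
  have h2 := Polynomial.divX_mul_X_add (coeff n G)
  rw [← Polynomial.coeff_zero_eq_eval_zero] at h1
  rw [h1, map_zero, add_zero] at h2
  rw [mul_comm]
  exact h2.symm

theorem AddU_dE_C (p : Polynomial k) :
    dE (C p : PowerSeries (Polynomial k)) =
      - C ((1 + Polynomial.X) * Polynomial.derivative p) := by
  have h1 : dB (C p : PowerSeries (Polynomial k)) = C (Polynomial.derivative p) := by
    refine PowerSeries.ext fun n => ?_
    unfold dB
    rw [coeff_mk, coeff_C, coeff_C]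
    split_ifs
    · rfl
    · simp
  unfold dE
  rw [h1, map_mul]
  simp

theorem AddU_step [CharZero k] {D E G G₁ : PowerSeries (Polynomial k)} (h : D * dE G = G * E)
    (hD : PowerSeries.map (Polynomial.evalRingHom (0 : k)) D ≠ 0) (m : ℕ)
    (hG : G = C (Polynomial.X ^ (m + 1)) * G₁) :
    ∃ G₂ : PowerSeries (Polynomial k), G = C (Polynomial.X ^ (m + 2)) * G₂ := by
  have h1 : C (Polynomial.X ^ m : Polynomial k) *
      (D * (C (Polynomial.X : Polynomial k) * dE G₁ -
        C ((1 + Polynomial.X) * ((m : Polynomial k) + 1)) * G₁)) =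
      C (Polynomial.X ^ m : Polynomial k) * (C (Polynomial.X : Polynomial k) * (G₁ * E)) := by
    rw [hG, dE_mul, AddU_dE_C] at h
    have h2 : Polynomial.derivative (Polynomial.X ^ (m + 1) : Polynomial k) =
        ((m : Polynomial k) + 1) * Polynomial.X ^ m := by
      rw [Polynomial.derivative_X_pow]
      simp
    rw [h2] at h
    simp only [map_mul, map_add, map_pow, map_one, map_natCast, pow_succ] at h ⊢
    linear_combination h
  have hX : (C (Polynomial.X ^ m : Polynomial k) : PowerSeries (Polynomial k)) ≠ 0 := by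
    intro h0
    have h3 := congrArg (coeff 0) h0
    rw [coeff_C, if_pos rfl, map_zero] at h3
    exact pow_ne_zero m Polynomial.X_ne_zero h3
  have h4 := mul_left_cancel₀ hX h1
  have h5 := congrArg (PowerSeries.map (Polynomial.evalRingHom (0 : k))) h4
  rw [map_mul _ D, map_sub, map_mul _ (C (Polynomial.X : Polynomial k)) (dE G₁),
    map_mul _ (C ((1 + Polynomial.X) * ((m : Polynomial k) + 1))) G₁,
    map_mul _ (C (Polynomial.X : Polynomial k)) (G₁ * E), PowerSeries.map_C,
    PowerSeries.map_C] at h5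
  have h6 : (Polynomial.evalRingHom (0 : k)) Polynomial.X = 0 := by simp
  have h7 : (Polynomial.evalRingHom (0 : k)) ((1 + Polynomial.X) * ((m : Polynomial k) + 1)) =
      (m : k) + 1 := by simp
  rw [h6, h7, map_zero, zero_mul, zero_mul, zero_sub, mul_neg, neg_eq_zero] at h5
  have h8 : (C ((m : k) + 1) : PowerSeries k) ≠ 0 := by
    intro h0
    have h3 := congrArg (coeff 0) h0
    rw [coeff_C, if_pos rfl, map_zero] at h3
    exact (by exact_mod_cast Nat.succ_ne_zero m : ((m : k) + 1) ≠ 0) h3
  have h9 : PowerSeries.map (Polynomial.evalRingHom (0 : k)) G₁ = 0 := by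
    rcases mul_eq_zero.1 h5 with h10 | h10
    · exact absurd h10 hD
    · rcases mul_eq_zero.1 h10 with h11 | h11
      · exact absurd h11 h8
      · exact h11
  obtain ⟨G₂, hG₂⟩ := AddU_dvd h9
  refine ⟨G₂, ?_⟩
  rw [hG, hG₂, ← mul_assoc, ← map_mul, pow_succ Polynomial.X (m + 1)]

/-- Uniqueness: if `D * dE G = G * E`, if `G` vanishes at `b = 0` and `D` does not, then `G = 0`
(characteristic `0`).  Otherwise let `m ≥ 1` be the largest number such that `b ^ m` divides all
coefficients of `G`, `G = b ^ m G₁` (with `b ^ m` the constant power series).  Modulo `b ^ m` the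
left side is `- m b ^ (m-1) D(b=0) G₁(b=0)` and the right side is `0`; but `D(b=0) G₁(b=0)` is not
zero in `k[[ζ]]`.  Here `b = 0` means `PowerSeries.map (Polynomial.evalRingHom 0)`. -/
theorem AddA_unique [CharZero k] {D E G : PowerSeries (Polynomial k)} (h : D * dE G = G * E)
    (h0 : PowerSeries.map (Polynomial.evalRingHom (0 : k)) G = 0)
    (hD : PowerSeries.map (Polynomial.evalRingHom (0 : k)) D ≠ 0) : G = 0 := by
  have hall : ∀ m : ℕ, ∃ G₁ : PowerSeries (Polynomial k),
      G = C (Polynomial.X ^ (m + 1)) * G₁ := by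
    intro m
    induction m with
    | zero =>
      obtain ⟨G₁, hG₁⟩ := AddU_dvd h0
      exact ⟨G₁, by rw [zero_add, pow_one]; exact hG₁⟩
    | succ m ih =>
      obtain ⟨G₁, hG₁⟩ := ih
      exact AddU_step h hD m hG₁
  refine PowerSeries.ext fun n => ?_
  rw [map_zero]
  obtain ⟨G₁, hG₁⟩ := hall (coeff n G).natDegree
  have h1 : Polynomial.X ^ ((coeff n G).natDegree + 1) ∣ coeff n G := by
    refine ⟨coeff n G₁, ?_⟩
    conv_lhs => rw [hG₁]
    rw [coeff_C_mul]
  refine Polynomial.eq_zero_of_dvd_of_natDegree_lt h1 ?_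
  rw [Polynomial.natDegree_X_pow]
  exact Nat.lt_succ_self _

end Pool.Agent.PTwist
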