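import Pool.Agent.W_52423f_h30.Defs
import Pool.Agent.W_52423f_h30.AddA

/-!
# The x-coordinate of a sum in terms of `iX` and `iV`
-/

namespace Pool.Agent.PTwist

open WeierstrassCurve WeierstrassCurve.Affine

variable {k : Type*} [Field k] [DecidableEq k] (V : WeierstrassCurve k)

/-- `add_of_X_ne`, `slope_of_X_ne`, `addX`; with `η = 2 y + a₁ x + a₃` one has
`2 slope + a₁ = (η₁ - η₂) / (x₁ - x₂)`, hence
`x₃ = ((η₁ - η₂) / (x₁ - x₂))² / 4 - b₂ / 4 - x₁ - x₂`; use the two curve equations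
`η² = 4 x³ + b₂ x² + 2 b₄ x + b₆`. -/
theorem AddX_formula (h2 : (2 : k) ≠ 0) {x₁ y₁ x₂ y₂ : k} (h₁ : V.toAffine.Nonsingular x₁ y₁)
    (h₂ : V.toAffine.Nonsingular x₂ y₂) (hx : x₁ ≠ x₂) (hx₁ : x₁ ≠ 0) (hx₂ : x₂ ≠ 0) :
    ∃ (x₃ y₃ : k) (h₃ : V.toAffine.Nonsingular x₃ y₃),
      Point.some x₁ y₁ h₁ + Point.some x₂ y₂ h₂ = Point.some x₃ y₃ h₃ ∧
      x₃ * (2 * (x₁⁻¹ - x₂⁻¹) ^ 2) =
        dd V.b₂ V.b₄ V.b₆ x₁⁻¹ x₂⁻¹ (iV V (.some x₁ y₁ h₁)) (iV V (.some x₂ y₂ h₂)) := by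
  have hsub : x₁ - x₂ ≠ 0 := sub_ne_zero.mpr hx
  refine ⟨_, _, nonsingular_add h₁ h₂ fun hxy => hx hxy.left, Point.add_of_X_ne hx, ?_⟩
  have e₁ := (V.toAffine.equation_iff x₁ y₁).mp h₁.1
  have e₂ := (V.toAffine.equation_iff x₂ y₂).mp h₂.1
  rw [V.toAffine.slope_of_X_ne hx, iV_some, iV_some, WeierstrassCurve.Affine.addX, dd,
    WeierstrassCurve.b₂, WeierstrassCurve.b₄, WeierstrassCurve.b₆]
  field_simp
  linear_combination (2 * (x₁ - x₂) ^ 2) * e₁ + (2 * (x₁ - x₂) ^ 2) * e₂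

/-- a point with `2 P = 0` and `x ≠ 0` has `iV P = 0` -/
theorem iV_eq_zero_of_two (P : V.toAffine.Point) (h : P + P = 0) : iV V P = 0 := by
  rcases P with _ | ⟨x, y, hP⟩
  · rfl
  · have h1 : Point.some x y hP = -Point.some x y hP := eq_neg_of_add_eq_zero_left h
    rw [Point.neg_some, Point.some.injEq] at h1
    have h2 : y = -y - V.a₁ * x - V.a₃ := h1.2
    rw [iV_some]
    have h3 : 2 * y + V.a₁ * x + V.a₃ = 0 := by linear_combination h2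
    rw [h3]
    simp

end Pool.Agent.PTwist
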