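import Pool.Agent.W_52423f_h30.Core

/-!
# The multiplier is algebraic and independent of the embedding
-/

namespace Pool.Agent.PTwist

open NumberField PowerSeries

section Poly

variable {M : Type*} [Field M] [NumberField M]

/-- A nonzero coefficient matrix gives a nonzero polynomial `∑ g a b X^a Y^b` in `M[X][Y]`. -/
theorem Alg_poly {D : ℕ} (g : Fin D → Fin D → 𝓞 M) (hg : g ≠ 0) :
    ∃ G : Polynomial (Polynomial M), G ≠ 0 ∧ ∀ x y : M, Polynomial.evalEval x y G = pval g x y := by
  classical
  refine ⟨∑ a : Fin D, ∑ b : Fin D,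
    Polynomial.monomial (b : ℕ) (Polynomial.monomial (a : ℕ) (g a b : M)), ?_, ?_⟩
  · intro h0
    apply hg
    funext a b
    have h1 := congrArg (fun G => (Polynomial.coeff (Polynomial.coeff G (b : ℕ)) (a : ℕ))) h0
    simp only [Polynomial.finsetSum_coeff, Polynomial.coeff_zero] at h1
    rw [Finset.sum_eq_single a, Finset.sum_eq_single b] at h1
    · rw [Polynomial.coeff_monomial, if_pos rfl, Polynomial.coeff_monomial, if_pos rfl] at h1
      exact_mod_cast h1
    · intro b' _ hb'
      rw [Polynomial.coeff_monomial, if_neg (fun h => hb' (Fin.ext h)), Polynomial.coeff_zero]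
    · intro h
      exact absurd (Finset.mem_univ _) h
    · intro a' _ ha'
      refine Finset.sum_eq_zero fun b' _ => ?_
      rw [Polynomial.coeff_monomial]
      split_ifs with hb
      · rw [Polynomial.coeff_monomial, if_neg (fun h => ha' (Fin.ext h))]
      · rw [Polynomial.coeff_zero]
    · intro h
      exact absurd (Finset.mem_univ _) h
  · intro x y
    unfold pval
    unfold Polynomial.evalEval
    rw [Polynomial.eval_finsetSum, Polynomial.eval_finsetSum]
    refine Finset.sum_congr rfl fun a _ => ?_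
    rw [Polynomial.eval_finsetSum, Polynomial.eval_finsetSum]
    refine Finset.sum_congr rfl fun b _ => ?_
    rw [Polynomial.eval_monomial, Polynomial.eval_mul, Polynomial.eval_pow, Polynomial.eval_C,
      Polynomial.eval_monomial]

/-- Minimal relation: among the nonzero `G ∈ M[X][Y]` vanishing at all `(X s, Y s)` take one of
minimal degree in `Y`; the degree is positive because the `X s` are infinitely many; its derivative
with respect to `Y` is not zero and has smaller degree, so it does not vanish at all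
`(X s, Y s)`. -/
theorem Alg_minimal {S : Type*} {X Y : S → M} (hinf : (Set.range X).Infinite)
    (h : ∃ G : Polynomial (Polynomial M), G ≠ 0 ∧ ∀ s, Polynomial.evalEval (X s) (Y s) G = 0) :
    ∃ G : Polynomial (Polynomial M), (∀ s, Polynomial.evalEval (X s) (Y s) G = 0) ∧
      ∃ s, Polynomial.evalEval (X s) (Y s) (Polynomial.derivative G) ≠ 0 := by
  classical
  have hex : ∃ n : ℕ, ∃ G : Polynomial (Polynomial M), G.natDegree = n ∧ G ≠ 0 ∧
      ∀ s, Polynomial.evalEval (X s) (Y s) G = 0 := by
    obtain ⟨G, h0, h1⟩ := h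
    exact ⟨_, G, rfl, h0, h1⟩
  obtain ⟨G, hdeg, hG0, hG⟩ := Nat.find_spec hex
  refine ⟨G, hG, ?_⟩
  by_contra hcon
  push Not at hcon
  have hd0 : Polynomial.derivative G = 0 := by
    by_contra hne
    have hlt : (Polynomial.derivative G).natDegree < G.natDegree := by
      apply Polynomial.natDegree_derivative_lt
      intro hz
      apply hne
      rw [Polynomial.eq_C_of_natDegree_eq_zero hz, Polynomial.derivative_C]
    rw [hdeg] at hlt
    exact Nat.find_min hex hlt ⟨_, rfl, hne, hcon⟩
  have hz : G.natDegree = 0 := Polynomial.derivative_eq_zero.1 hd0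
  have hC := Polynomial.eq_C_of_natDegree_eq_zero hz
  have ha : G.coeff 0 = 0 := by
    apply Polynomial.eq_zero_of_infinite_isRoot
    refine hinf.mono ?_
    rintro _ ⟨s, rfl⟩
    have h1 := hG s
    rw [hC] at h1
    unfold Polynomial.evalEval at h1
    rw [Polynomial.eval_C] at h1
    exact h1
  apply hG0
  rw [hC, ha, map_zero]

/-- derivative with respect to the inner variable `X` -/
noncomputable def dX (G : Polynomial (Polynomial M)) : Polynomial (Polynomial M) :=
  G.sum fun j a => Polynomial.monomial j (Polynomial.derivative a)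

end Poly

section Series

variable {M : Type*} [Field M]
variable {K : Type*} [NontriviallyNormedField K] [CompleteSpace K] [IsUltrametricDist K]

/-- the power series `G(f₁, f₂)` -/
noncomputable def cser (ι : M →+* K) (G : Polynomial (Polynomial M)) (f₁ f₂ : PowerSeries K) :
    PowerSeries K :=
  Polynomial.eval₂ (Polynomial.eval₂RingHom ((PowerSeries.C (R := K)).comp ι) f₁) f₂ G

theorem Alg_in_bd (ι : M →+* K) (a : Polynomial M) {f₁ : PowerSeries K} {ρ : ℝ}
    (hρ : 0 ≤ ρ) (h₁ : Bd ρ 1 f₁) :
    ∃ c : ℝ, Bd ρ c (Polynomial.eval₂ ((PowerSeries.C (R := K)).comp ι) f₁ a) := by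
  induction a using Polynomial.induction_on' with
  | add p q hp hq =>
    obtain ⟨c, hc⟩ := hp
    obtain ⟨d, hd⟩ := hq
    rw [Polynomial.eval₂_add]
    exact ⟨max c d, (hc.mono hρ (le_max_left _ _)).add (hd.mono hρ (le_max_right _ _))⟩
  | monomial n a =>
    rw [Polynomial.eval₂_monomial]
    exact ⟨_, Bd.mul hρ (Bd.const hρ le_rfl) (Bd.pow hρ h₁ n)⟩

theorem Alg_in_ev (ι : M →+* K) (a : Polynomial M) {f₁ : PowerSeries K} {ρ : ℝ}
    (hρ : 0 ≤ ρ) (h₁ : Bd ρ 1 f₁) {z : K} (hz : ρ * ‖z‖ < 1) {x : M} (hx : ι x = ev f₁ z) :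
    ev (Polynomial.eval₂ ((PowerSeries.C (R := K)).comp ι) f₁ a) z =
      ι (Polynomial.eval x a) := by
  induction a using Polynomial.induction_on' with
  | add p q hp hq =>
    obtain ⟨c, hc⟩ := Alg_in_bd ι p hρ h₁
    obtain ⟨d, hd⟩ := Alg_in_bd ι q hρ h₁
    rw [Polynomial.eval₂_add, ev_add hρ (hc.mono hρ (le_max_left c d))
      (hd.mono hρ (le_max_right c d)) hz, hp, hq, Polynomial.eval_add, map_add]
  | monomial n a =>
    rw [Polynomial.eval₂_monomial, RingHom.comp_apply,
      ev_mul hρ (Bd.const (c := ‖ι a‖) hρ le_rfl)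
      (Bd.pow hρ h₁ n) hz, ev_pow hρ h₁ hz, Polynomial.eval_monomial, map_mul, map_pow, hx,
      ev_C]

theorem Alg_in_deriv (ι : M →+* K) (a : Polynomial M) (f₁ : PowerSeries K) :
    derivative K (Polynomial.eval₂ ((PowerSeries.C (R := K)).comp ι) f₁ a) =
      Polynomial.eval₂ ((PowerSeries.C (R := K)).comp ι) f₁ (Polynomial.derivative a) *
        derivative K f₁ := by
  induction a using Polynomial.induction_on' with
  | add p q hp hq =>
    rw [Polynomial.eval₂_add, map_add, hp, hq, map_add, Polynomial.eval₂_add, add_mul]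
  | monomial n a =>
    rw [Polynomial.eval₂_monomial, Polynomial.derivative_monomial, Polynomial.eval₂_monomial,
      Derivation.leibniz, derivative_pow, RingHom.comp_apply, derivative_C, smul_zero, add_zero,
      smul_eq_mul, RingHom.comp_apply, map_mul, map_natCast, map_mul, map_natCast]
    ring

theorem cser_add (ι : M →+* K) (G H : Polynomial (Polynomial M)) (f₁ f₂ : PowerSeries K) :
    cser ι (G + H) f₁ f₂ = cser ι G f₁ f₂ + cser ι H f₁ f₂ := by
  unfold cser
  rw [Polynomial.eval₂_add]

theorem cser_mono (ι : M →+* K) (j : ℕ) (a : Polynomial M) (f₁ f₂ : PowerSeries K) :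
    cser ι (Polynomial.monomial j a) f₁ f₂ =
      Polynomial.eval₂ ((PowerSeries.C (R := K)).comp ι) f₁ a * f₂ ^ j := by
  unfold cser
  rw [Polynomial.eval₂_monomial, Polynomial.coe_eval₂RingHom]

theorem cser_bd (ι : M →+* K) (G : Polynomial (Polynomial M)) {f₁ f₂ : PowerSeries K} {ρ : ℝ}
    (hρ : 0 ≤ ρ) (h₁ : Bd ρ 1 f₁) (h₂ : Bd ρ 1 f₂) : ∃ c : ℝ, Bd ρ c (cser ι G f₁ f₂) := by
  induction G using Polynomial.induction_on' with
  | add p q hp hq =>
    obtain ⟨c, hc⟩ := hp
    obtain ⟨d, hd⟩ := hq
    rw [cser_add]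
    exact ⟨max c d, (hc.mono hρ (le_max_left _ _)).add (hd.mono hρ (le_max_right _ _))⟩
  | monomial n a =>
    rw [cser_mono]
    obtain ⟨c, hc⟩ := Alg_in_bd ι a hρ h₁
    exact ⟨_, Bd.mul hρ hc (Bd.pow hρ h₂ n)⟩

theorem cser_ev (ι : M →+* K) (G : Polynomial (Polynomial M)) {f₁ f₂ : PowerSeries K} {ρ : ℝ}
    (hρ : 0 ≤ ρ) (h₁ : Bd ρ 1 f₁) (h₂ : Bd ρ 1 f₂) {z : K} (hz : ρ * ‖z‖ < 1) {x y : M}
    (hx : ι x = ev f₁ z) (hy : ι y = ev f₂ z) :
    ev (cser ι G f₁ f₂) z = ι (Polynomial.evalEval x y G) := by
  induction G using Polynomial.induction_on' with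
  | add p q hp hq =>
    obtain ⟨c, hc⟩ := cser_bd ι p hρ h₁ h₂
    obtain ⟨d, hd⟩ := cser_bd ι q hρ h₁ h₂
    rw [cser_add, ev_add hρ (hc.mono hρ (le_max_left c d))
      (hd.mono hρ (le_max_right c d)) hz, hp, hq, Polynomial.evalEval_add, map_add]
  | monomial n a =>
    obtain ⟨c, hc⟩ := Alg_in_bd ι a hρ h₁
    rw [cser_mono, ev_mul hρ hc (Bd.pow hρ h₂ n) hz, ev_pow hρ h₂ hz,
      Alg_in_ev ι a hρ h₁ hz hx]
    unfold Polynomial.evalEval
    rw [Polynomial.eval_monomial, Polynomial.eval_mul, Polynomial.eval_pow, Polynomial.eval_C,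
      map_mul, map_pow, hy]

/-- chain rule (by induction on `G`, both sides are additive; for monomials Leibniz rule) -/
theorem cser_deriv (ι : M →+* K) (G : Polynomial (Polynomial M)) (f₁ f₂ : PowerSeries K) :
    derivative K (cser ι G f₁ f₂) =
      cser ι (G.sum fun j a => Polynomial.monomial j (Polynomial.derivative a)) f₁ f₂ *
        derivative K f₁ +
      cser ι (Polynomial.derivative G) f₁ f₂ * derivative K f₂ := by
  induction G using Polynomial.induction_on' with
  | add p q hp hq =>
    have hs : ((p + q).sum fun j a => Polynomial.monomial j (Polynomial.derivative a)) =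
        (p.sum fun j a => Polynomial.monomial j (Polynomial.derivative a)) +
          (q.sum fun j a => Polynomial.monomial j (Polynomial.derivative a)) := by
      apply Polynomial.sum_add_index
      · intro i
        rw [map_zero, map_zero]
      · intro i a b
        rw [map_add, map_add]
    rw [hs, cser_add, cser_add, map_add, map_add, cser_add, hp, hq]
    ring
  | monomial n a =>
    have hs : ((Polynomial.monomial n a).sum fun j a =>
        Polynomial.monomial j (Polynomial.derivative a)) =
        Polynomial.monomial n (Polynomial.derivative a) := by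
      apply Polynomial.sum_monomial_index
      rw [map_zero, map_zero]
    rw [hs, cser_mono, cser_mono, Polynomial.derivative_monomial, cser_mono,
      Derivation.leibniz, derivative_pow, Alg_in_deriv, smul_eq_mul, smul_eq_mul,
      Polynomial.eval₂_mul, Polynomial.eval₂_natCast]
    ring

end Series

end Pool.Agent.PTwist
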