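import Pool.Agent.W_52423f_h30.Alg

/-!
# The multiplier is algebraic and independent of the embedding
-/

namespace Pool.Agent.PTwist

open NumberField PowerSeries

variable {M : Type*} [Field M] [NumberField M]
variable {K : Type*} [NontriviallyNormedField K] [CompleteSpace K] [IsUltrametricDist K]

/-- The data for one embedding: a power series `f`, points `z s` in a ball, a multiplier `c` such
that `X s = f(z s)`, `Y s = f(c z s)`, `V s = f'(z s)`, `U s = f'(c z s)` (after embedding). -/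
structure Rel {n : ℕ} (X Y V U : (Fin n → ℤ) → M) (f : PowerSeries K) (ρ r : ℝ) (ι : M →+* K)
    (c : K) : Prop where
  hρ : 0 ≤ ρ
  hr0 : 0 < r
  hr : ρ * r < 1
  hf : Bd ρ 1 f
  hc : ‖c‖ ≤ 1
  ex : ∃ z : (Fin n → ℤ) → K, Function.Injective z ∧ (∀ s, ‖z s‖ ≤ r) ∧
    (∀ s, ι (X s) = ev f (z s)) ∧ (∀ s, ι (Y s) = ev f (c * z s)) ∧
    (∀ s, ι (V s) = ev (derivative K f) (z s)) ∧
    (∀ s, ι (U s) = ev (derivative K f) (c * z s))

theorem AlgB_lt {K : Type*} [NontriviallyNormedField K] {ρ r : ℝ} {z : K} (hρ : 0 ≤ ρ)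
    (hr : ρ * r < 1) (hz : ‖z‖ ≤ r) : ρ * ‖z‖ < 1 :=
  lt_of_le_of_lt (mul_le_mul_of_nonneg_left hz hρ) hr

theorem AlgB_deriv {K : Type*} [Field K] (c : K) (f : PowerSeries K) :
    derivative K (PowerSeries.rescale c f) =
      PowerSeries.C c * PowerSeries.rescale c (derivative K f) := by
  ext n
  rw [PowerSeries.coeff_C_mul, PowerSeries.coeff_rescale, PowerSeries.coeff_derivative,
    PowerSeries.coeff_derivative, PowerSeries.coeff_rescale]
  ring

/-- Let `G, s₁` be as in `Alg_minimal`.  For every relation the power series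
`cser ι G f (rescale c f)` vanishes at all `z s`, so it is zero (`eq_zero_of_infinite`), and so is
its derivative (`cser_deriv`; the derivative of `rescale c f` is `C c * rescale c f'`).  The power
series `cser ι (∂_Y G) f (rescale c f)` is not zero (value at `z s₁`), so it has only finitely many
zeros among the `z s`; this set of zeros `{s | evalEval (X s) (Y s) (∂_Y G) = 0}` does not depend on
`ι`.  Choose `s` outside with `U s ≠ 0`: then
`κ = - (dX G)(X s, Y s) V s / ((∂_Y G)(X s, Y s) U s)` satisfies `ι κ = c` for every relation.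
(`hU`: `U s = 0` for only finitely many `s`.)  If there is no relation at all the statement is
trivial. -/
theorem exists_kappa {n : ℕ} (hn : 0 < n) {X Y V U : (Fin n → ℤ) → M}
    (hXinf : (Set.range X).Infinite) (hU : {s | U s = 0}.Finite)
    (h : ∃ G : Polynomial (Polynomial M), G ≠ 0 ∧ ∀ s, Polynomial.evalEval (X s) (Y s) G = 0) :
    ∃ κ : M, ∀ (f : PowerSeries K) (ρ r : ℝ) (ι : M →+* K) (c : K),
      Rel X Y V U f ρ r ι c → ι κ = c := by
  classical
  have : Nonempty (Fin n) := ⟨⟨0, hn⟩⟩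
  obtain ⟨G, hG, s₁, hs₁⟩ := Alg_minimal hXinf h
  by_cases hR : ∃ (f : PowerSeries K) (ρ r : ℝ) (ι : M →+* K) (c : K), Rel X Y V U f ρ r ι c
  swap
  · exact ⟨0, fun f ρ r ι c h' => absurd ⟨f, ρ, r, ι, c, h'⟩ hR⟩
  obtain ⟨f₀, ρ₀, r₀, ι₀, c₀, hR₀⟩ := hR
  have hA : {s | Polynomial.evalEval (X s) (Y s) (Polynomial.derivative G) = 0}.Finite := by
    obtain ⟨z, hzi, hzr, hX, hY, -, -⟩ := hR₀.ex
    by_contra hinf
    have hinf' : (z '' {s | Polynomial.evalEval (X s) (Y s) (Polynomial.derivative G) = 0}).Infinite :=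
      Set.Infinite.image hzi.injOn hinf
    obtain ⟨b, hb⟩ := cser_bd ι₀ (Polynomial.derivative G) hR₀.hρ hR₀.hf (hR₀.hf.rescale hR₀.hc)
    have hev : ∀ s, ev (cser ι₀ (Polynomial.derivative G) f₀ (PowerSeries.rescale c₀ f₀)) (z s) =
        ι₀ (Polynomial.evalEval (X s) (Y s) (Polynomial.derivative G)) := fun s =>
      cser_ev ι₀ _ hR₀.hρ hR₀.hf (hR₀.hf.rescale hR₀.hc) (AlgB_lt hR₀.hρ hR₀.hr (hzr s)) (hX s)
        (by rw [ev_rescale]; exact hY s)
    have h0 : cser ι₀ (Polynomial.derivative G) f₀ (PowerSeries.rescale c₀ f₀) = 0 := by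
      refine eq_zero_of_infinite hR₀.hρ hR₀.hr0 hR₀.hr hb hinf' ?_
      rintro w ⟨s, hs, rfl⟩
      refine ⟨hzr s, ?_⟩
      rw [hev s, show Polynomial.evalEval (X s) (Y s) (Polynomial.derivative G) = 0 from hs, map_zero]
    have h1 := hev s₁
    rw [h0, ev_zero] at h1
    exact hs₁ ((map_eq_zero ι₀).1 h1.symm)
  obtain ⟨s, hs⟩ := (hA.union hU).infinite_compl.nonempty
  have hsA : Polynomial.evalEval (X s) (Y s) (Polynomial.derivative G) ≠ 0 := fun h' =>
    hs (Or.inl h')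
  have hsU : U s ≠ 0 := fun h' => hs (Or.inr h')
  refine ⟨-(Polynomial.evalEval (X s) (Y s) (dX G) * V s) /
    (Polynomial.evalEval (X s) (Y s) (Polynomial.derivative G) * U s), ?_⟩
  intro f ρ r ι c hR
  obtain ⟨z, hzi, hzr, hX, hY, hV, hU'⟩ := hR.ex
  have hfr := hR.hf.rescale hR.hc
  have hlt : ∀ t, ρ * ‖z t‖ < 1 := fun t => AlgB_lt hR.hρ hR.hr (hzr t)
  have h0 : cser ι G f (PowerSeries.rescale c f) = 0 := by
    obtain ⟨b, hb⟩ := cser_bd ι G hR.hρ hR.hf hfr
    refine eq_zero_of_infinite hR.hρ hR.hr0 hR.hr hb (Set.infinite_range_of_injective hzi) ?_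
    rintro w ⟨t, rfl⟩
    refine ⟨hzr t, ?_⟩
    rw [cser_ev ι G hR.hρ hR.hf hfr (hlt t) (hX t) (by rw [ev_rescale]; exact hY t), hG t, map_zero]
  have h1 := cser_deriv ι G f (PowerSeries.rescale c f)
  rw [h0, map_zero] at h1
  have h2 := congrArg (fun F => ev F (z s)) h1
  simp only [ev_zero] at h2
  obtain ⟨b₁, hb₁⟩ := cser_bd ι (dX G) hR.hρ hR.hf hfr
  obtain ⟨b₂, hb₂⟩ := cser_bd ι (Polynomial.derivative G) hR.hρ hR.hf hfr
  have hd := hR.hf.deriv hR.hρ
  have hd' := hfr.deriv hR.hρ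
  have e1 : ev (cser ι (dX G) f (PowerSeries.rescale c f)) (z s) =
      ι (Polynomial.evalEval (X s) (Y s) (dX G)) :=
    cser_ev ι _ hR.hρ hR.hf hfr (hlt s) (hX s) (by rw [ev_rescale]; exact hY s)
  have e2 : ev (cser ι (Polynomial.derivative G) f (PowerSeries.rescale c f)) (z s) =
      ι (Polynomial.evalEval (X s) (Y s) (Polynomial.derivative G)) :=
    cser_ev ι _ hR.hρ hR.hf hfr (hlt s) (hX s) (by rw [ev_rescale]; exact hY s)
  have e3 : ev (derivative K (PowerSeries.rescale c f)) (z s) = c * ι (U s) := by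
    rw [AlgB_deriv, ev_mul (c := 1) (c' := 1 * ρ) hR.hρ (Bd.const hR.hρ hR.hc) (hd.rescale hR.hc)
      (hlt s), ev_C, ev_rescale, hU' s]
  rw [show (G.sum fun j a => Polynomial.monomial j (Polynomial.derivative a)) = dX G from rfl,
    ev_add hR.hρ (hb₁.mul hR.hρ hd) (hb₂.mul hR.hρ hd') (hlt s),
    ev_mul hR.hρ hb₁ hd (hlt s), ev_mul hR.hρ hb₂ hd' (hlt s), e1, e2, e3, ← hV s] at h2
  have hne : ι (Polynomial.evalEval (X s) (Y s) (Polynomial.derivative G)) * ι (U s) ≠ 0 :=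
    mul_ne_zero ((map_ne_zero ι).2 hsA) ((map_ne_zero ι).2 hsU)
  rw [map_div₀, map_neg, map_mul, map_mul, div_eq_iff hne]
  linear_combination h2

end Pool.Agent.PTwist
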