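import Pool.Agent.W_52423f_h30.ClosC

/-!
# The rank of the closure of a group with independent logarithms
-/

namespace Pool.Agent.PTwist

open WeierstrassCurve WeierstrassCurve.Affine PowerSeries

variable {K : Type*} [NontriviallyNormedField K] [CompleteSpace K] [IsUltrametricDist K]
  [IsAlgClosed K] [DecidableEq K] {p : ℕ} [Fact p.Prime] [NormedAlgebra ℚ_[p] K]
  {T : Type*} [Finite T] (C : T → WeierstrassCurve K) [∀ t, (C t).IsElliptic]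
  {r₀ : T → ℝ} (hLC : ∀ t, LC p (C t).b₂ (C t).b₄ (C t).b₆ (r₀ t))
  {d : ℕ} {z : Fin d → T → K} (hz : ∀ j t, ‖z j t‖ ≤ rad (r₀ t))

/-- assembly -/
theorem clos_hasRank (hLC : ∀ t, LC p (C t).b₂ (C t).b₄ (C t).b₆ (r₀ t))
    (hz : ∀ j t, ‖z j t‖ ≤ rad (r₀ t))
    (hind : ∀ a : Fin d → ℤ_[p],
      (∀ t, ∑ j, algebraMap ℚ_[p] K (a j : ℚ_[p]) * z j t = 0) → a = 0)
    {u : Fin d → (t : T) → (C t).toAffine.Point} (hu : ∀ j t, expPt (C t) (z j t) = u j t)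
    {S : Set ((t : T) → (C t).toAffine.Point)} (hS₀ : ∀ m : Fin d → ℤ, ∑ j, m j • u j ∈ S)
    {A : Finset ((t : T) → (C t).toAffine.Point)}
    (hS : ∀ x ∈ S, ∃ s ∈ A, ∃ m : Fin d → ℤ, x = s + ∑ j, m j • u j) :
    HasRank C p d (clos C S) := by
  obtain ⟨φ, hφ⟩ := Clos_hom C hLC hz
  exact ⟨φ, Clos_inj C hLC hz hφ hind, Clos_cont C hLC hz hφ, Clos_mem C hLC hz hφ hu hS₀, A,
    fun h hh => Clos_finite C hLC hz hφ hu hS hh⟩

end Pool.Agent.PTwist
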