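import Pool.Agent.W_52423f_h30.ExpAdd

/-!
# The neighbourhoods of the origin are subgroups
-/

namespace Pool.Agent.PTwist

open WeierstrassCurve WeierstrassCurve.Affine PowerSeries

section basic

variable {K : Type*} [NormedField K] (V : WeierstrassCurve K)

theorem near_zero (R : ℝ) : Near V R 0 := Or.inl rfl

theorem near_mono {R R' : ℝ} (h : R ≤ R') {P : V.toAffine.Point} (hP : Near V R' P) :
    Near V R P := by
  rcases hP with rfl | ⟨x, y, hn, rfl, hx⟩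
  · exact Or.inl rfl
  · exact Or.inr ⟨x, y, hn, rfl, h.trans_lt hx⟩

theorem near_neg {R : ℝ} {P : V.toAffine.Point} (hP : Near V R P) : Near V R (-P) := by
  rcases hP with rfl | ⟨x, y, hn, rfl, hx⟩
  · exact Or.inl Point.neg_zero
  · exact Or.inr ⟨x, _, _, Point.neg_some hn, hx⟩

theorem near_eq_zero {P : V.toAffine.Point} (hP : ∀ R, Near V R P) : P = 0 := by
  rcases P with _ | ⟨x, y, h⟩
  · rfl
  · rcases hP ‖x‖ with h0 | ⟨x', y', h', he, hx⟩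
    · exact h0
    · simp only [Point.some.injEq] at he
      rw [he.1] at hx
      exact absurd hx (lt_irrefl _)

/-- `ρ = p (1 + ‖b₂‖ + ‖b₄‖ + ‖b₆‖)` -/
theorem exists_LC (p : ℕ) [Fact p.Prime] (b₂ b₄ b₆ : K) : ∃ ρ, LC p b₂ b₄ b₆ ρ := by
  have hp : (0 : ℝ) ≤ p := Nat.cast_nonneg p
  have h2 : 0 ≤ (p : ℝ) * ‖b₂‖ := mul_nonneg hp (norm_nonneg _)
  have h4 : 0 ≤ (p : ℝ) * ‖b₄‖ := mul_nonneg hp (norm_nonneg _)
  have h6 : 0 ≤ (p : ℝ) * ‖b₆‖ := mul_nonneg hp (norm_nonneg _)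
  refine ⟨p + p * ‖b₂‖ + p * ‖b₄‖ + p * ‖b₆‖, ?_, ?_, ?_, ?_⟩ <;> linarith

end basic

variable {K : Type*} [NontriviallyNormedField K] [CompleteSpace K] [IsUltrametricDist K]
  [DecidableEq K] [IsAlgClosed K] (V : WeierstrassCurve K) [V.IsElliptic]

/-- Take `R₀` from `expPt_surj`; write `P = exp z`, `Q = exp w`, then `P + Q = exp (z + w)`
(`expPt_add`) and `near_expPt`, `‖z + w‖ ≤ max ‖z‖ ‖w‖`. -/
theorem near_add (p : ℕ) [Fact p.Prime] [NormedAlgebra ℚ_[p] K] :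
    ∃ R₀ : ℝ, ∀ R, R₀ ≤ R → ∀ P Q : V.toAffine.Point, Near V R P → Near V R Q →
    Near V R (P + Q) := by
  obtain ⟨ρ, h⟩ := exists_LC (K := K) p V.b₂ V.b₄ V.b₆
  obtain ⟨R₁, hR₁⟩ := expPt_surj V h
  refine ⟨R₁, fun R hR P Q hP hQ => ?_⟩
  obtain ⟨z, hz, rfl⟩ := hR₁ P (near_mono V hR hP)
  obtain ⟨w, hw, rfl⟩ := hR₁ Q (near_mono V hR hQ)
  rw [near_expPt V h hz R] at hP
  rw [near_expPt V h hw R] at hQ
  have hzw : ‖z + w‖ ≤ max ‖z‖ ‖w‖ := IsUltrametricDist.norm_add_le_max z w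
  have hzw' : ‖z + w‖ ≤ rad ρ := hzw.trans (max_le hz hw)
  rw [← expPt_add V h hz hw, near_expPt V h hzw' R]
  by_cases h0 : z + w = 0
  · exact Or.inl h0
  · right
    have hpos : 0 < ‖z + w‖ := norm_pos_iff.mpr h0
    have key : ∀ t : K, ‖z + w‖ ≤ ‖t‖ → (t = 0 ∨ R < (‖t‖ ^ 2)⁻¹) → R < (‖z + w‖ ^ 2)⁻¹ := by
      intro t ht hR'
      rcases hR' with rfl | hR'
      · rw [norm_zero] at ht
        exact absurd hpos (not_lt.mpr ht)
      · refine hR'.trans_le ?_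
        exact inv_anti₀ (by positivity) (pow_le_pow_left₀ (norm_nonneg _) ht 2)
    rcases max_cases ‖z‖ ‖w‖ with ⟨hm, _⟩ | ⟨hm, _⟩
    · exact key z (hzw.trans hm.le) hP
    · exact key w (hzw.trans hm.le) hQ

/-- from `near_add` (induction for natural multiples) and `near_neg` -/
theorem near_zsmul (p : ℕ) [Fact p.Prime] [NormedAlgebra ℚ_[p] K] :
    ∃ R₀ : ℝ, ∀ R, R₀ ≤ R → ∀ (P : V.toAffine.Point) (m : ℤ), Near V R P →
    Near V R (m • P) := by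
  obtain ⟨R₀, hR₀⟩ := near_add V p
  refine ⟨R₀, fun R hR P m hP => ?_⟩
  have hnat : ∀ n : ℕ, Near V R (n • P) := by
    intro n
    induction n with
    | zero => rw [zero_smul]; exact near_zero V R
    | succ n ih => rw [succ_nsmul]; exact hR₀ R hR _ _ ih hP
  obtain ⟨n, rfl | rfl⟩ := m.eq_nat_or_neg
  · rw [natCast_zsmul]; exact hnat n
  · rw [neg_smul, natCast_zsmul]; exact near_neg V (hnat n)

end Pool.Agent.PTwist
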