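import Pool.Agent.W_52423f_h30.ClosDefs
import Pool.Agent.W_52423f_h30.NearGrp

/-!
# The rank of the closure of a group with independent logarithms
-/

namespace Pool.Agent.PTwist

open WeierstrassCurve WeierstrassCurve.Affine PowerSeries

variable {K : Type*} [NontriviallyNormedField K] [CompleteSpace K] [IsUltrametricDist K]
  [IsAlgClosed K] [DecidableEq K] {p : ℕ} [Fact p.Prime] [NormedAlgebra ℚ_[p] K]
  {T : Type*} [Finite T] (C : T → WeierstrassCurve K) [∀ t, (C t).IsElliptic]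
  {r₀ : T → ℝ} (hLC : ∀ t, LC p (C t).b₂ (C t).b₄ (C t).b₆ (r₀ t))
  {d : ℕ} {z : Fin d → T → K} (hz : ∀ j t, ‖z j t‖ ≤ rad (r₀ t))

section

include hLC hz

/-- the vectors `∑ a j z j` are in the balls -/
theorem Clos_norm (a : Fin d → ℤ_[p]) (t : T) :
    ‖∑ j, algebraMap ℚ_[p] K (a j : ℚ_[p]) * z j t‖ ≤ rad (r₀ t) := by
  refine Ev_sum _ (hLC t).rad_pos.le fun j _ => ?_
  rw [norm_mul, norm_algebraMap']
  have h1 : ‖(a j : ℚ_[p])‖ ≤ 1 := (a j).2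
  have h2 := hz j t
  have h3 := norm_nonneg (z j t)
  calc ‖(a j : ℚ_[p])‖ * ‖z j t‖ ≤ 1 * ‖z j t‖ := mul_le_mul_of_nonneg_right h1 h3
    _ = ‖z j t‖ := one_mul _
    _ ≤ _ := h2

/-- The homomorphism `a ↦ exp (∑ a j z j)` (`expPt_add`, `Clos_norm`). -/
theorem Clos_hom : ∃ φ : (Fin d → ℤ_[p]) →+ ((t : T) → (C t).toAffine.Point),
    ∀ a t, φ a t = expPt (C t) (∑ j, algebraMap ℚ_[p] K (a j : ℚ_[p]) * z j t) := by
  refine ⟨AddMonoidHom.mk'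
    (fun a t => expPt (C t) (∑ j, algebraMap ℚ_[p] K (a j : ℚ_[p]) * z j t)) ?_, ?_⟩
  · intro a b
    funext t
    have h1 := expPt_add (C t) (hLC t) (Clos_norm C hLC hz a t) (Clos_norm C hLC hz b t)
    rw [Pi.add_apply, ← h1, ← Finset.sum_add_distrib]
    congr 1
    refine Finset.sum_congr rfl fun j _ => ?_
    rw [Pi.add_apply, PadicInt.coe_add, map_add, add_mul]
  · intro a t
    rfl

variable {φ : (Fin d → ℤ_[p]) →+ ((t : T) → (C t).toAffine.Point)}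
  (hφ : ∀ a t, φ a t = expPt (C t) (∑ j, algebraMap ℚ_[p] K (a j : ℚ_[p]) * z j t))

include hφ

/-- `expPt_inj` -/
theorem Clos_inj (hind : ∀ a : Fin d → ℤ_[p],
    (∀ t, ∑ j, algebraMap ℚ_[p] K (a j : ℚ_[p]) * z j t = 0) → a = 0) :
    Function.Injective φ := by
  rw [injective_iff_map_eq_zero]
  intro a ha
  refine hind a fun t => ?_
  have h1 := congrFun ha t
  rw [hφ a t] at h1
  exact (expPt_eq_zero_iff (C t) (hLC t) (Clos_norm C hLC hz a t)).1 h1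

/-- `near_expPt`; `‖a j‖ ≤ p ^ (-k)` and `‖z j t‖ ≤ rad (r₀ t)` give
`‖∑ a j z j t‖ ≤ p ^ (-k) rad (r₀ t)`; `T` is finite -/
theorem Clos_cont (R : ℝ) : ∃ k : ℕ, ∀ a : Fin d → ℤ_[p], (∀ j, ‖a j‖ * (p : ℝ) ^ k ≤ 1) →
    ∀ t, Near (C t) R (φ a t) := by
  obtain ⟨M, hM⟩ := (Set.finite_range fun t => R * rad (r₀ t) ^ 2).bddAbove
  have hp1 : (1 : ℝ) < p := by exact_mod_cast (Fact.out : p.Prime).one_lt
  obtain ⟨k, hk⟩ := pow_unbounded_of_one_lt M hp1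
  refine ⟨k, fun a ha t => ?_⟩
  have hpk : 0 < (p : ℝ) ^ k := by positivity
  have hpk1 : 1 ≤ (p : ℝ) ^ k := one_le_pow₀ hp1.le
  have hr := (hLC t).rad_pos
  rw [hφ a t, near_expPt (C t) (hLC t) (Clos_norm C hLC hz a t) R]
  have h1 : ‖∑ j, algebraMap ℚ_[p] K (a j : ℚ_[p]) * z j t‖ ≤ rad (r₀ t) * ((p : ℝ) ^ k)⁻¹ := by
    refine Ev_sum _ (by positivity) fun j _ => ?_
    rw [norm_mul, norm_algebraMap']
    have h2 : ‖(a j : ℚ_[p])‖ ≤ ((p : ℝ) ^ k)⁻¹ := by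
      have h3 : ‖a j‖ * (p : ℝ) ^ k ≤ 1 := ha j
      rw [← one_div, le_div_iff₀ hpk]
      exact h3
    calc ‖(a j : ℚ_[p])‖ * ‖z j t‖ ≤ ((p : ℝ) ^ k)⁻¹ * rad (r₀ t) :=
          mul_le_mul h2 (hz j t) (norm_nonneg _) (by positivity)
      _ = _ := mul_comm _ _
  set x : K := ∑ j, algebraMap ℚ_[p] K (a j : ℚ_[p]) * z j t with hx
  by_cases hx0 : x = 0
  · exact Or.inl hx0
  · right
    have hxp : 0 < ‖x‖ := norm_pos_iff.2 hx0
    have h2 : ‖x‖ * (p : ℝ) ^ k ≤ rad (r₀ t) := by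
      rw [← div_eq_mul_inv, le_div_iff₀ hpk] at h1
      exact h1
    rw [← one_div, lt_div_iff₀ (by positivity)]
    by_contra h3
    rw [not_lt] at h3
    have hR : 0 < R := by
      by_contra h4
      rw [not_lt] at h4
      have : R * ‖x‖ ^ 2 ≤ 0 := mul_nonpos_of_nonpos_of_nonneg h4 (by positivity)
      linarith
    have h4 : R * rad (r₀ t) ^ 2 ≤ M := hM ⟨t, rfl⟩
    have h5 : (‖x‖ * (p : ℝ) ^ k) ^ 2 ≤ rad (r₀ t) ^ 2 :=
      pow_le_pow_left₀ (by positivity) h2 2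
    have h6 : R * (‖x‖ * (p : ℝ) ^ k) ^ 2 ≤ R * rad (r₀ t) ^ 2 :=
      mul_le_mul_of_nonneg_left h5 hR.le
    have h7 : 1 * ((p : ℝ) ^ k) ^ 2 ≤ (R * ‖x‖ ^ 2) * ((p : ℝ) ^ k) ^ 2 :=
      mul_le_mul_of_nonneg_right h3 (by positivity)
    have h8 : (p : ℝ) ^ k * 1 ≤ (p : ℝ) ^ k * (p : ℝ) ^ k :=
      mul_le_mul_of_nonneg_left hpk1 hpk.le
    nlinarith

end

end Pool.Agent.PTwist
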