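import Pool.Agent.W_52423f_h30.ClosA

/-!
# The rank of the closure of a group with independent logarithms
-/

namespace Pool.Agent.PTwist

open WeierstrassCurve WeierstrassCurve.Affine PowerSeries

variable {K : Type*} [NontriviallyNormedField K] [CompleteSpace K] [IsUltrametricDist K]
  [IsAlgClosed K] [DecidableEq K] {p : ℕ} [Fact p.Prime] [NormedAlgebra ℚ_[p] K]
  {T : Type*} [Finite T] (C : T → WeierstrassCurve K) [∀ t, (C t).IsElliptic]
  {r₀ : T → ℝ} (hLC : ∀ t, LC p (C t).b₂ (C t).b₄ (C t).b₆ (r₀ t))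
  {d : ℕ} {z : Fin d → T → K} (hz : ∀ j t, ‖z j t‖ ≤ rad (r₀ t))

section

include hLC hz

variable {φ : (Fin d → ℤ_[p]) →+ ((t : T) → (C t).toAffine.Point)}
  (hφ : ∀ a t, φ a t = expPt (C t) (∑ j, algebraMap ℚ_[p] K (a j : ℚ_[p]) * z j t))

include hφ

/-- the integral multiples: `φ m = ∑ m j • u j` -/
theorem Clos_int {u : Fin d → (t : T) → (C t).toAffine.Point}
    (hu : ∀ j t, expPt (C t) (z j t) = u j t) (m : Fin d → ℤ) :
    φ (fun j => (m j : ℤ_[p])) = ∑ j, m j • u j := by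
  funext t
  rw [hφ, Finset.sum_apply]
  have h1 : ∀ j, algebraMap ℚ_[p] K (((m j : ℤ_[p]) : ℤ_[p]) : ℚ_[p]) * z j t = m j • z j t := by
    intro j
    rw [PadicInt.coe_intCast, map_intCast, zsmul_eq_mul]
  rw [Finset.sum_congr rfl fun j _ => h1 j,
    expPt_sum (C t) (hLC t) Finset.univ m (fun j => z j t) fun j _ => hz j t]
  refine Finset.sum_congr rfl fun j _ => ?_
  rw [Pi.smul_apply, hu]

/-- `ℤ ^ d` is dense in `ℤ_p ^ d` (`PadicInt.appr` or `PadicInt.denseRange_intCast`), `Clos_cont`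
and `Clos_int`: `φ a` is in the closure of every set containing all `∑ m j • u j`. -/
theorem Clos_mem {u : Fin d → (t : T) → (C t).toAffine.Point}
    (hu : ∀ j t, expPt (C t) (z j t) = u j t) {S : Set ((t : T) → (C t).toAffine.Point)}
    (hS : ∀ m : Fin d → ℤ, ∑ j, m j • u j ∈ S) (a : Fin d → ℤ_[p]) : φ a ∈ clos C S := by
  intro R
  obtain ⟨k, hk⟩ := Clos_cont C hLC hz hφ R
  set m : Fin d → ℤ := fun j => ((a j).appr k : ℤ) with hm
  refine ⟨_, hS m, fun t => ?_⟩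
  have h1 : φ a t - (∑ j, m j • u j) t = φ (a - fun j => (m j : ℤ_[p])) t := by
    rw [map_sub, Clos_int C hLC hz hφ hu m, Pi.sub_apply]
  rw [h1]
  refine hk _ (fun j => ?_) t
  have h2 : ‖a j - ((a j).appr k : ℤ_[p])‖ ≤ (p : ℝ) ^ (-(k : ℤ)) :=
    (PadicInt.norm_le_pow_iff_mem_span_pow _ k).2 (PadicInt.appr_spec k (a j))
  have h3 : (0 : ℝ) < (p : ℝ) ^ k := by
    have : 0 < p := (Fact.out : p.Prime).pos
    positivity
  rw [Pi.sub_apply, hm, Int.cast_natCast]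
  calc ‖a j - ((a j).appr k : ℤ_[p])‖ * (p : ℝ) ^ k ≤ (p : ℝ) ^ (-(k : ℤ)) * (p : ℝ) ^ k :=
        mul_le_mul_of_nonneg_right h2 h3.le
    _ = 1 := by
        rw [zpow_neg, zpow_natCast, inv_mul_cancel₀ h3.ne']

end

end Pool.Agent.PTwist
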