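import Pool.Agent.W_52423f_h30.Defs

/-!
# Closures and their rank (definitions in `StDefs`)
-/
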