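import Mathlib

/-!
# Choice of the parameters
-/

namespace Pool.Agent.PTwist

/-- For `n ≥ 5` and given constants there are `S₀, D` with `2 (2 S₀ + 1)^n ≤ D²` and
`c (D (1 + S₀²) + D (1 + n (S+1)²)) < κ (2 S + 1)^n` for all `S ≥ S₀`: take
`D = Nat.sqrt (2 (2 S₀ + 1)^n) + 1 ≤ 3 (2 S₀ + 1)^(n/2)` (real exponent); the left side is at most
a constant times `(2 S + 1)^(n/2 + 2)` and `n/2 + 2 < n`. -/
theorem parameters {n : ℕ} (hn : 5 ≤ n) {c κ : ℝ} (hc : 0 ≤ c) (hκ : 0 < κ) :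
    ∃ S₀ D : ℕ, 2 * (2 * S₀ + 1) ^ n ≤ D ^ 2 ∧ ∀ S : ℕ, S₀ ≤ S →
      c * (D * (1 + (S₀ : ℝ) ^ 2) + D * (1 + n * ((S : ℝ) + 1) ^ 2)) <
        κ * (2 * (S : ℝ) + 1) ^ n := by
  obtain ⟨S₀, hS₀⟩ := exists_nat_gt (8 * c ^ 2 * ((n : ℝ) + 3) ^ 2 / κ ^ 2)
  refine ⟨S₀, Nat.sqrt (2 * (2 * S₀ + 1) ^ n) + 1, ?_, fun S hS => ?_⟩
  · have h1 := Nat.lt_succ_sqrt (2 * (2 * S₀ + 1) ^ n)
    rw [pow_two]
    exact h1.le
  · have hD2 : (Nat.sqrt (2 * (2 * S₀ + 1) ^ n) + 1) ^ 2 ≤ 8 * (2 * S₀ + 1) ^ n := by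
      have h1 := Nat.sqrt_le (2 * (2 * S₀ + 1) ^ n)
      have h2 : 1 ≤ (2 * S₀ + 1) ^ n := Nat.one_le_pow _ _ (by omega)
      have h3 := Nat.sqrt_le_self (2 * (2 * S₀ + 1) ^ n)
      nlinarith
    set D := Nat.sqrt (2 * (2 * S₀ + 1) ^ n) + 1 with hD
    have hSR : (S₀ : ℝ) ≤ S := by exact_mod_cast hS
    have hS0 : (0 : ℝ) ≤ S₀ := Nat.cast_nonneg _
    have hn0 : (0 : ℝ) ≤ n := Nat.cast_nonneg _
    have hD0 : (0 : ℝ) ≤ D := Nat.cast_nonneg _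
    have hD2R : (D : ℝ) ^ 2 ≤ 8 * (2 * (S₀ : ℝ) + 1) ^ n := by exact_mod_cast hD2
    set x : ℝ := 2 * (S : ℝ) + 1 with hx
    have hx1 : 1 ≤ x := by
      rw [hx]
      linarith
    have hx0 : 0 < x := by linarith
    have hax : (2 * (S₀ : ℝ) + 1) ^ n ≤ x ^ n := by
      refine pow_le_pow_left₀ (by linarith) ?_ n
      rw [hx]
      linarith
    have hL : c * (D * (1 + (S₀ : ℝ) ^ 2) + D * (1 + n * ((S : ℝ) + 1) ^ 2)) ≤
        c * ((n : ℝ) + 3) * D * x ^ 2 := by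
      have h1 : (S₀ : ℝ) ^ 2 ≤ x ^ 2 := by
        refine pow_le_pow_left₀ hS0 ?_ 2
        rw [hx]
        linarith
      have h2 : ((S : ℝ) + 1) ^ 2 ≤ x ^ 2 := by
        refine pow_le_pow_left₀ (by linarith) ?_ 2
        rw [hx]
        linarith
      have h3 : 1 ≤ x ^ 2 := one_le_pow₀ hx1
      have h4 : (n : ℝ) * ((S : ℝ) + 1) ^ 2 ≤ n * x ^ 2 := mul_le_mul_of_nonneg_left h2 hn0
      have h5 : (1 + (S₀ : ℝ) ^ 2) + (1 + n * ((S : ℝ) + 1) ^ 2) ≤ ((n : ℝ) + 3) * x ^ 2 := by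
        nlinarith
      have h6 := mul_le_mul_of_nonneg_left h5 (mul_nonneg hc hD0)
      linarith
    refine lt_of_le_of_lt hL ?_
    refine lt_of_pow_lt_pow_left₀ 2 (by positivity) ?_
    obtain ⟨m, rfl⟩ : ∃ m, n = m + 5 := ⟨n - 5, by omega⟩
    have hκ2 : 0 < κ ^ 2 := by positivity
    have h7 : 8 * c ^ 2 * (((m + 5 : ℕ) : ℝ) + 3) ^ 2 < κ ^ 2 * x := by
      rw [div_lt_iff₀ hκ2] at hS₀
      have h8 : (S₀ : ℝ) ≤ x := by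
        rw [hx]
        linarith
      nlinarith
    have h9 : x ≤ x ^ (m + 1) := by
      rw [pow_succ]
      have := one_le_pow₀ (n := m) hx1
      nlinarith
    calc (c * (((m + 5 : ℕ) : ℝ) + 3) * D * x ^ 2) ^ 2
        = c ^ 2 * (((m + 5 : ℕ) : ℝ) + 3) ^ 2 * x ^ 4 * (D : ℝ) ^ 2 := by ring
      _ ≤ c ^ 2 * (((m + 5 : ℕ) : ℝ) + 3) ^ 2 * x ^ 4 * (8 * x ^ (m + 5)) := by
          refine mul_le_mul_of_nonneg_left ?_ (by positivity)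
          linarith
      _ = (8 * c ^ 2 * (((m + 5 : ℕ) : ℝ) + 3) ^ 2) * x ^ (m + 9) := by ring
      _ < (κ ^ 2 * x) * x ^ (m + 9) := mul_lt_mul_of_pos_right h7 (by positivity)
      _ ≤ (κ ^ 2 * x ^ (m + 1)) * x ^ (m + 9) := by
          refine mul_le_mul_of_nonneg_right ?_ (by positivity)
          exact mul_le_mul_of_nonneg_left h9 hκ2.le
      _ = (κ * x ^ (m + 5)) ^ 2 := by ring

end Pool.Agent.PTwist
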