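import Pool.Agent.W_52423f_h30.CoreB

/-!
# Lower bound for the values
-/

namespace Pool.Agent.PTwist

open NumberField

variable {M : Type*} [Field M] [NumberField M]
variable {K : Type*} [NormedField K] [IsUltrametricDist K] {p : ℕ} [Fact p.Prime]
  [NormedAlgebra ℚ_[p] K]

/-- the value multiplied by the denominator -/
theorem CoreP_mul_pval {D : ℕ} (g : Fin D → Fin D → 𝓞 M) (x y k : M) :
    k * pval g x y = ∑ a, ∑ b, (g a b : M) * (k * (x ^ (a : ℕ) * y ^ (b : ℕ))) := by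
  unfold pval
  rw [Finset.mul_sum]
  refine Finset.sum_congr rfl fun a _ => ?_
  rw [Finset.mul_sum]
  refine Finset.sum_congr rfl fun b _ => ?_
  ring

theorem CoreP_integral {D : ℕ} (g : Fin D → Fin D → 𝓞 M) {x y : M} {b b' : ℕ}
    (hb : IsIntegral ℤ ((b : M) * x)) (hb' : IsIntegral ℤ ((b' : M) * y)) :
    IsIntegral ℤ (((b * b' : ℕ) : M) ^ (2 * D) * pval g x y) := by
  rw [CoreP_mul_pval]
  refine IsIntegral.sum _ fun i _ => IsIntegral.sum _ fun j _ => ?_
  exact (g i j).2.mul (CoreA_integral hb hb' i.2.le j.2.le)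

theorem CoreP_house {D : ℕ} (g : Fin D → Fin D → 𝓞 M) {x y : M} {b b' : ℕ} {H G : ℝ}
    (hH : 1 ≤ H) (hG : 0 ≤ G) (hg : ∀ a b, house (g a b : M) ≤ G) (hb : (b : ℝ) ≤ H)
    (hb' : (b' : ℝ) ≤ H) (hx : ∀ τ : M →+* ℂ, ‖τ x‖ ≤ H) (hy : ∀ τ : M →+* ℂ, ‖τ y‖ ≤ H) :
    house (((b * b' : ℕ) : M) ^ (2 * D) * pval g x y) ≤ (D : ℝ) ^ 2 * (G * H ^ (6 * D)) := by
  rw [CoreP_mul_pval]
  refine (house_sum_le_sum_house _ _).trans ?_
  have h1 : ∀ i : Fin D, house (∑ j : Fin D, (g i j : M) *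
      (((b * b' : ℕ) : M) ^ (2 * D) * (x ^ (i : ℕ) * y ^ (j : ℕ)))) ≤
        (D : ℝ) * (G * H ^ (6 * D)) := by
    intro i
    refine (house_sum_le_sum_house _ _).trans ?_
    have h2 : ∀ j : Fin D, house ((g i j : M) *
        (((b * b' : ℕ) : M) ^ (2 * D) * (x ^ (i : ℕ) * y ^ (j : ℕ)))) ≤ G * H ^ (6 * D) := by
      intro j
      refine (house_mul_le _ _).trans ?_
      exact mul_le_mul (hg i j) (CoreA_house hH hb hb' hx hy i.2.le j.2.le) (house_nonneg _) hG
    calc _ ≤ ∑ _j : Fin D, G * H ^ (6 * D) := Finset.sum_le_sum fun j _ => h2 j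
      _ = (D : ℝ) * (G * H ^ (6 * D)) := by
        rw [Finset.sum_const, Finset.card_univ, Fintype.card_fin, nsmul_eq_mul]
  calc _ ≤ ∑ _i : Fin D, (D : ℝ) * (G * H ^ (6 * D)) := Finset.sum_le_sum fun i _ => h1 i
    _ = (D : ℝ) ^ 2 * (G * H ^ (6 * D)) := by
      rw [Finset.sum_const, Finset.card_univ, Fintype.card_fin, nsmul_eq_mul]
      ring

/-- ultrametric norms of natural numbers: `‖n‖ ≥ n ^ (-t)` for some `t` -/
theorem CoreP_nat {L : Type*} [NormedField L] [IsUltrametricDist L] [CharZero L] :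
    ∃ t : ℕ, ∀ n : ℕ, n ≠ 0 → 1 ≤ ‖(n : L)‖ * (n : ℝ) ^ t := by
  classical
  by_cases h : ∃ n : ℕ, n ≠ 0 ∧ ‖(n : L)‖ < 1
  · set l := Nat.find h with hl
    obtain ⟨hl0, hl1⟩ : l ≠ 0 ∧ ‖(l : L)‖ < 1 := Nat.find_spec h
    have hmin : ∀ m : ℕ, m < l → m ≠ 0 → ‖(m : L)‖ = 1 := by
      intro m hm hm0
      have := Nat.find_min h hm
      push Not at this
      exact le_antisymm (IsUltrametricDist.norm_natCast_le_one L m) (this hm0)
    have hl2 : 2 ≤ l := by
      rcases Nat.lt_or_ge l 2 with h2 | h2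
      · have h1 : l = 1 := by omega
        rw [h1, Nat.cast_one, norm_one] at hl1
        exact absurd hl1 (lt_irrefl _)
      · exact h2
    have hpos : 0 < ‖(l : L)‖ := norm_pos_iff.2 (by exact_mod_cast hl0)
    obtain ⟨t, ht⟩ := pow_unbounded_of_one_lt (1 / ‖(l : L)‖)
      (show (1 : ℝ) < l by exact_mod_cast (by omega : 1 < l))
    have ht' : 1 ≤ ‖(l : L)‖ * (l : ℝ) ^ t := by
      rw [div_lt_iff₀ hpos] at ht
      linarith
    refine ⟨t, fun n => ?_⟩
    induction n using Nat.strong_induction_on with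
    | _ n ih =>
      intro hn
      by_cases hd : l ∣ n
      · obtain ⟨m, rfl⟩ := hd
        have hm0 : m ≠ 0 := by rintro rfl; simp at hn
        have hlt : m < l * m := by
          calc m = 1 * m := (one_mul m).symm
            _ < l * m := Nat.mul_lt_mul_of_pos_right (by omega) (Nat.pos_of_ne_zero hm0)
        have h1 := ih m hlt hm0
        rw [Nat.cast_mul, norm_mul, Nat.cast_mul, mul_pow]
        calc (1 : ℝ) ≤ (‖(l : L)‖ * (l : ℝ) ^ t) * (‖(m : L)‖ * (m : ℝ) ^ t) :=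
              one_le_mul_of_one_le_of_one_le ht' h1
          _ = _ := by ring
      · have hr0 : n % l ≠ 0 := fun h0 => hd (Nat.dvd_of_mod_eq_zero h0)
        have hr1 : ‖((n % l : ℕ) : L)‖ = 1 :=
          hmin _ (Nat.mod_lt _ (by omega)) hr0
        have hq : ‖((l * (n / l) : ℕ) : L)‖ < 1 := by
          rw [Nat.cast_mul, norm_mul]
          calc _ ≤ ‖(l : L)‖ * 1 := by
                gcongr
                exact IsUltrametricDist.norm_natCast_le_one L _
            _ < 1 := by rwa [mul_one]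
        have hn1 : ‖(n : L)‖ = 1 := by
          refine le_antisymm (IsUltrametricDist.norm_natCast_le_one L n) ?_
          have e : ((n % l : ℕ) : L) = (n : L) - ((l * (n / l) : ℕ) : L) := by
            have := Nat.mod_add_div n l
            rw [eq_sub_iff_add_eq]
            exact_mod_cast this
          by_contra hlt
          push Not at hlt
          have h2 : ‖((n % l : ℕ) : L)‖ ≤ max ‖(n : L)‖ ‖((l * (n / l) : ℕ) : L)‖ := by
            rw [e, sub_eq_add_neg]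
            refine (IsUltrametricDist.norm_add_le_max _ _).trans ?_
            rw [norm_neg]
          rw [hr1] at h2
          exact absurd h2 (not_le.2 (max_lt hlt hq))
        rw [hn1, one_mul]
        exact one_le_pow₀ (by exact_mod_cast Nat.pos_of_ne_zero hn)
  · push Not at h
    exact ⟨0, fun n hn => by rw [pow_zero, mul_one]; exact h n hn⟩

theorem CoreP_int {L : Type*} [NormedField L] [IsUltrametricDist L] [CharZero L] :
    ∃ t : ℕ, ∀ m : ℤ, m ≠ 0 → 1 ≤ ‖(m : L)‖ * |(m : ℝ)| ^ t := by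
  obtain ⟨t, ht⟩ := CoreP_nat (L := L)
  refine ⟨t, fun m hm => ?_⟩
  have h := ht m.natAbs (Int.natAbs_ne_zero.2 hm)
  have e1 : ‖((m.natAbs : ℕ) : L)‖ = ‖(m : L)‖ := by
    rcases Int.natAbs_eq m with h1 | h1
    · conv_rhs => rw [h1]
      rw [Int.cast_natCast]
    · conv_rhs => rw [h1]
      rw [Int.cast_neg, Int.cast_natCast, norm_neg]
  have e2 : ((m.natAbs : ℕ) : ℝ) = |(m : ℝ)| := by
    rw [Nat.cast_natAbs, Int.cast_abs]
  rwa [e1, e2] at h

/-- Liouville in an arbitrary ultrametric field -/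
theorem CoreP_liouville (ι : M →+* K) : ∃ t : ℕ, ∀ η : M, IsIntegral ℤ η → η ≠ 0 →
    1 ≤ ‖ι η‖ * (house η ^ Module.finrank ℚ M) ^ t := by
  have hK : CharZero K := charZero_of_injective_ringHom ι.injective
  obtain ⟨t, ht⟩ := CoreP_int (L := K)
  refine ⟨t, fun η hη h0 => ?_⟩
  obtain ⟨x, rfl⟩ : ∃ x : 𝓞 M, (x : M) = η := ⟨⟨η, hη⟩, rfl⟩
  have hx0 : x ≠ 0 := fun h => h0 (by rw [h]; rfl)
  set N : ℤ := Algebra.norm ℤ x with hN
  have hN0 : N ≠ 0 := Algebra.norm_ne_zero_iff.2 hx0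
  have hdvd : x ∣ algebraMap ℤ (𝓞 M) N := by
    have := Algebra.dvd_algebraMap_intNorm_self (A := ℤ) (B := 𝓞 M) x
    rwa [Algebra.intNorm_eq_norm] at this
  obtain ⟨y, hy⟩ := hdvd
  have hy' : ((N : ℤ) : M) = (x : M) * (y : M) := by
    have := congrArg (fun z : 𝓞 M => (z : M)) hy
    simpa using this
  have hyn : ‖ι (y : M)‖ ≤ 1 := norm_integral_le_one (K := K) ι y.2
  have h1 : ‖(N : K)‖ ≤ ‖ι (x : M)‖ := by
    have : (N : K) = ι (x : M) * ι (y : M) := by
      rw [← map_mul, ← hy', map_intCast]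
    rw [this, norm_mul]
    exact mul_le_of_le_one_right (norm_nonneg _) hyn
  have h2 : |(N : ℝ)| ≤ house (x : M) ^ Module.finrank ℚ M := by
    obtain ⟨σ⟩ : Nonempty (M →+* ℂ) := inferInstance
    have h3 := norm_norm_le_norm_mul_house_pow (x : M) σ
    have h4 : ‖Algebra.norm ℚ (x : M)‖ = |(N : ℝ)| := by
      rw [← Algebra.coe_norm_int x, ← hN]
      simp [Rat.norm_cast_real, ← Int.norm_eq_abs]
    rw [h4] at h3
    refine h3.trans ?_
    have hpos : 0 < Module.finrank ℚ M := Module.finrank_pos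
    calc _ ≤ house (x : M) * house (x : M) ^ (Module.finrank ℚ M - 1) := by
          gcongr
          · exact pow_nonneg (house_nonneg _) _
          · exact norm_embedding_le_house _ _
      _ = house (x : M) ^ Module.finrank ℚ M := by
          rw [← pow_succ', Nat.sub_add_cancel hpos]
  calc (1 : ℝ) ≤ ‖(N : K)‖ * |(N : ℝ)| ^ t := ht N hN0
    _ ≤ _ := by gcongr

/-- Lower bound for the values: apply `liouville` to `(b b')^(2 D) pval g (X s) (Y s)`
(`CoreA_integral`, `CoreA_house`), where `‖ι b‖ ≤ 1`, house at most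
`D² exp(B) exp(6 D c (1 + |s|²))`. -/
theorem pval_lower {n : ℕ} {c : ℝ} (hc : 0 ≤ c) {X Y : (Fin n → ℤ) → M} (hX : Grow c X)
    (hY : Grow c Y) (ι : M →+* K) : ∃ c' : ℝ, 0 ≤ c' ∧ ∀ (D : ℕ) (B : ℝ) (g : Fin D → Fin D → 𝓞 M),
      0 ≤ B → (∀ a b, house (g a b : M) ≤ Real.exp B) → ∀ s : Fin n → ℤ,
        pval g (X s) (Y s) ≠ 0 →
        1 ≤ ‖ι (pval g (X s) (Y s))‖ *
          Real.exp (c' * (B + D * (1 + ∑ i, (s i : ℝ) ^ 2))) := by
  set d : ℕ := Module.finrank ℚ M with hd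
  obtain ⟨t, ht⟩ := CoreP_liouville (K := K) ι
  refine ⟨(t : ℝ) * ((d : ℝ) * (2 + 6 * c)), by positivity, ?_⟩
  intro D B g hB hg s hne
  set q : ℝ := 1 + ∑ i, (s i : ℝ) ^ 2 with hq
  have hq1 : 1 ≤ q := by
    have : 0 ≤ ∑ i, (s i : ℝ) ^ 2 := Finset.sum_nonneg fun i _ => sq_nonneg _
    linarith
  obtain ⟨b, hb0, hbE, hbI, hbτ⟩ := hX s
  obtain ⟨b', hb0', hbE', hbI', hbτ'⟩ := hY s
  rw [← hq] at hbE hbE'
  have hE1 : 1 ≤ Real.exp (c * q) := Real.one_le_exp (by positivity)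
  have hint := CoreP_integral g hbI hbI'
  have hhouse := CoreP_house g hE1 (Real.exp_pos B).le hg hbE hbE' hbτ hbτ'
  have hbb : ((b * b' : ℕ) : M) ≠ 0 := by exact_mod_cast Nat.mul_ne_zero hb0 hb0'
  have hη : (((b * b' : ℕ) : M) ^ (2 * D) * pval g (X s) (Y s)) ≠ 0 :=
    mul_ne_zero (pow_ne_zero _ hbb) hne
  have hL := ht _ hint hη
  rw [map_mul, norm_mul] at hL
  have hn1 : ‖ι (((b * b' : ℕ) : M) ^ (2 * D))‖ ≤ 1 := by
    refine norm_integral_le_one (K := K) ι ?_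
    exact IsIntegral.pow (by
      have := isIntegral_algebraMap (R := ℤ) (A := M) (x := ((b * b' : ℕ) : ℤ))
      simpa using this) _
  have hD1 : (D : ℝ) ^ 2 ≤ Real.exp (2 * D) := by
    have h := Real.add_one_le_exp (D : ℝ)
    have h' : (D : ℝ) ≤ Real.exp D := by linarith
    calc (D : ℝ) ^ 2 ≤ (Real.exp D) ^ 2 := by gcongr
      _ = Real.exp (2 * D) := by rw [← Real.exp_nat_mul]; norm_num
  have hH2 : house (((b * b' : ℕ) : M) ^ (2 * D) * pval g (X s) (Y s)) ≤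
      Real.exp (2 * D + B + 6 * D * (c * q)) := by
    refine hhouse.trans ?_
    have e1 : Real.exp (c * q) ^ (6 * D) = Real.exp (6 * D * (c * q)) := by
      rw [← Real.exp_nat_mul]; push_cast; ring_nf
    rw [e1, Real.exp_add, Real.exp_add, mul_assoc (Real.exp (2 * (D : ℝ)))]
    exact mul_le_mul_of_nonneg_right hD1
      (mul_nonneg (Real.exp_pos _).le (Real.exp_pos _).le)
  have hH3 : house (((b * b' : ℕ) : M) ^ (2 * D) * pval g (X s) (Y s)) ^ d ≤
      Real.exp ((d : ℝ) * (2 + 6 * c) * (B + D * q)) := by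
    calc _ ≤ Real.exp (2 * D + B + 6 * D * (c * q)) ^ d := by
          gcongr
          exact house_nonneg _
      _ = Real.exp (d * (2 * D + B + 6 * D * (c * q))) := by rw [← Real.exp_nat_mul]
      _ ≤ _ := by
        refine Real.exp_le_exp.2 ?_
        rw [mul_assoc (d : ℝ)]
        refine mul_le_mul_of_nonneg_left ?_ (Nat.cast_nonneg d)
        have hDn : (0 : ℝ) ≤ D := Nat.cast_nonneg D
        have h1 : (D : ℝ) ≤ D * q := le_mul_of_one_le_right hDn hq1
        have h2 : 0 ≤ (D : ℝ) * q := by positivity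
        have h3 : 0 ≤ c * B := mul_nonneg hc hB
        nlinarith
  have hH4 : (house (((b * b' : ℕ) : M) ^ (2 * D) * pval g (X s) (Y s)) ^ d) ^ t ≤
      Real.exp ((t : ℝ) * ((d : ℝ) * (2 + 6 * c)) * (B + D * q)) := by
    calc _ ≤ Real.exp ((d : ℝ) * (2 + 6 * c) * (B + D * q)) ^ t := by
          gcongr
          exact pow_nonneg (house_nonneg _) _
      _ = _ := by rw [← Real.exp_nat_mul, mul_assoc (t : ℝ)]
  have hp0 : 0 ≤ ‖ι (pval g (X s) (Y s))‖ := norm_nonneg _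
  refine hL.trans ?_
  rw [← hd]
  have hh0 : 0 ≤ (house (((b * b' : ℕ) : M) ^ (2 * D) * pval g (X s) (Y s)) ^ d) ^ t :=
    pow_nonneg (pow_nonneg (house_nonneg _) _) _
  calc _ ≤ (1 * ‖ι (pval g (X s) (Y s))‖) *
        (house (((b * b' : ℕ) : M) ^ (2 * D) * pval g (X s) (Y s)) ^ d) ^ t := by gcongr
    _ ≤ ‖ι (pval g (X s) (Y s))‖ *
        Real.exp ((t : ℝ) * ((d : ℝ) * (2 + 6 * c)) * (B + D * q)) := by
      rw [one_mul]; gcongr

end Pool.Agent.PTwist
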