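import Pool.Agent.W_52423f_h30.CoreA

/-!
# Siegel's lemma for the auxiliary polynomial
-/

namespace Pool.Agent.PTwist

open NumberField

variable {M : Type*} [Field M] [NumberField M]

open Matrix in
/-- Siegel's lemma of Mathlib, with a nonnegative constant -/
theorem CoreS_siegel (M : Type*) [Field M] [NumberField M] : ∃ C : ℝ, 0 ≤ C ∧
    ∀ (α β : Type) [Fintype α] [Fintype β] (a : Matrix α β (𝓞 M)), a ≠ 0 →
      ∀ p q : ℕ, 0 < p → p < q → Fintype.card α = p → Fintype.card β = q →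
      ∀ A : ℝ, 0 ≤ A → (∀ k l, house ((a k l : 𝓞 M) : M) ≤ A) →
        ∃ ξ : β → 𝓞 M, ξ ≠ 0 ∧ a *ᵥ ξ = 0 ∧
          ∀ l, house ((ξ l : 𝓞 M) : M) ≤ C * (C * q * A) ^ ((p : ℝ) / (q - p)) := by
  classical
  have h0 : ∃ C : ℝ, ∀ (α β : Type) [Fintype α] [Fintype β] (a : Matrix α β (𝓞 M)), a ≠ 0 →
      ∀ p q : ℕ, 0 < p → p < q → Fintype.card α = p → Fintype.card β = q →
      ∀ A : ℝ, (∀ k l, house ((a k l : 𝓞 M) : M) ≤ A) →
        ∃ ξ : β → 𝓞 M, ξ ≠ 0 ∧ a *ᵥ ξ = 0 ∧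
          ∀ l, house ((ξ l : 𝓞 M) : M) ≤ C * (C * q * A) ^ ((p : ℝ) / (q - p)) :=
    ⟨_, fun α β _ _ a ha p q hp hpq hα hβ A hA =>
      NumberField.house.exists_ne_zero_int_vec_house_le M a ha hp hpq hβ hA hα⟩
  obtain ⟨C, hC⟩ := h0
  refine ⟨|C|, abs_nonneg _, fun α β _ _ a ha p q hp hpq hα hβ A hA0 hA => ?_⟩
  obtain ⟨ξ, h1, h2, h3⟩ := hC α β a ha p q hp hpq hα hβ A hA
  refine ⟨ξ, h1, h2, fun l => (h3 l).trans ?_⟩
  refine (le_abs_self _).trans ?_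
  rw [abs_mul]
  apply mul_le_mul_of_nonneg_left _ (abs_nonneg _)
  refine (Real.abs_rpow_le_abs_rpow _ _).trans (le_of_eq ?_)
  rw [abs_mul, abs_mul, abs_of_nonneg hA0, Nat.abs_cast]

/-- the numerical estimate -/
theorem CoreS_num {C c : ℝ} (hC : 1 ≤ C) (hc : 0 ≤ c) (n D S : ℕ) (hD : 1 ≤ D) :
    C * (C * ((D ^ 2 : ℕ) : ℝ) * Real.exp (c * (1 + n * (S : ℝ) ^ 2)) ^ (6 * D)) ≤
      Real.exp ((2 * Real.log C + 2 + 6 * c * (n + 1)) * (D * (1 + (S : ℝ) ^ 2))) := by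
  have hD1 : (1 : ℝ) ≤ D := by exact_mod_cast hD
  have hlog : 0 ≤ Real.log C := Real.log_nonneg hC
  have hC2 : C = Real.exp (Real.log C) := (Real.exp_log (by linarith)).symm
  have hDexp : (D : ℝ) ≤ Real.exp D := by
    have := Real.add_one_le_exp (D : ℝ)
    linarith
  have hS : 0 ≤ (S : ℝ) ^ 2 := by positivity
  have hn : (0 : ℝ) ≤ n := by positivity
  have h1 : (1 : ℝ) ≤ D * (1 + (S : ℝ) ^ 2) := by nlinarith
  have h2 : (D : ℝ) ≤ D * (1 + (S : ℝ) ^ 2) := by nlinarith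
  calc C * (C * ((D ^ 2 : ℕ) : ℝ) * Real.exp (c * (1 + n * (S : ℝ) ^ 2)) ^ (6 * D))
      ≤ Real.exp (Real.log C) * (Real.exp (Real.log C) * (Real.exp D) ^ 2 *
        Real.exp (c * (1 + n * (S : ℝ) ^ 2)) ^ (6 * D)) := by
        rw [← hC2]
        push_cast
        gcongr
    _ = Real.exp (2 * Real.log C + 2 * D + 6 * c * (D * (1 + n * (S : ℝ) ^ 2))) := by
        rw [← Real.exp_nat_mul, ← Real.exp_nat_mul, ← Real.exp_add, ← Real.exp_add, ← Real.exp_add]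
        congr 1
        push_cast
        ring
    _ ≤ _ := by
        apply Real.exp_le_exp.2
        have e1 : Real.log C ≤ Real.log C * (D * (1 + (S : ℝ) ^ 2)) :=
          le_mul_of_one_le_right hlog h1
        have e2 : (D : ℝ) * (1 + n * (S : ℝ) ^ 2) ≤ (n + 1) * (D * (1 + (S : ℝ) ^ 2)) := by
          have e3 : (1 : ℝ) + n * (S : ℝ) ^ 2 ≤ (n + 1) * (1 + (S : ℝ) ^ 2) := by nlinarith
          calc (D : ℝ) * (1 + n * (S : ℝ) ^ 2) ≤ D * ((n + 1) * (1 + (S : ℝ) ^ 2)) := by gcongr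
            _ = _ := by ring
        have e4 : 6 * c * (D * (1 + n * (S : ℝ) ^ 2)) ≤
            6 * c * ((n + 1) * (D * (1 + (S : ℝ) ^ 2))) := by gcongr
        nlinarith

/-- Auxiliary polynomial: apply `NumberField.house.exists_ne_zero_int_vec_house_le` to the matrix
with rows `s` (`|s i| ≤ S`, there are `(2 S + 1) ^ n` of them; it is nonzero because of the entry
with `a = b = 0`), columns `(a, b)` and entries `(b_s b'_s)^(2 D) X_s^a Y_s^b`
(`CoreA_integral`, `CoreA_house`), `q = D²`, `p = (2 S + 1)^n`, `p / (q - p) ≤ 1`.  The logarithm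
of the bound is at most a constant times `D (1 + S²)` (also `log D ≤ D`).  The constant `c'` may
depend on `n`, `M`, `c` but not on `D`, `S`. -/
theorem siegel {n : ℕ} {c : ℝ} (hc : 0 ≤ c) {X Y : (Fin n → ℤ) → M} (hX : Grow c X)
    (hY : Grow c Y) : ∃ c' : ℝ, 0 ≤ c' ∧ ∀ D S : ℕ, 2 * (2 * S + 1) ^ n ≤ D ^ 2 →
      ∃ g : Fin D → Fin D → 𝓞 M, g ≠ 0 ∧
        (∀ a b, house (g a b : M) ≤ Real.exp (c' * (D * (1 + (S : ℝ) ^ 2)))) ∧
        ∀ s : Fin n → ℤ, (∀ i, |s i| ≤ S) → pval g (X s) (Y s) = 0 := by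
  classical
  obtain ⟨C0, hC0, hsieg⟩ := CoreS_siegel M
  set C : ℝ := max 1 C0 with hCdef
  have hC1 : 1 ≤ C := le_max_left _ _
  have hlog : 0 ≤ Real.log C := Real.log_nonneg hC1
  refine ⟨2 * Real.log C + 2 + 6 * c * (n + 1), by positivity, fun D S hDS => ?_⟩
  have hp1 : 1 ≤ (2 * S + 1) ^ n := Nat.one_le_pow _ _ (by omega)
  have hD1 : 1 ≤ D := by
    rcases Nat.eq_zero_or_pos D with h | h
    · rw [h] at hDS
      simp at hDS
    · exact h
  have hpq : (2 * S + 1) ^ n < D ^ 2 := by omega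
  choose bX hbX0 hbX1 hbX2 hbX3 using hX
  choose bY hbY0 hbY1 hbY2 hbY3 using hY
  -- the rows
  let sh : (Fin n → Fin (2 * S + 1)) → (Fin n → ℤ) := fun t i => ((t i : ℕ) : ℤ) - S
  have hsh : ∀ t, ∑ i, (sh t i : ℝ) ^ 2 ≤ n * (S : ℝ) ^ 2 := by
    intro t
    calc ∑ i, (sh t i : ℝ) ^ 2 ≤ ∑ _i : Fin n, (S : ℝ) ^ 2 := by
          apply Finset.sum_le_sum
          intro i _
          apply sq_le_sq'
          · simp only [sh]
            push_cast
            have : (0 : ℝ) ≤ ((t i : ℕ) : ℝ) := by positivity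
            linarith
          · simp only [sh]
            push_cast
            have h1 : (t i : ℕ) ≤ 2 * S := by omega
            have h2 : ((t i : ℕ) : ℝ) ≤ 2 * S := by exact_mod_cast h1
            linarith
      _ = n * (S : ℝ) ^ 2 := by simp
  set H : ℝ := Real.exp (c * (1 + n * (S : ℝ) ^ 2)) with hHdef
  have hH1 : 1 ≤ H := by
    rw [hHdef]
    apply Real.one_le_exp
    positivity
  have hHle : ∀ t, Real.exp (c * (1 + ∑ i, (sh t i : ℝ) ^ 2)) ≤ H := by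
    intro t
    rw [hHdef]
    apply Real.exp_le_exp.2
    have := hsh t
    gcongr
  let a : Matrix (Fin n → Fin (2 * S + 1)) (Fin D × Fin D) (𝓞 M) := fun t l =>
    ⟨((bX (sh t) * bY (sh t) : ℕ) : M) ^ (2 * D) * (X (sh t) ^ (l.1 : ℕ) * Y (sh t) ^ (l.2 : ℕ)),
      CoreA_integral (hbX2 (sh t)) (hbY2 (sh t)) l.1.2.le l.2.2.le⟩
  have haval : ∀ t l, ((a t l : 𝓞 M) : M) =
      ((bX (sh t) * bY (sh t) : ℕ) : M) ^ (2 * D) *
        (X (sh t) ^ (l.1 : ℕ) * Y (sh t) ^ (l.2 : ℕ)) := fun t l => rfl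
  have hbne : ∀ s, ((bX s * bY s : ℕ) : M) ^ (2 * D) ≠ 0 := by
    intro s
    apply pow_ne_zero
    exact_mod_cast mul_ne_zero (hbX0 s) (hbY0 s)
  have ha : a ≠ 0 := by
    intro h0
    have h1 := congrFun (congrFun h0 (fun _ => ⟨0, by omega⟩)) (⟨0, hD1⟩, ⟨0, hD1⟩)
    have h2 := congrArg (fun y : 𝓞 M => (y : M)) h1
    simp only [haval, pow_zero, mul_one] at h2
    exact hbne _ (by simpa using h2)
  have hhouse : ∀ t l, house ((a t l : 𝓞 M) : M) ≤ H ^ (6 * D) := by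
    intro t l
    rw [haval]
    exact CoreA_house hH1 ((hbX1 _).trans (hHle t)) ((hbY1 _).trans (hHle t))
      (fun τ => (hbX3 _ τ).trans (hHle t)) (fun τ => (hbY3 _ τ).trans (hHle t))
      l.1.2.le l.2.2.le
  obtain ⟨ξ, hξ0, hξ1, hξ2⟩ := hsieg (Fin n → Fin (2 * S + 1)) (Fin D × Fin D) a ha
    ((2 * S + 1) ^ n) (D ^ 2) hp1 hpq (by simp) (by simp [sq]) (H ^ (6 * D)) (by positivity) hhouse
  refine ⟨fun i j => ξ (i, j), ?_, ?_, ?_⟩
  · intro h0
    apply hξ0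
    funext l
    exact congrFun (congrFun h0 l.1) l.2
  · intro i j
    refine (hξ2 (i, j)).trans ?_
    refine le_trans ?_ (CoreS_num hC1 hc n D S hD1)
    have hq1 : (1 : ℝ) ≤ ((D ^ 2 : ℕ) : ℝ) := by
      exact_mod_cast Nat.one_le_pow _ _ hD1
    have hA1 : (1 : ℝ) ≤ H ^ (6 * D) := one_le_pow₀ hH1
    have hbase : (1 : ℝ) ≤ C * ((D ^ 2 : ℕ) : ℝ) * H ^ (6 * D) :=
      one_le_mul_of_one_le_of_one_le (one_le_mul_of_one_le_of_one_le hC1 hq1) hA1
    have hpR : (0 : ℝ) < (((2 * S + 1) ^ n : ℕ) : ℝ) := by exact_mod_cast hp1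
    have hqR : 2 * (((2 * S + 1) ^ n : ℕ) : ℝ) ≤ ((D ^ 2 : ℕ) : ℝ) := by exact_mod_cast hDS
    have he0 : 0 ≤ (((2 * S + 1) ^ n : ℕ) : ℝ) /
        (((D ^ 2 : ℕ) : ℝ) - (((2 * S + 1) ^ n : ℕ) : ℝ)) := by
      apply div_nonneg hpR.le
      linarith
    have he1 : (((2 * S + 1) ^ n : ℕ) : ℝ) /
        (((D ^ 2 : ℕ) : ℝ) - (((2 * S + 1) ^ n : ℕ) : ℝ)) ≤ 1 := by
      rw [div_le_one (by linarith)]
      linarith
    have hCle : C0 ≤ C := le_max_right _ _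
    calc C0 * (C0 * ((D ^ 2 : ℕ) : ℝ) * H ^ (6 * D)) ^ ((((2 * S + 1) ^ n : ℕ) : ℝ) /
          (((D ^ 2 : ℕ) : ℝ) - (((2 * S + 1) ^ n : ℕ) : ℝ)))
        ≤ C * (C * ((D ^ 2 : ℕ) : ℝ) * H ^ (6 * D)) ^ ((((2 * S + 1) ^ n : ℕ) : ℝ) /
          (((D ^ 2 : ℕ) : ℝ) - (((2 * S + 1) ^ n : ℕ) : ℝ))) := by
          gcongr
      _ ≤ C * (C * ((D ^ 2 : ℕ) : ℝ) * H ^ (6 * D)) ^ (1 : ℝ) := by
          apply mul_le_mul_of_nonneg_left _ (by linarith)
          exact Real.rpow_le_rpow_of_exponent_le hbase he1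
      _ = C * (C * ((D ^ 2 : ℕ) : ℝ) * H ^ (6 * D)) := by rw [Real.rpow_one]
  · intro s hs
    have hlt : ∀ i, (s i + S).toNat < 2 * S + 1 := by
      intro i
      have := abs_le.1 (hs i)
      omega
    set t : Fin n → Fin (2 * S + 1) := fun i => ⟨(s i + S).toNat, hlt i⟩ with ht
    have hst : sh t = s := by
      funext i
      simp only [sh, ht]
      have := abs_le.1 (hs i)
      omega
    have h1 := congrFun hξ1 t
    have h2 := congrArg (fun y : 𝓞 M => (y : M)) h1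
    simp only [Matrix.mulVec, dotProduct, Pi.zero_apply, map_sum, map_mul, map_zero] at h2
    have h3 : ((bX s * bY s : ℕ) : M) ^ (2 * D) * pval (fun i j => ξ (i, j)) (X s) (Y s) = 0 := by
      rw [← h2, pval, Fintype.sum_prod_type, Finset.mul_sum]
      apply Finset.sum_congr rfl
      intro i _
      rw [Finset.mul_sum]
      apply Finset.sum_congr rfl
      intro j _
      have e1 : algebraMap (𝓞 M) M (a t (i, j)) = _ := haval t (i, j)
      rw [e1, hst]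
      ring
    exact (mul_eq_zero.1 h3).resolve_left (hbne s)

end Pool.Agent.PTwist
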