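import Pool.Agent.W_52423f_h30.CoreE
import Pool.Agent.W_52423f_h30.CoreS
import Pool.Agent.W_52423f_h30.CoreP
import Pool.Agent.W_52423f_h30.CoreC

/-!
# The transcendence argument
-/

namespace Pool.Agent.PTwist

open NumberField PowerSeries

variable {M : Type*} [Field M] [NumberField M]
variable {K : Type*} [NontriviallyNormedField K] [CompleteSpace K] [IsUltrametricDist K] {p : ℕ}
  [Fact p.Prime] [NormedAlgebra ℚ_[p] K]

include p in
/-- The main transcendence theorem (Schneider-Lang type, `n ≥ 5` points, two functions, growth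
`|s|²`).  `siegel`, `pval_lower`, `parameters` (with `κ = - log (ρ r)`; if `ρ r = 0` take any
`κ > 0`), then `extrapolate` by induction on `S ≥ S₀`. -/
theorem core {n : ℕ} (hn : 5 ≤ n) {c : ℝ} (hc : 0 ≤ c) {X Y : (Fin n → ℤ) → M}
    (hgX : Grow c X) (hgY : Grow c Y) (ι : M →+* K)
    {f₁ f₂ : PowerSeries K} {ρ r : ℝ} (hρ : 0 ≤ ρ) (hr : ρ * r < 1) (h₁ : Bd ρ 1 f₁)
    (h₂ : Bd ρ 1 f₂) {z : (Fin n → ℤ) → K} (hz : Function.Injective z) (hzr : ∀ s, ‖z s‖ ≤ r)
    (hX : ∀ s, ι (X s) = ev f₁ (z s)) (hY : ∀ s, ι (Y s) = ev f₂ (z s)) :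
    ∃ (D : ℕ) (g : Fin D → Fin D → 𝓞 M), g ≠ 0 ∧
      ∀ s : Fin n → ℤ, pval g (X s) (Y s) = 0 := by
  obtain ⟨c₁, hc₁, hSi⟩ := siegel hc hgX hgY
  obtain ⟨c₂, hc₂, hPv⟩ := pval_lower hc hgX hgY ι
  obtain ⟨κ, hκ0, hκ⟩ : ∃ κ : ℝ, 0 < κ ∧ ρ * r ≤ Real.exp (-κ) := by
    by_cases h0 : ρ * r ≤ 0
    · exact ⟨1, one_pos, h0.trans (Real.exp_pos _).le⟩
    · push Not at h0
      refine ⟨-Real.log (ρ * r), ?_, ?_⟩
      · have := Real.log_neg h0 hr
        linarith
      · rw [neg_neg, Real.exp_log h0]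
  obtain ⟨S₀, D, hD, hpar⟩ := parameters hn (c := c₂ * (c₁ + 1)) (κ := κ) (by positivity) hκ0
  obtain ⟨g, hg0, hgh, hgv⟩ := hSi D S₀ hD
  refine ⟨D, g, hg0, ?_⟩
  have key : ∀ S : ℕ, S₀ ≤ S → ∀ s : Fin n → ℤ, (∀ i, |s i| ≤ S) → pval g (X s) (Y s) = 0 := by
    intro S hS
    induction S, hS using Nat.le_induction with
    | base => exact hgv
    | succ S hS ih =>
      have hB0 : 0 ≤ c₁ * (D * (1 + (S₀ : ℝ) ^ 2)) := by positivity
      have hext := extrapolate ι hρ hr h₁ h₂ hz hzr hX hY g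
        (A := c₂ * (c₁ * (D * (1 + (S₀ : ℝ) ^ 2)) + D * (1 + n * ((S : ℝ) + 1) ^ 2)))
        (κ := κ) (S := S) hκ ?_ ?_ ih
      · intro s hs
        refine hext s fun i => ?_
        have := hs i
        push_cast at this
        exact this
      · intro s hs hne
        refine (hPv D _ g hB0 hgh s hne).trans ?_
        refine mul_le_mul_of_nonneg_left (Real.exp_le_exp.2 ?_) (norm_nonneg _)
        refine mul_le_mul_of_nonneg_left ?_ hc₂
        have hsum : ∑ i, (s i : ℝ) ^ 2 ≤ n * ((S : ℝ) + 1) ^ 2 := by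
          calc ∑ i, (s i : ℝ) ^ 2 ≤ ∑ _i : Fin n, ((S : ℝ) + 1) ^ 2 := by
                refine Finset.sum_le_sum fun i _ => ?_
                have h1 : |(s i : ℝ)| ≤ (S : ℝ) + 1 := by
                  have := hs i
                  have h2 : ((|s i| : ℤ) : ℝ) ≤ (((S : ℤ) + 1 : ℤ) : ℝ) := by exact_mod_cast this
                  rw [Int.cast_abs] at h2
                  push_cast at h2
                  exact h2
                rw [← sq_abs]
                exact pow_le_pow_left₀ (abs_nonneg _) h1 2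
            _ = n * ((S : ℝ) + 1) ^ 2 := by
                rw [Finset.sum_const, Finset.card_univ, Fintype.card_fin, nsmul_eq_mul]
        have hDn : (0 : ℝ) ≤ D := Nat.cast_nonneg D
        have := mul_le_mul_of_nonneg_left (add_le_add_right hsum 1) hDn
        linarith
      · refine lt_of_le_of_lt ?_ (hpar S hS)
        rw [mul_assoc]
        refine mul_le_mul_of_nonneg_left ?_ hc₂
        have h1 : 0 ≤ D * (1 + (S₀ : ℝ) ^ 2) := by positivity
        have h2 : 0 ≤ D * (1 + n * ((S : ℝ) + 1) ^ 2) := by positivity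
        have h3 : 0 ≤ c₁ * (D * (1 + n * ((S : ℝ) + 1) ^ 2)) := mul_nonneg hc₁ h2
        linarith
  intro s
  refine key (max S₀ (∑ i, (s i).natAbs)) (le_max_left _ _) s fun i => ?_
  have h1 : (s i).natAbs ≤ ∑ i, (s i).natAbs :=
    Finset.single_le_sum (f := fun i => (s i).natAbs) (fun _ _ => Nat.zero_le _)
      (Finset.mem_univ i)
  have h2 : (s i).natAbs ≤ max S₀ (∑ i, (s i).natAbs) := h1.trans (le_max_right _ _)
  rw [Int.abs_eq_natAbs]
  exact_mod_cast h2

end Pool.Agent.PTwist
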