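import Pool.Agent.W_52423f_h30.HtC

/-!
# The auxiliary polynomial (Siegel's lemma)
-/

namespace Pool.Agent.PTwist

open NumberField

variable {M : Type*} [Field M] [NumberField M]

/-- the value `∑ g a b x ^ a y ^ b` of a polynomial with degrees `< D` and integral coefficients -/
noncomputable def pval {D : ℕ} (g : Fin D → Fin D → 𝓞 M) (x y : M) : M :=
  ∑ a, ∑ b, (g a b : M) * x ^ (a : ℕ) * y ^ (b : ℕ)

/-- If `b x`, `b' y` are integral (`b, b'` natural numbers) then `(b b')^(2 D) x ^ i y ^ j` is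
integral for `i, j ≤ D`; moreover its house is at most
`(b b')^(2 D) * (max 1 ‖conjugates of x‖) ^ D * (max 1 ‖conjugates of y‖) ^ D`. -/
theorem CoreA_integral {x y : M} {b b' : ℕ} (hb : IsIntegral ℤ ((b : M) * x))
    (hb' : IsIntegral ℤ ((b' : M) * y)) {D i j : ℕ} (hi : i ≤ D) (hj : j ≤ D) :
    IsIntegral ℤ (((b * b' : ℕ) : M) ^ (2 * D) * (x ^ i * y ^ j)) := by
  have e : ((b * b' : ℕ) : M) ^ (2 * D) * (x ^ i * y ^ j) =
      ((b : M) * x) ^ i * ((b' : M) * y) ^ j * ((b ^ (2 * D - i) * b' ^ (2 * D - j) : ℕ) : M) := by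
    have e1 : (b : M) ^ (2 * D) = (b : M) ^ i * (b : M) ^ (2 * D - i) := by
      rw [← pow_add]
      congr 1
      omega
    have e2 : (b' : M) ^ (2 * D) = (b' : M) ^ j * (b' : M) ^ (2 * D - j) := by
      rw [← pow_add]
      congr 1
      omega
    push_cast
    rw [mul_pow, mul_pow, mul_pow, e1, e2]
    ring
  rw [e]
  exact ((hb.pow i).mul (hb'.pow j)).mul (isIntegral_natCast _)

theorem CoreA_house {x y : M} {b b' : ℕ} {H : ℝ} (hH : 1 ≤ H) (hb : (b : ℝ) ≤ H)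
    (hb' : (b' : ℝ) ≤ H) (hx : ∀ τ : M →+* ℂ, ‖τ x‖ ≤ H) (hy : ∀ τ : M →+* ℂ, ‖τ y‖ ≤ H)
    {D i j : ℕ} (hi : i ≤ D) (hj : j ≤ D) :
    house (((b * b' : ℕ) : M) ^ (2 * D) * (x ^ i * y ^ j)) ≤ H ^ (6 * D) := by
  have key : ∀ τ : M →+* ℂ,
      ‖τ (((b * b' : ℕ) : M) ^ (2 * D) * (x ^ i * y ^ j))‖ ≤ H ^ (6 * D) := by
    intro τ
    have h0 : (0 : ℝ) ≤ H := by linarith
    have h1 : ‖τ x‖ ^ i ≤ H ^ D :=
      (pow_le_pow_left₀ (norm_nonneg _) (hx τ) i).trans (pow_le_pow_right₀ hH hi)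
    have h2 : ‖τ y‖ ^ j ≤ H ^ D :=
      (pow_le_pow_left₀ (norm_nonneg _) (hy τ) j).trans (pow_le_pow_right₀ hH hj)
    have h3 : (b : ℝ) ^ (2 * D) ≤ H ^ (2 * D) := pow_le_pow_left₀ (Nat.cast_nonneg b) hb _
    have h4 : (b' : ℝ) ^ (2 * D) ≤ H ^ (2 * D) := pow_le_pow_left₀ (Nat.cast_nonneg b') hb' _
    have e : ‖τ (((b * b' : ℕ) : M) ^ (2 * D) * (x ^ i * y ^ j))‖ =
        ((b : ℝ) ^ (2 * D) * (b' : ℝ) ^ (2 * D)) * (‖τ x‖ ^ i * ‖τ y‖ ^ j) := by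
      rw [map_mul, map_pow, map_mul, map_pow, map_pow, map_natCast, norm_mul, norm_mul, norm_pow,
        norm_pow, norm_pow, Complex.norm_natCast]
      push_cast
      rw [mul_pow]
    rw [e]
    calc ((b : ℝ) ^ (2 * D) * (b' : ℝ) ^ (2 * D)) * (‖τ x‖ ^ i * ‖τ y‖ ^ j)
        ≤ (H ^ (2 * D) * H ^ (2 * D)) * (H ^ D * H ^ D) := by gcongr
      _ = H ^ (6 * D) := by
        rw [← pow_add, ← pow_add, ← pow_add]
        congr 1
        ring
  rw [house, pi_norm_le_iff_of_nonneg (by positivity)]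
  intro τ
  exact key τ

end Pool.Agent.PTwist
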