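import Pool.Agent.W_52423f_h30.CoreA

/-!
# The Liouville inequality
-/

namespace Pool.Agent.PTwist

open NumberField

variable {M : Type*} [Field M] [NumberField M]
variable {K : Type*} [NormedField K] [IsUltrametricDist K]

/-- the norm of an integer in `K`.  The prime `p` is explicit: without the `ℚ_[p]`-algebra structure
the statement would be false (and section variables are only included if they are mentioned). -/
theorem one_le_norm_int_mul (p : ℕ) [Fact p.Prime] [NormedAlgebra ℚ_[p] K] (m : ℤ) (hm : m ≠ 0) :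
    1 ≤ ‖(m : K)‖ * |(m : ℝ)| := by
  have h0 : ‖(m : K)‖ = ‖(m : ℚ_[p])‖ := by
    rw [← map_intCast (algebraMap ℚ_[p] K) m, norm_algebraMap']
  have hm' : (m : ℚ_[p]) ≠ 0 := by exact_mod_cast hm
  have hp : (0 : ℝ) < p := by exact_mod_cast (Fact.out : p.Prime).pos
  have h1 : ‖(m : ℚ_[p])‖ = (p : ℝ) ^ (-(padicValInt p m : ℤ)) := by
    rw [Padic.norm_eq_zpow_neg_valuation hm', Padic.valuation_intCast]
  have h2 : (p : ℤ) ^ padicValInt p m ∣ m := padicValInt_dvd m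
  have h3 : (p : ℤ) ^ padicValInt p m ≤ |m| :=
    Int.le_of_dvd (abs_pos.2 hm) ((dvd_abs _ _).2 h2)
  have h4 : (p : ℝ) ^ padicValInt p m ≤ |(m : ℝ)| := by exact_mod_cast h3
  rw [h0, h1, zpow_neg, zpow_natCast]
  have h5 : (0 : ℝ) < (p : ℝ) ^ padicValInt p m := by positivity
  rw [inv_mul_eq_div, le_div_iff₀ h5, one_mul]
  exact h4

/-- integral elements have norm `≤ 1` in an ultrametric field (in which integers have norm
`≤ 1`) -/
theorem norm_integral_le_one (ι : M →+* K) {x : M} (hx : IsIntegral ℤ x) : ‖ι x‖ ≤ 1 := by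
  obtain ⟨P, hP, hP0⟩ := hx
  have h1 : Polynomial.eval₂ (Int.castRingHom K) (ι x) P = 0 := by
    have h2 := congrArg ι hP0
    rw [Polynomial.hom_eval₂, map_zero] at h2
    rw [← h2]
    congr 1
    exact Subsingleton.elim _ _
  by_contra hcon
  push Not at hcon
  rw [Polynomial.eval₂_eq_sum_range, Finset.sum_range_succ, hP.coeff_natDegree, map_one,
    one_mul] at h1
  rcases Nat.eq_zero_or_pos P.natDegree with hn | hn
  · rw [hn] at h1
    simp at h1
  · have h2 : ‖∑ i ∈ Finset.range P.natDegree, (Int.castRingHom K) (P.coeff i) * ι x ^ i‖ ≤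
        ‖ι x‖ ^ (P.natDegree - 1) := by
      refine IsUltrametricDist.norm_sum_le_of_forall_le_of_nonneg (by positivity) fun i hi => ?_
      rw [Finset.mem_range] at hi
      rw [norm_mul, norm_pow]
      calc ‖(Int.castRingHom K) (P.coeff i)‖ * ‖ι x‖ ^ i ≤ 1 * ‖ι x‖ ^ i :=
            mul_le_mul_of_nonneg_right (IsUltrametricDist.norm_intCast_le_one K _) (by positivity)
        _ = ‖ι x‖ ^ i := one_mul _
        _ ≤ ‖ι x‖ ^ (P.natDegree - 1) := pow_le_pow_right₀ hcon.le (by omega)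
    have h3 : ι x ^ P.natDegree =
        -∑ i ∈ Finset.range P.natDegree, (Int.castRingHom K) (P.coeff i) * ι x ^ i := by
      rw [eq_neg_iff_add_eq_zero, add_comm]
      exact h1
    have h4 : ‖ι x‖ ^ P.natDegree ≤ ‖ι x‖ ^ (P.natDegree - 1) := by
      rw [← norm_pow, h3, norm_neg]
      exact h2
    have h5 : ‖ι x‖ ^ (P.natDegree - 1) < ‖ι x‖ ^ P.natDegree :=
      pow_lt_pow_right₀ hcon (by omega)
    linarith

/-- Liouville: `N = Algebra.norm ℤ η` is a nonzero integer, `η` divides it in `𝓞 M`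
(so `‖ι N‖ ≤ ‖ι η‖`), and `|N| ≤ house ^ d` (`Algebra.norm_eq_prod_embeddings` or
`norm_norm_le_norm_mul_house_pow`); then `one_le_norm_int_mul`. -/
theorem liouville (p : ℕ) [Fact p.Prime] [NormedAlgebra ℚ_[p] K] (ι : M →+* K) {η : M}
    (h : IsIntegral ℤ η) (h0 : η ≠ 0) :
    1 ≤ ‖ι η‖ * house η ^ Module.finrank ℚ M := by
  classical
  obtain ⟨N, hN⟩ : ∃ N : ℤ, (N : ℚ) = Algebra.norm ℚ η := by
    have h1 : IsIntegral ℤ (Algebra.norm ℚ η) := Algebra.isIntegral_norm ℚ h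
    obtain ⟨N, hN⟩ := IsIntegrallyClosed.isIntegral_iff.1 h1
    exact ⟨N, by rw [← hN]; simp⟩
  have hN0 : N ≠ 0 := by
    intro h1
    rw [h1] at hN
    have h2 : Algebra.norm ℚ η ≠ 0 := Algebra.norm_ne_zero_iff.2 h0
    exact h2 (by rw [← hN]; simp)
  -- a complex embedding
  obtain ⟨σ₀⟩ : Nonempty (M →+* ℂ) := inferInstance
  obtain ⟨σ, -⟩ : ∃ σ : M →ₐ[ℚ] ℂ, σ = σ₀.toRatAlgHom := ⟨_, rfl⟩
  have hprod : ((N : ℤ) : ℂ) = ∏ τ : M →ₐ[ℚ] ℂ, τ η := by
    rw [← Algebra.norm_eq_prod_embeddings, ← hN]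
    simp
  have hsplit : ((N : ℤ) : ℂ) = σ η * ∏ τ ∈ Finset.univ.erase σ, τ η := by
    rw [hprod, Finset.mul_prod_erase Finset.univ (· η) (Finset.mem_univ σ)]
  have hσ0 : σ η ≠ 0 := by
    rw [Ne, map_eq_zero]
    exact h0
  -- the cofactor is integral
  have hint : IsIntegral ℤ ((N : M) / η) := by
    have h1 : IsIntegral ℤ (σ ((N : M) / η)) := by
      have h2 : σ ((N : M) / η) = ∏ τ ∈ Finset.univ.erase σ, τ η := by
        rw [map_div₀, map_intCast, hsplit, mul_div_cancel_left₀ _ hσ0]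
      rw [h2]
      exact IsIntegral.prod _ fun τ _ => h.map τ
    exact (isIntegral_algHom_iff (σ.restrictScalars ℤ) σ.injective).1 h1
  have h1 : ‖ι ((N : M) / η)‖ ≤ 1 := norm_integral_le_one ι hint
  have hι0 : ι η ≠ 0 := by
    rw [Ne, map_eq_zero]
    exact h0
  have h2 : ‖(N : K)‖ ≤ ‖ι η‖ := by
    rw [map_div₀, map_intCast, norm_div, div_le_one (norm_pos_iff.2 hι0)] at h1
    exact h1
  have h3 : |(N : ℝ)| ≤ house η ^ Module.finrank ℚ M := by
    have h4 : |(N : ℝ)| = ‖((N : ℤ) : ℂ)‖ := by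
      rw [Complex.norm_intCast]
    rw [h4, hprod, norm_prod]
    calc ∏ τ : M →ₐ[ℚ] ℂ, ‖τ η‖ ≤ ∏ _τ : M →ₐ[ℚ] ℂ, house η :=
          Finset.prod_le_prod (fun _ _ => norm_nonneg _)
            fun τ _ => norm_embedding_le_house η (τ : M →+* ℂ)
      _ = house η ^ Module.finrank ℚ M := by
          rw [Finset.prod_const, Finset.card_univ, AlgHom.card]
  calc 1 ≤ ‖(N : K)‖ * |(N : ℝ)| := one_le_norm_int_mul p N hN0
    _ ≤ ‖ι η‖ * house η ^ Module.finrank ℚ M :=
        mul_le_mul h2 h3 (abs_nonneg _) (norm_nonneg _)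

end Pool.Agent.PTwist
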