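import Pool.Agent.W_52423f_h30.Ev

/-!
# Evaluation of power series with geometric coefficient bounds, rules
-/

namespace Pool.Agent.PTwist

open PowerSeries

variable {K : Type*} [NontriviallyNormedField K] [CompleteSpace K] [IsUltrametricDist K]

variable {ρ c c' : ℝ} {F G : PowerSeries K}

section Eval

variable {z : K}

theorem EvB_term (h : Bd ρ c F) (n : ℕ) : ‖coeff n F * z ^ n‖ ≤ c * (ρ * ‖z‖) ^ n := by
  rw [norm_mul, norm_pow, mul_pow, ← mul_assoc]
  exact mul_le_mul_of_nonneg_right (h n) (by positivity)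

theorem Bd.summable (hρ : 0 ≤ ρ) (h : Bd ρ c F) (hz : ρ * ‖z‖ < 1) :
    Summable fun n => ‖coeff n F * z ^ n‖ := by
  refine Summable.of_nonneg_of_le (fun _ => norm_nonneg _) (fun n => EvB_term h n) ?_
  exact (summable_geometric_of_lt_one (by positivity) hz).mul_left c

theorem ev_add (hρ : 0 ≤ ρ) (h : Bd ρ c F) (h' : Bd ρ c' G) (hz : ρ * ‖z‖ < 1) :
    ev (F + G) z = ev F z + ev G z := by
  unfold ev
  rw [← (h.summable hρ hz).of_norm.tsum_add (h'.summable hρ hz).of_norm]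
  refine tsum_congr fun n => ?_
  rw [map_add, add_mul]

theorem ev_neg (F : PowerSeries K) (z : K) : ev (-F) z = -ev F z := by
  unfold ev
  rw [← tsum_neg]
  refine tsum_congr fun n => ?_
  rw [map_neg, neg_mul]

theorem ev_sub (hρ : 0 ≤ ρ) (h : Bd ρ c F) (h' : Bd ρ c' G) (hz : ρ * ‖z‖ < 1) :
    ev (F - G) z = ev F z - ev G z := by
  rw [sub_eq_add_neg, ev_add hρ h h'.neg hz, ev_neg, sub_eq_add_neg]

theorem ev_mul (hρ : 0 ≤ ρ) (h : Bd ρ c F) (h' : Bd ρ c' G) (hz : ρ * ‖z‖ < 1) :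
    ev (F * G) z = ev F z * ev G z := by
  unfold ev
  rw [tsum_mul_tsum_eq_tsum_sum_antidiagonal_of_summable_norm (h.summable hρ hz)
    (h'.summable hρ hz)]
  refine tsum_congr fun n => ?_
  rw [PowerSeries.coeff_mul, Finset.sum_mul]
  refine Finset.sum_congr rfl fun p hp => ?_
  rw [← Finset.HasAntidiagonal.mem_antidiagonal.1 hp, pow_add]
  ring

theorem ev_C (a : K) (z : K) : ev (PowerSeries.C a) z = a := by
  unfold ev
  rw [tsum_eq_single 0]
  · rw [PowerSeries.coeff_C, if_pos rfl, pow_zero, mul_one]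
  · intro n hn
    rw [PowerSeries.coeff_C, if_neg hn, zero_mul]

theorem ev_pow (hρ : 0 ≤ ρ) (h : Bd ρ c F) (hz : ρ * ‖z‖ < 1) (n : ℕ) :
    ev (F ^ n) z = ev F z ^ n := by
  induction n with
  | zero =>
    rw [pow_zero, pow_zero]
    have := ev_C (1 : K) z
    rwa [map_one] at this
  | succ n ih =>
    rw [pow_succ, pow_succ, ev_mul hρ (h.pow hρ n) h hz, ih]

theorem ev_zero (z : K) : ev (0 : PowerSeries K) z = 0 := by
  have := ev_C (0 : K) z
  rwa [map_zero] at this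

theorem ev_X (z : K) : ev (PowerSeries.X : PowerSeries K) z = z := by
  unfold ev
  rw [tsum_eq_single 1]
  · rw [PowerSeries.coeff_X, if_pos rfl, pow_one, one_mul]
  · intro n hn
    rw [PowerSeries.coeff_X, if_neg hn, zero_mul]

theorem ev_rescale (a : K) (F : PowerSeries K) (z : K) :
    ev (PowerSeries.rescale a F) z = ev F (a * z) := by
  unfold ev
  refine tsum_congr fun n => ?_
  rw [PowerSeries.coeff_rescale, mul_pow]
  ring

theorem ev_at_zero (F : PowerSeries K) : ev F 0 = coeff 0 F := by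
  unfold ev
  rw [tsum_eq_single 0]
  · rw [pow_zero, mul_one]
  · intro n hn
    rw [zero_pow hn, mul_zero]

theorem ev_sum {ι : Type*} (s : Finset ι) {f : ι → PowerSeries K} (hρ : 0 ≤ ρ)
    (h : ∀ i ∈ s, ∃ c, Bd ρ c (f i)) (hz : ρ * ‖z‖ < 1) :
    ev (∑ i ∈ s, f i) z = ∑ i ∈ s, ev (f i) z := by
  unfold ev
  rw [← Summable.tsum_finsetSum]
  · refine tsum_congr fun n => ?_
    rw [map_sum, Finset.sum_mul]
  · intro i hi
    obtain ⟨c, hc⟩ := h i hi
    exact (hc.summable hρ hz).of_norm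

/-- the terms of degree `≥ m` contribute at most `c (ρ ‖z‖) ^ m` -/
theorem norm_ev_le_of_coeff_eq_zero (hρ : 0 ≤ ρ) (h : Bd ρ c F) (hz : ρ * ‖z‖ < 1) {m : ℕ}
    (hm : ∀ i < m, coeff i F = 0) : ‖ev F z‖ ≤ c * (ρ * ‖z‖) ^ m := by
  have hc := h.nonneg
  have hz0 : 0 ≤ ρ * ‖z‖ := by positivity
  refine IsUltrametricDist.norm_tsum_le_of_forall_le_of_nonneg (by positivity) fun n => ?_
  by_cases hn : n < m
  · rw [hm n hn, zero_mul, norm_zero]
    positivity
  · refine (EvB_term h n).trans ?_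
    exact mul_le_mul_of_nonneg_left (pow_le_pow_of_le_one hz0 hz.le (not_lt.1 hn)) hc

theorem norm_ev_le (hρ : 0 ≤ ρ) (h : Bd ρ c F) (hz : ρ * ‖z‖ < 1) : ‖ev F z‖ ≤ c := by
  have := norm_ev_le_of_coeff_eq_zero hρ h hz (m := 0) (fun i hi => absurd hi (Nat.not_lt_zero i))
  rwa [pow_zero, mul_one] at this

end Eval

end Pool.Agent.PTwist
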