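import Pool.Agent.W_52423f_h30.CoreB
import Pool.Agent.W_52423f_h30.EvB

/-!
# The auxiliary function
-/

namespace Pool.Agent.PTwist

open NumberField PowerSeries

variable {M : Type*} [Field M] [NumberField M]
variable {K : Type*} [NontriviallyNormedField K] [CompleteSpace K] [IsUltrametricDist K] {p : ℕ}
  [Fact p.Prime] [NormedAlgebra ℚ_[p] K]

/-- the power series `∑ ι(g a b) f₁ ^ a f₂ ^ b` -/
noncomputable def pser (ι : M →+* K) {D : ℕ} (g : Fin D → Fin D → 𝓞 M) (f₁ f₂ : PowerSeries K) :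
    PowerSeries K :=
  ∑ a, ∑ b, C (ι (g a b : M)) * f₁ ^ (a : ℕ) * f₂ ^ (b : ℕ)

theorem CoreD_const (ι : M →+* K) {ρ : ℝ} (hρ : 0 ≤ ρ) (x : 𝓞 M) :
    Bd ρ 1 (C (ι (x : M)) : PowerSeries K) :=
  Bd.const hρ (norm_integral_le_one ι (RingOfIntegers.isIntegral_coe x))

theorem CoreD_pow {f : PowerSeries K} {ρ : ℝ} (hρ : 0 ≤ ρ) (h : Bd ρ 1 f) (n : ℕ) :
    Bd ρ 1 (f ^ n) := by
  have h1 := Bd.pow hρ h n
  rwa [one_pow] at h1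

theorem CoreD_mul {f g : PowerSeries K} {ρ : ℝ} (hρ : 0 ≤ ρ) (h : Bd ρ 1 f) (h' : Bd ρ 1 g) :
    Bd ρ 1 (f * g) := by
  have h1 := Bd.mul hρ h h'
  rwa [one_mul] at h1

theorem CoreD_term (ι : M →+* K) {D : ℕ} (g : Fin D → Fin D → 𝓞 M) {f₁ f₂ : PowerSeries K}
    {ρ : ℝ} (hρ : 0 ≤ ρ) (h₁ : Bd ρ 1 f₁) (h₂ : Bd ρ 1 f₂) (a b : Fin D) :
    Bd ρ 1 (C (ι (g a b : M)) * f₁ ^ (a : ℕ) * f₂ ^ (b : ℕ)) :=
  CoreD_mul hρ (CoreD_mul hρ (CoreD_const ι hρ _) (CoreD_pow hρ h₁ _))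
    (CoreD_pow hρ h₂ _)

/-- bound of the coefficients: `norm_integral_le_one`, `Bd.mul`, `Bd.pow`, `Bd.sum` -/
theorem pser_bd (ι : M →+* K) {D : ℕ} (g : Fin D → Fin D → 𝓞 M) {f₁ f₂ : PowerSeries K} {ρ : ℝ}
    (hρ : 0 ≤ ρ) (h₁ : Bd ρ 1 f₁) (h₂ : Bd ρ 1 f₂) : Bd ρ 1 (pser ι g f₁ f₂) := by
  unfold pser
  exact Bd.sum _ zero_le_one hρ fun a _ => Bd.sum _ zero_le_one hρ fun b _ =>
    CoreD_term ι g hρ h₁ h₂ a b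

theorem pser_ev (ι : M →+* K) {D : ℕ} (g : Fin D → Fin D → 𝓞 M) {f₁ f₂ : PowerSeries K} {ρ : ℝ}
    (hρ : 0 ≤ ρ) (h₁ : Bd ρ 1 f₁) (h₂ : Bd ρ 1 f₂) {z : K} (hz : ρ * ‖z‖ < 1) {x y : M}
    (hx : ι x = ev f₁ z) (hy : ι y = ev f₂ z) :
    ev (pser ι g f₁ f₂) z = ι (pval g x y) := by
  have ht := CoreD_term ι g hρ h₁ h₂
  unfold pser pval
  rw [ev_sum _ hρ (fun a _ => ⟨1, Bd.sum _ zero_le_one hρ fun b _ => ht a b⟩) hz, map_sum]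
  refine Finset.sum_congr rfl fun a _ => ?_
  rw [ev_sum _ hρ (fun b _ => ⟨1, ht a b⟩) hz, map_sum]
  refine Finset.sum_congr rfl fun b _ => ?_
  rw [ev_mul hρ (CoreD_mul hρ (CoreD_const ι hρ _) (CoreD_pow hρ h₁ _))
    (CoreD_pow hρ h₂ _) hz, ev_mul hρ (CoreD_const ι hρ _) (CoreD_pow hρ h₁ _) hz,
    ev_pow hρ h₁ hz, ev_pow hρ h₂ hz, ev_C, ← hx, ← hy, map_mul, map_mul, map_pow, map_pow]

end Pool.Agent.PTwist
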