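import Pool.Agent.W_52423f_h30.EvB

/-!
# Division by linear factors, the Schwarz lemma, zeros of power series
-/

namespace Pool.Agent.PTwist

open PowerSeries

variable {K : Type*} [NontriviallyNormedField K] [CompleteSpace K] [IsUltrametricDist K]
variable {ρ c r : ℝ} {F : PowerSeries K}

omit [CompleteSpace K] in
theorem Schwarz_norm_tsum_le {f : ℕ → K} (hf : Summable f) {B : ℝ} (hB : 0 ≤ B)
    (h : ∀ i, ‖f i‖ ≤ B) : ‖∑' i, f i‖ ≤ B := by
  refine le_of_tendsto hf.hasSum.norm (Filter.Eventually.of_forall fun s => ?_)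
  exact IsUltrametricDist.norm_sum_le_of_forall_le_of_nonneg hB fun i _ => h i

theorem Schwarz_term_le (hρ : 0 ≤ ρ) (hF : Bd ρ c F) {w : K} (hw : ‖w‖ ≤ r) (k i : ℕ) :
    ‖coeff (k + i) F * w ^ i‖ ≤ c * ρ ^ k * (ρ * r) ^ i := by
  have hc := hF.nonneg
  rw [norm_mul, norm_pow]
  calc ‖coeff (k + i) F‖ * ‖w‖ ^ i ≤ (c * ρ ^ (k + i)) * r ^ i := by
        gcongr
        exact hF _
    _ = c * ρ ^ k * (ρ * r) ^ i := by ring

omit [CompleteSpace K] [IsUltrametricDist K] in
theorem Schwarz_rho_r_nonneg (hρ : 0 ≤ ρ) {w : K} (hw : ‖w‖ ≤ r) : 0 ≤ ρ * r :=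
  mul_nonneg hρ ((norm_nonneg _).trans hw)

theorem Schwarz_summable (hρ : 0 ≤ ρ) (hr : ρ * r < 1) (hF : Bd ρ c F) {w : K} (hw : ‖w‖ ≤ r)
    (k : ℕ) : Summable fun i => coeff (k + i) F * w ^ i := by
  refine Summable.of_norm_bounded
    (g := fun i => c * ρ ^ k * (ρ * r) ^ i) ?_ fun i => Schwarz_term_le hρ hF hw k i
  exact (summable_geometric_of_lt_one (Schwarz_rho_r_nonneg hρ hw) hr).mul_left _

/-- Division: if `ev F w = 0` then `F = (X - w) H` with
`coeff j H = ∑' i, coeff (j + 1 + i) F * w ^ i`; the terms are bounded by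
`c ρ ^ (j + 1 + i) r ^ i ≤ c ρ ^ (j + 1)`. -/
theorem exists_div (hρ : 0 ≤ ρ) (hr : ρ * r < 1) (hF : Bd ρ c F) {w : K} (hw : ‖w‖ ≤ r)
    (h0 : ev F w = 0) : ∃ H : PowerSeries K, Bd ρ (c * ρ) H ∧ F = (X - C w) * H := by
  have hc := hF.nonneg
  have hpr := Schwarz_rho_r_nonneg hρ hw
  have key : ∀ k : ℕ, ∑' i, coeff (k + i) F * w ^ i
      = coeff k F + w * ∑' i, coeff (k + 1 + i) F * w ^ i := by
    intro k
    rw [(Schwarz_summable hρ hr hF hw k).tsum_eq_zero_add, ← tsum_mul_left]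
    simp only [add_zero, pow_zero, mul_one]
    congr 1
    refine tsum_congr fun i => ?_
    rw [show k + (i + 1) = k + 1 + i by ring]
    ring
  refine ⟨PowerSeries.mk fun j => ∑' i, coeff (j + 1 + i) F * w ^ i, ?_, ?_⟩
  · intro j
    rw [coeff_mk]
    refine Schwarz_norm_tsum_le (Schwarz_summable hρ hr hF hw (j + 1)) (by positivity) fun i => ?_
    refine (Schwarz_term_le hρ hF hw (j + 1) i).trans ?_
    calc c * ρ ^ (j + 1) * (ρ * r) ^ i ≤ c * ρ ^ (j + 1) * 1 := by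
          gcongr
          exact pow_le_one₀ hpr hr.le
      _ = c * ρ * ρ ^ j := by ring
  · ext n
    rw [sub_mul, map_sub, coeff_C_mul, coeff_mk]
    cases n with
    | zero =>
      rw [coeff_zero_X_mul]
      have h1 := key 0
      have h2 : ev F w = ∑' i, coeff (0 + i) F * w ^ i := by
        rw [ev]
        refine tsum_congr fun i => ?_
        rw [zero_add]
      rw [← h2, h0] at h1
      linear_combination (-1 : K) * h1
    | succ n =>
      rw [coeff_succ_X_mul, coeff_mk]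
      have h1 := key (n + 1)
      linear_combination (-1 : K) * h1

omit [CompleteSpace K] [IsUltrametricDist K] in
theorem Schwarz_exists_rho (hρ : 0 ≤ ρ) (hr : ρ * r < 1) {z : K} (hz : ‖z‖ ≤ r) :
    ∃ ρ' : ℝ, ρ ≤ ρ' ∧ 0 < ρ' ∧ ρ' * r < 1 := by
  rcases hρ.eq_or_lt with h | h
  · have h0 : 0 ≤ r := (norm_nonneg _).trans hz
    refine ⟨1 / (r + 1), ?_, by positivity, ?_⟩
    · rw [← h]; positivity
    · rw [div_mul_eq_mul_div, one_mul, div_lt_one (by positivity)]
      linarith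
  · exact ⟨ρ, le_rfl, h, hr⟩

theorem Schwarz_mono_rho (hρ : 0 ≤ ρ) {ρ' : ℝ} (h : ρ ≤ ρ') (hF : Bd ρ c F) : Bd ρ' c F := by
  intro n
  refine (hF n).trans ?_
  have := hF.nonneg
  gcongr

omit [CompleteSpace K] [IsUltrametricDist K] in
theorem Schwarz_bd_linear (hρ : 0 < ρ) (w : K) : Bd ρ (max ‖w‖ (1 / ρ)) (X - C w : PowerSeries K) := by
  intro n
  match n with
  | 0 =>
    simp
  | 1 =>
    have h1 : coeff 1 (X - C w : PowerSeries K) = 1 := by
      rw [map_sub, coeff_one_X, coeff_C]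
      simp
    rw [h1, norm_one, pow_one]
    calc (1 : ℝ) = 1 / ρ * ρ := by field_simp
      _ ≤ max ‖w‖ (1 / ρ) * ρ := by
        gcongr
        exact le_max_right _ _
  | n + 2 =>
    have h1 : coeff (n + 2) (X - C w : PowerSeries K) = 0 := by
      rw [map_sub, coeff_X, coeff_C]
      simp
    rw [h1, norm_zero]
    have : 0 ≤ max ‖w‖ (1 / ρ) := (norm_nonneg w).trans (le_max_left _ _)
    positivity

theorem Schwarz_ev_mul (hρ : 0 ≤ ρ) (hr : ρ * r < 1) {H : PowerSeries K} (hH : Bd ρ c H) (w : K)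
    {z : K} (hz : ‖z‖ ≤ r) : ev ((X - C w) * H) z = (z - w) * ev H z := by
  obtain ⟨ρ', h1, h2, h3⟩ := Schwarz_exists_rho hρ hr hz
  have hz' : ρ' * ‖z‖ < 1 := by
    refine lt_of_le_of_lt ?_ h3
    gcongr
  rw [ev_mul h2.le (Schwarz_bd_linear h2 w) (Schwarz_mono_rho hρ h1 hH) hz']
  congr 1
  obtain ⟨c1, hc1⟩ : ∃ c1, Bd ρ' c1 (X : PowerSeries K) := by
    have := Schwarz_bd_linear h2 (0 : K)
    rw [map_zero, sub_zero] at this
    exact ⟨_, this⟩
  rw [ev_sub h2.le hc1 (Bd.const h2.le (le_refl ‖w‖)) hz', ev_X, ev_C]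

/-- Schwarz lemma, by induction on the number of zeros, `exists_div`; a zero of `F` different from
`w` is a zero of the quotient. -/
theorem schwarz (hρ : 0 ≤ ρ) (hr : ρ * r < 1) (hF : Bd ρ c F) (Z : Finset K)
    (hZ : ∀ w ∈ Z, ‖w‖ ≤ r ∧ ev F w = 0) {z : K} (hz : ‖z‖ ≤ r) :
    ‖ev F z‖ ≤ c * (ρ * r) ^ Z.card := by
  classical
  induction Z using Finset.induction_on generalizing F c with
  | empty =>
    rw [Finset.card_empty, pow_zero, mul_one]
    refine norm_ev_le hρ hF (lt_of_le_of_lt ?_ hr)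
    gcongr
  | insert w Z hw ih =>
    obtain ⟨hw1, hw2⟩ := hZ w (Finset.mem_insert_self _ _)
    obtain ⟨H, hH, rfl⟩ := exists_div hρ hr hF hw1 hw2
    have h1 := ih hH fun v hv => by
      obtain ⟨h3, h4⟩ := hZ v (Finset.mem_insert_of_mem hv)
      refine ⟨h3, ?_⟩
      rw [Schwarz_ev_mul hρ hr hH w h3] at h4
      rcases mul_eq_zero.mp h4 with h5 | h5
      · exact absurd (sub_eq_zero.mp h5) (fun h => hw (h ▸ hv))
      · exact h5
    rw [Schwarz_ev_mul hρ hr hH w hz, norm_mul, Finset.card_insert_of_notMem hw]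
    have hr0 : 0 ≤ r := (norm_nonneg _).trans hz
    have hzw : ‖z - w‖ ≤ r := by
      rw [sub_eq_add_neg]
      refine (IsUltrametricDist.norm_add_le_max _ _).trans (max_le hz ?_)
      rwa [norm_neg]
    calc ‖z - w‖ * ‖ev H z‖ ≤ r * (c * ρ * (ρ * r) ^ Z.card) := by gcongr
      _ = c * (ρ * r) ^ (Z.card + 1) := by ring

/-- a power series with infinitely many zeros in the ball vanishes on the ball: let the number of
zeros in `schwarz` tend to infinity -/
theorem ev_eq_zero_of_infinite (hρ : 0 ≤ ρ) (hr : ρ * r < 1) (hF : Bd ρ c F) {Z : Set K}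
    (hinf : Z.Infinite) (hZ : ∀ w ∈ Z, ‖w‖ ≤ r ∧ ev F w = 0) {z : K} (hz : ‖z‖ ≤ r) :
    ev F z = 0 := by
  have h1 : ∀ n : ℕ, ‖ev F z‖ ≤ c * (ρ * r) ^ n := by
    intro n
    obtain ⟨t, ht, hcard⟩ := hinf.exists_subset_card_eq n
    rw [← hcard]
    exact schwarz hρ hr hF t (fun w hw => hZ w (ht hw)) hz
  have h2 : Filter.Tendsto (fun n : ℕ => c * (ρ * r) ^ n) Filter.atTop (nhds (c * 0)) :=
    (tendsto_pow_atTop_nhds_zero_of_lt_one (Schwarz_rho_r_nonneg hρ hz) hr).const_mul c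
  rw [mul_zero] at h2
  have h3 := ge_of_tendsto' h2 h1
  exact norm_le_zero_iff.mp h3

/-- a power series vanishing on a ball of positive radius is zero (look at the first nonzero
coefficient and small `z`) -/
theorem eq_zero_of_ev_eq_zero (hρ : 0 ≤ ρ) (hr0 : 0 < r) (hr : ρ * r < 1) (hF : Bd ρ c F)
    (h : ∀ z : K, ‖z‖ ≤ r → ev F z = 0) : F = 0 := by
  have hc := hF.nonneg
  ext n
  rw [map_zero]
  induction n using Nat.strong_induction_on with
  | _ n ih =>
    have key : ∀ z : K, 0 < ‖z‖ → ‖z‖ ≤ r → ‖coeff n F‖ ≤ c * ρ ^ (n + 1) * ‖z‖ := by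
      intro z hz0 hz
      have hs : Summable fun i => coeff (0 + i) F * z ^ i := Schwarz_summable hρ hr hF hz 0
      simp only [zero_add] at hs
      have h1 := hs.sum_add_tsum_nat_add (n + 1)
      have h2 : ∑' i, coeff i F * z ^ i = 0 := h z hz
      have h20 : ∑ i ∈ Finset.range n, coeff i F * z ^ i = 0 := by
        refine Finset.sum_eq_zero fun i hi => ?_
        have := ih i (Finset.mem_range.mp hi)
        rw [this, zero_mul]
      rw [h2, Finset.sum_range_succ, h20, zero_add] at h1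
      have h3 : coeff n F * z ^ n
          = -∑' i, coeff (i + (n + 1)) F * z ^ (i + (n + 1)) := by
        linear_combination h1
      have h4 : ‖coeff n F * z ^ n‖ ≤ c * ρ ^ (n + 1) * ‖z‖ ^ (n + 1) := by
        rw [h3, norm_neg]
        have hs1 : Summable fun i => coeff (i + (n + 1)) F * z ^ (i + (n + 1)) :=
          (summable_nat_add_iff (f := fun i => coeff i F * z ^ i) (n + 1)).mpr hs
        have hB1 : 0 ≤ c * ρ ^ (n + 1) * ‖z‖ ^ (n + 1) := by positivity
        refine Schwarz_norm_tsum_le hs1 hB1 fun i => ?_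
        rw [norm_mul, norm_pow]
        have hzr : ρ * ‖z‖ ≤ 1 := by
          refine le_trans ?_ hr.le
          gcongr
        calc ‖coeff (i + (n + 1)) F‖ * ‖z‖ ^ (i + (n + 1))
            ≤ (c * ρ ^ (i + (n + 1))) * ‖z‖ ^ (i + (n + 1)) := by
              gcongr
              exact hF _
          _ = c * ρ ^ (n + 1) * ‖z‖ ^ (n + 1) * (ρ * ‖z‖) ^ i := by ring
          _ ≤ c * ρ ^ (n + 1) * ‖z‖ ^ (n + 1) * 1 := by
              gcongr
              exact pow_le_one₀ (by positivity) hzr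
          _ = c * ρ ^ (n + 1) * ‖z‖ ^ (n + 1) := by ring
      rw [norm_mul, norm_pow] at h4
      have h5 : ‖coeff n F‖ * ‖z‖ ^ n ≤ (c * ρ ^ (n + 1) * ‖z‖) * ‖z‖ ^ n := by
        calc _ ≤ _ := h4
          _ = _ := by ring
      exact le_of_mul_le_mul_right h5 (by positivity)
    have h6 : ‖coeff n F‖ ≤ 0 := by
      refine le_of_forall_pos_le_add fun ε hε => ?_
      rw [zero_add]
      set B : ℝ := c * ρ ^ (n + 1) with hB
      have hB0 : 0 ≤ B := by positivity
      obtain ⟨z, hz0, hz1⟩ := NormedField.exists_norm_lt K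
        (show 0 < min r (ε / (B + 1)) by positivity)
      have h7 := key z hz0 (hz1.le.trans (min_le_left _ _))
      have h8 : ‖z‖ ≤ ε / (B + 1) := hz1.le.trans (min_le_right _ _)
      calc ‖coeff n F‖ ≤ B * ‖z‖ := h7
        _ ≤ B * (ε / (B + 1)) := by gcongr
        _ = ε * (B / (B + 1)) := by ring
        _ ≤ ε * 1 := by
          gcongr
          rw [div_le_one (by positivity)]
          linarith
        _ = ε := mul_one _
    exact norm_le_zero_iff.mp h6

theorem eq_zero_of_infinite (hρ : 0 ≤ ρ) (hr0 : 0 < r) (hr : ρ * r < 1) (hF : Bd ρ c F)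
    {Z : Set K} (hinf : Z.Infinite) (hZ : ∀ w ∈ Z, ‖w‖ ≤ r ∧ ev F w = 0) : F = 0 :=
  eq_zero_of_ev_eq_zero hρ hr0 hr hF fun _ hz => ev_eq_zero_of_infinite hρ hr hF hinf hZ hz

end Pool.Agent.PTwist
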