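import Pool.Agent.W_52423f_h30.CoreD
import Pool.Agent.W_52423f_h30.Schwarz

/-!
# Extrapolation
-/

namespace Pool.Agent.PTwist

open NumberField PowerSeries

variable {M : Type*} [Field M] [NumberField M]
variable {K : Type*} [NontriviallyNormedField K] [CompleteSpace K] [IsUltrametricDist K] {p : ℕ}
  [Fact p.Prime] [NormedAlgebra ℚ_[p] K]

/-- Extrapolation.  Let `g` vanish at all `s` with `|s i| ≤ S`.  The points `z s` are distinct
zeros of `pser ι g f₁ f₂`, `(2 S + 1)^n` of them, so by `schwarz` the values at the `z s` with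
`|s i| ≤ S + 1` are at most `(ρ r)^((2 S + 1)^n) = exp (- κ (2 S + 1)^n)`; `pval_lower` with
`B = c₁ (D (1 + S₀²))` and the inequality of `parameters` give that they vanish. -/
theorem extrapolate {n : ℕ} {X Y : (Fin n → ℤ) → M} (ι : M →+* K)
    {f₁ f₂ : PowerSeries K} {ρ r : ℝ} (hρ : 0 ≤ ρ) (hr : ρ * r < 1) (h₁ : Bd ρ 1 f₁)
    (h₂ : Bd ρ 1 f₂) {z : (Fin n → ℤ) → K} (hz : Function.Injective z) (hzr : ∀ s, ‖z s‖ ≤ r)
    (hX : ∀ s, ι (X s) = ev f₁ (z s)) (hY : ∀ s, ι (Y s) = ev f₂ (z s))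
    {D S : ℕ} (g : Fin D → Fin D → 𝓞 M) {A κ : ℝ} (hκ : ρ * r ≤ Real.exp (-κ))
    (hlow : ∀ s : Fin n → ℤ, (∀ i, |s i| ≤ S + 1) → pval g (X s) (Y s) ≠ 0 →
      1 ≤ ‖ι (pval g (X s) (Y s))‖ * Real.exp A)
    (hA : A < κ * (2 * (S : ℝ) + 1) ^ n)
    (hvan : ∀ s : Fin n → ℤ, (∀ i, |s i| ≤ S) → pval g (X s) (Y s) = 0) :
    ∀ s : Fin n → ℤ, (∀ i, |s i| ≤ S + 1) → pval g (X s) (Y s) = 0 := by
  classical
  intro s hs
  by_contra hne
  have hr0 : 0 ≤ r := (norm_nonneg _).trans (hzr s)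
  have hz1 : ∀ t, ρ * ‖z t‖ < 1 := fun t =>
    lt_of_le_of_lt (mul_le_mul_of_nonneg_left (hzr t) hρ) hr
  have hev : ∀ t, ev (pser ι g f₁ f₂) (z t) = ι (pval g (X t) (Y t)) := fun t =>
    pser_ev ι g hρ h₁ h₂ (hz1 t) (hX t) (hY t)
  set T : Finset (Fin n → ℤ) := Fintype.piFinset fun _ => Finset.Icc (-(S : ℤ)) S with hT
  set Z : Finset K := T.image z with hZdef
  have hcard : Z.card = (2 * S + 1) ^ n := by
    rw [hZdef, Finset.card_image_of_injective _ hz, hT, Fintype.card_piFinset]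
    simp only [Int.card_Icc, Finset.prod_const, Finset.card_univ, Fintype.card_fin]
    congr 1
    omega
  have hZ : ∀ w ∈ Z, ‖w‖ ≤ r ∧ ev (pser ι g f₁ f₂) w = 0 := by
    intro w hw
    rw [hZdef, Finset.mem_image] at hw
    obtain ⟨t, ht, rfl⟩ := hw
    refine ⟨hzr t, ?_⟩
    rw [hev t, hvan t, map_zero]
    intro i
    have := Fintype.mem_piFinset.1 ht i
    rw [Finset.mem_Icc] at this
    exact abs_le.2 this
  have h1 := schwarz hρ hr (pser_bd ι g hρ h₁ h₂) Z hZ (hzr s)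
  rw [hev s, hcard, one_mul] at h1
  have h2 := hlow s hs hne
  have h3 : (ρ * r) ^ ((2 * S + 1) ^ n) ≤ Real.exp (-(κ * (2 * (S : ℝ) + 1) ^ n)) := by
    calc (ρ * r) ^ ((2 * S + 1) ^ n) ≤ (Real.exp (-κ)) ^ ((2 * S + 1) ^ n) :=
          pow_le_pow_left₀ (mul_nonneg hρ hr0) hκ _
      _ = Real.exp (-(κ * (2 * (S : ℝ) + 1) ^ n)) := by
          rw [← Real.exp_nat_mul]
          congr 1
          push_cast
          ring
  have h4 : ‖ι (pval g (X s) (Y s))‖ * Real.exp A < 1 := by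
    calc ‖ι (pval g (X s) (Y s))‖ * Real.exp A
        ≤ Real.exp (-(κ * (2 * (S : ℝ) + 1) ^ n)) * Real.exp A :=
          mul_le_mul_of_nonneg_right (h1.trans h3) (Real.exp_pos _).le
      _ = Real.exp (A - κ * (2 * (S : ℝ) + 1) ^ n) := by
          rw [← Real.exp_add]
          congr 1
          ring
      _ < 1 := by
          rw [Real.exp_lt_one_iff]
          linarith
  linarith

end Pool.Agent.PTwist
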