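import Pool.Agent.W_52423f_h30.StDefs

/-!
# Points near the origin, the functions `1 / x` and its derivative
-/

namespace Pool.Agent.PTwist

open WeierstrassCurve WeierstrassCurve.Affine

section

variable {k : Type*} [Field k] (V : WeierstrassCurve k)

/-- `1 / x`, zero at infinity -/
noncomputable def iX : V.toAffine.Point → k
  | .zero => 0
  | .some x _ _ => x⁻¹

/-- `- (2 y + a₁ x + a₃) / x ^ 2`, zero at infinity -/
noncomputable def iV : V.toAffine.Point → k
  | .zero => 0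
  | .some x y _ => -(2 * y + V.a₁ * x + V.a₃) * x⁻¹ ^ 2

@[simp] theorem iX_zero : iX V 0 = 0 := rfl

@[simp] theorem iV_zero : iV V 0 = 0 := rfl

@[simp] theorem iX_some {x y : k} (h : V.toAffine.Nonsingular x y) :
    iX V (.some x y h) = x⁻¹ := rfl

@[simp] theorem iV_some {x y : k} (h : V.toAffine.Nonsingular x y) :
    iV V (.some x y h) = -(2 * y + V.a₁ * x + V.a₃) * x⁻¹ ^ 2 := rfl

theorem iX_neg (P : V.toAffine.Point) : iX V (-P) = iX V P := by
  rcases P with _ | ⟨x, y, h⟩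
  · rfl
  · rfl

theorem iV_neg (P : V.toAffine.Point) : iV V (-P) = -iV V P := by
  rcases P with _ | ⟨x, y, h⟩
  · have h1 : iV V (Point.zero : V.toAffine.Point) = 0 := rfl
    have h2 : iV V (-(Point.zero : V.toAffine.Point)) = 0 := rfl
    rw [h1, h2, neg_zero]
  · rw [Point.neg_some, iV_some, iV_some]
    simp only [WeierstrassCurve.Affine.negY]
    ring

/-- `(2 y + a₁ x + a₃)² = 4 x³ + b₂ x² + 2 b₄ x + b₆` divided by `x⁴` -/
theorem iV_sq {x y : k} (h : V.toAffine.Nonsingular x y) (hx : x ≠ 0) :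
    iV V (.some x y h) ^ 2 = 4 * iX V (.some x y h) + V.b₂ * iX V (.some x y h) ^ 2 +
      2 * V.b₄ * iX V (.some x y h) ^ 3 + V.b₆ * iX V (.some x y h) ^ 4 := by
  have h1 := (WeierstrassCurve.Affine.equation_iff (W := V.toAffine) x y).1 h.1
  rw [iV_some, iX_some]
  simp only [WeierstrassCurve.b₂, WeierstrassCurve.b₄, WeierstrassCurve.b₆]
  field_simp
  linear_combination 4 * h1

/-- converse: `1/x = X`, `X ≠ 0`, `v` with the relation give a solution of the equation -/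
theorem equation_of_sq (h2 : (2 : k) ≠ 0) {X v : k} (hX : X ≠ 0)
    (h : v ^ 2 = 4 * X + V.b₂ * X ^ 2 + 2 * V.b₄ * X ^ 3 + V.b₆ * X ^ 4) :
    V.toAffine.Equation X⁻¹ ((-v * X⁻¹ ^ 2 - V.a₁ * X⁻¹ - V.a₃) / 2) := by
  rw [WeierstrassCurve.Affine.equation_iff]
  simp only [WeierstrassCurve.b₂, WeierstrassCurve.b₄, WeierstrassCurve.b₆] at h
  have h4 : (4 : k) ≠ 0 := by
    have : (4 : k) = 2 * 2 := by norm_num
    rw [this]
    exact mul_ne_zero h2 h2
  have h5 : v ^ 2 * X⁻¹ ^ 4 = 4 * X⁻¹ ^ 3 + (V.a₁ ^ 2 + 4 * V.a₂) * X⁻¹ ^ 2 +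
      2 * (2 * V.a₄ + V.a₁ * V.a₃) * X⁻¹ + (V.a₃ ^ 2 + 4 * V.a₆) := by
    rw [h]
    field_simp
  generalize X⁻¹ = x at h5 ⊢
  refine mul_left_cancel₀ h4 ?_
  field_simp
  linear_combination h5

/-- affine points with the same `iX ≠ 0` and `iV` are equal -/
theorem eq_of_iX_iV (h2 : (2 : k) ≠ 0) {P Q : V.toAffine.Point} (hP : iX V P ≠ 0)
    (hX : iX V P = iX V Q) (hV : iV V P = iV V Q) : P = Q := by
  rcases P with _ | ⟨x, y, h⟩
  · exact absurd rfl hP
  rcases Q with _ | ⟨x', y', h'⟩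
  · rw [hX] at hP
    exact absurd rfl hP
  rw [iX_some, iX_some] at hX
  rw [iX_some] at hP
  have hxx : x = x' := inv_injective hX
  subst hxx
  rw [iV_some, iV_some] at hV
  have h3 : x⁻¹ ^ 2 ≠ 0 := pow_ne_zero 2 hP
  have h4 := mul_right_cancel₀ h3 hV
  have h5 : y = y' := by
    refine mul_left_cancel₀ h2 ?_
    linear_combination -h4
  subst h5
  rfl

end

end Pool.Agent.PTwist
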