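import Mathlib

/-!
# Evaluation of power series with geometric coefficient bounds (ultrametric case)
-/

namespace Pool.Agent.PTwist

open PowerSeries

variable {K : Type*} [NontriviallyNormedField K] [CompleteSpace K] [IsUltrametricDist K]

/-- `‖coeff n F‖ ≤ c ρ ^ n` -/
def Bd (ρ c : ℝ) (F : PowerSeries K) : Prop := ∀ n, ‖coeff n F‖ ≤ c * ρ ^ n

/-- the value of `F` at `z` -/
noncomputable def ev (F : PowerSeries K) (z : K) : K := ∑' n, coeff n F * z ^ n

variable {ρ c c' : ℝ} {F G : PowerSeries K}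

section Bounds

theorem Bd.nonneg (h : Bd ρ c F) : 0 ≤ c := by
  have := (norm_nonneg _).trans (h 0)
  simpa using this

theorem Bd.mono (hρ : 0 ≤ ρ) (hc : c ≤ c') (h : Bd ρ c F) : Bd ρ c' F := by
  intro n
  refine (h n).trans ?_
  gcongr

theorem Bd.add (h : Bd ρ c F) (h' : Bd ρ c G) : Bd ρ c (F + G) := by
  intro n
  rw [map_add]
  exact (IsUltrametricDist.norm_add_le_max _ _).trans (max_le (h n) (h' n))

theorem Bd.neg (h : Bd ρ c F) : Bd ρ c (-F) := by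
  intro n
  rw [map_neg, norm_neg]
  exact h n

theorem Bd.sub (h : Bd ρ c F) (h' : Bd ρ c G) : Bd ρ c (F - G) := by
  rw [sub_eq_add_neg]
  exact h.add h'.neg

theorem Ev_zero (hc : 0 ≤ c) (hρ : 0 ≤ ρ) : Bd ρ c (0 : PowerSeries K) := by
  intro n
  rw [map_zero, norm_zero]
  positivity

theorem Ev_sum {ι : Type*} (s : Finset ι) {f : ι → K} {d : ℝ} (hd : 0 ≤ d)
    (h : ∀ i ∈ s, ‖f i‖ ≤ d) : ‖∑ i ∈ s, f i‖ ≤ d := by
  classical
  induction s using Finset.induction_on with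
  | empty => simpa using hd
  | insert a s ha ih =>
    rw [Finset.sum_insert ha]
    exact (IsUltrametricDist.norm_add_le_max _ _).trans
      (max_le (h a (Finset.mem_insert_self _ _))
        (ih fun i hi => h i (Finset.mem_insert_of_mem hi)))

theorem Bd.mul (hρ : 0 ≤ ρ) (h : Bd ρ c F) (h' : Bd ρ c' G) : Bd ρ (c * c') (F * G) := by
  intro n
  have hc := h.nonneg
  have hc' := h'.nonneg
  rw [coeff_mul]
  refine Ev_sum _ (by positivity) ?_
  rintro ⟨i, j⟩ hij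
  rw [Finset.HasAntidiagonal.mem_antidiagonal] at hij
  simp only at hij ⊢
  rw [norm_mul, ← hij, pow_add]
  calc ‖coeff i F‖ * ‖coeff j G‖ ≤ (c * ρ ^ i) * (c' * ρ ^ j) :=
        mul_le_mul (h i) (h' j) (norm_nonneg _) (by positivity)
    _ = c * c' * (ρ ^ i * ρ ^ j) := by ring

theorem Ev_const (hρ : 0 ≤ ρ) {a : K} (ha : ‖a‖ ≤ c) : Bd ρ c (PowerSeries.C a) := by
  intro n
  have hc : 0 ≤ c := (norm_nonneg _).trans ha
  rw [coeff_C]
  split_ifs with h
  · subst h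
    simpa using ha
  · rw [norm_zero]
    positivity

theorem Bd.pow (hρ : 0 ≤ ρ) (h : Bd ρ c F) (n : ℕ) : Bd ρ (c ^ n) (F ^ n) := by
  induction n with
  | zero =>
    have := Ev_const (K := K) (c := 1) hρ (a := 1) (by rw [norm_one])
    rwa [map_one] at this
  | succ n ih =>
    rw [pow_succ, pow_succ]
    exact ih.mul hρ h

theorem Bd.const (hρ : 0 ≤ ρ) {a : K} (ha : ‖a‖ ≤ c) : Bd ρ c (PowerSeries.C a) :=
  Ev_const hρ ha

theorem Bd.rescale {a : K} (ha : ‖a‖ ≤ 1) (h : Bd ρ c F) : Bd ρ c (PowerSeries.rescale a F) := by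
  intro n
  rw [coeff_rescale, norm_mul, norm_pow]
  calc ‖a‖ ^ n * ‖coeff n F‖ ≤ 1 * ‖coeff n F‖ :=
        mul_le_mul_of_nonneg_right (pow_le_one₀ (norm_nonneg _) ha) (norm_nonneg _)
    _ = ‖coeff n F‖ := one_mul _
    _ ≤ _ := h n

theorem Bd.deriv (hρ : 0 ≤ ρ) (h : Bd ρ c F) : Bd ρ (c * ρ) (derivative K F) := by
  intro n
  rw [coeff_derivative, norm_mul]
  have h1 : ‖((n : K) + 1)‖ ≤ 1 := by
    have := IsUltrametricDist.norm_natCast_le_one K (n + 1)
    push_cast at this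
    exact this
  calc ‖coeff (n + 1) F‖ * ‖((n : K) + 1)‖ ≤ ‖coeff (n + 1) F‖ * 1 :=
        mul_le_mul_of_nonneg_left h1 (norm_nonneg _)
    _ = ‖coeff (n + 1) F‖ := mul_one _
    _ ≤ c * ρ ^ (n + 1) := h (n + 1)
    _ = c * ρ * ρ ^ n := by ring

theorem Bd.sum {ι : Type*} (s : Finset ι) {f : ι → PowerSeries K} (hc : 0 ≤ c) (hρ : 0 ≤ ρ)
    (h : ∀ i ∈ s, Bd ρ c (f i)) : Bd ρ c (∑ i ∈ s, f i) := by
  intro n
  rw [map_sum]
  exact Ev_sum s (by positivity) fun i hi => h i hi n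

end Bounds

end Pool.Agent.PTwist
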