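import Pool.Agent.W_52423f_h30.Ser

/-!
# The norms of the coefficients of `fe`
-/

namespace Pool.Agent.PTwist

open PowerSeries

section Norm

variable {K : Type*} [NormedField K] [IsUltrametricDist K] {p : ℕ} [Fact p.Prime]
  [NormedAlgebra ℚ_[p] K]

/-- `‖n!‖ ≥ p ^ (-n)` in `K` (the norm of `K` extends that of `ℚ_[p]`; Legendre's formula gives
`v_p (n!) ≤ n`) -/
theorem Ser_factorial (n : ℕ) : 1 ≤ ‖((n.factorial : ℕ) : K)‖ * (p : ℝ) ^ n := by
  have hp : p.Prime := Fact.out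
  have h1 : ‖((n.factorial : ℕ) : K)‖ = ‖((n.factorial : ℕ) : ℚ_[p])‖ := by
    rw [← norm_algebraMap' K ((n.factorial : ℕ) : ℚ_[p]), map_natCast]
  have h2 : ((n.factorial : ℕ) : ℚ_[p]) ≠ 0 := Nat.cast_ne_zero.2 (Nat.factorial_ne_zero n)
  rw [h1, Padic.norm_eq_zpow_neg_valuation h2, Padic.valuation_natCast]
  have h3 : padicValNat p n.factorial ≤ n := by
    have h4 := sub_one_mul_padicValNat_factorial (p := p) n
    have h5 : 1 ≤ p - 1 := by
      have := hp.two_le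
      omega
    calc padicValNat p n.factorial = 1 * padicValNat p n.factorial := (one_mul _).symm
      _ ≤ (p - 1) * padicValNat p n.factorial := Nat.mul_le_mul_right _ h5
      _ ≤ n := by rw [h4]; exact Nat.sub_le _ _
  have hp1 : (1 : ℝ) ≤ p := by exact_mod_cast hp.one_le
  have hp0 : (0 : ℝ) < p := by linarith
  rw [← zpow_natCast (p : ℝ) n, ← zpow_add₀ hp0.ne']
  apply one_le_zpow₀ hp1
  have : (padicValNat p n.factorial : ℤ) ≤ n := by exact_mod_cast h3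
  linarith

theorem SerN_mul {F G : PowerSeries K} {R : ℝ} (hR : 0 ≤ R) {n : ℕ}
    (hF : ∀ i ≤ n, ‖((i.factorial : ℕ) : K) * coeff i F‖ ≤ R ^ i)
    (hG : ∀ i ≤ n, ‖((i.factorial : ℕ) : K) * coeff i G‖ ≤ R ^ i) :
    ∀ i ≤ n, ‖((i.factorial : ℕ) : K) * coeff i (F * G)‖ ≤ R ^ i := by
  intro i hi
  rw [coeff_mul, Finset.mul_sum]
  refine IsUltrametricDist.norm_sum_le_of_forall_le_of_nonneg (pow_nonneg hR i) ?_
  rintro ⟨a, b⟩ hab
  have hab' : a + b = i := Finset.HasAntidiagonal.mem_antidiagonal.1 hab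
  subst hab'
  have h1 : (((a + b).factorial : ℕ) : K) * (coeff a F * coeff b G) =
      ((Nat.choose (a + b) b : ℕ) : K) *
        ((((a.factorial : ℕ) : K) * coeff a F) * (((b.factorial : ℕ) : K) * coeff b G)) := by
    have h2 := Nat.add_choose_mul_factorial_mul_factorial a b
    rw [← h2]
    push_cast
    ring
  rw [h1, norm_mul, norm_mul, pow_add]
  calc ‖((Nat.choose (a + b) b : ℕ) : K)‖ *
        (‖((a.factorial : ℕ) : K) * coeff a F‖ * ‖((b.factorial : ℕ) : K) * coeff b G‖)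
      ≤ 1 * (R ^ a * R ^ b) := by
        refine mul_le_mul (IsUltrametricDist.norm_natCast_le_one K _) ?_ (by positivity) zero_le_one
        exact mul_le_mul (hF a (by omega)) (hG b (by omega)) (norm_nonneg _) (pow_nonneg hR a)
    _ = R ^ a * R ^ b := one_mul _

theorem SerN_C {F : PowerSeries K} {R : ℝ} (hR : 1 ≤ R) {n : ℕ} {b : K} (hb : ‖b‖ ≤ R)
    (hF : ‖((n.factorial : ℕ) : K) * coeff n F‖ ≤ R ^ n) :
    ‖((n.factorial : ℕ) : K) * coeff n (C b * F)‖ ≤ R ^ (n + 2) := by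
  rw [coeff_C_mul, mul_left_comm, norm_mul]
  have h0 : 0 ≤ R := by linarith
  calc ‖b‖ * ‖((n.factorial : ℕ) : K) * coeff n F‖ ≤ R * R ^ n :=
        mul_le_mul hb hF (norm_nonneg _) h0
    _ = R ^ (n + 1) := by rw [pow_succ]; ring
    _ ≤ R ^ (n + 2) := pow_le_pow_right₀ hR (by omega)

theorem SerN_rhs (b₂ b₄ b₆ : K) {F : PowerSeries K} {R : ℝ} (hR : 1 ≤ R) (h2 : ‖b₂‖ ≤ R)
    (h4 : ‖b₄‖ ≤ R) (h6 : ‖b₆‖ ≤ R) {n : ℕ}
    (hF : ∀ i ≤ n, ‖((i.factorial : ℕ) : K) * coeff i F‖ ≤ R ^ i) :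
    ‖((n.factorial : ℕ) : K) * coeff n (rhs b₂ b₄ b₆ F)‖ ≤ R ^ (n + 2) := by
  have h0 : 0 ≤ R := by linarith
  have hF2 := SerN_mul h0 hF hF
  have hF3 := SerN_mul h0 hF2 hF
  have e2 : F ^ 2 = F * F := sq F
  have e3 : F ^ 3 = F * F * F := by ring
  have hnat : ∀ (m : ℕ) (b : K), ‖b‖ ≤ R → ‖(m : K) * b‖ ≤ R := by
    intro m b hb
    rw [norm_mul]
    calc ‖(m : K)‖ * ‖b‖ ≤ 1 * ‖b‖ :=
          mul_le_mul_of_nonneg_right (IsUltrametricDist.norm_natCast_le_one K m) (norm_nonneg _)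
      _ ≤ R := by rw [one_mul]; exact hb
  have t1 : ‖((n.factorial : ℕ) : K) * coeff n (2 : PowerSeries K)‖ ≤ R ^ (n + 2) := by
    have e : (2 : PowerSeries K) = C (2 : K) := by
      rw [map_ofNat]
    rw [e, coeff_C]
    by_cases hn : n = 0
    · subst hn
      rw [if_pos rfl, Nat.factorial_zero, Nat.cast_one, one_mul]
      have h7 := IsUltrametricDist.norm_natCast_le_one K 2
      rw [Nat.cast_ofNat] at h7
      exact h7.trans (one_le_pow₀ hR)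
    · rw [if_neg hn, mul_zero, norm_zero]
      exact pow_nonneg h0 _
  have t2 := SerN_C hR h2 (hF n le_rfl)
  have t3 := SerN_C (b := 3 * b₄) hR (by simpa using hnat 3 b₄ h4) (hF2 n le_rfl)
  have t4 := SerN_C (b := 2 * b₆) hR (by simpa using hnat 2 b₆ h6) (hF3 n le_rfl)
  unfold rhs
  rw [e2, e3, map_add, map_add, map_add, mul_add, mul_add, mul_add]
  refine (IsUltrametricDist.norm_add_le_max _ _).trans (max_le ?_ t4)
  refine (IsUltrametricDist.norm_add_le_max _ _).trans (max_le ?_ t3)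
  exact (IsUltrametricDist.norm_add_le_max _ _).trans (max_le t1 t2)

theorem SerN_rec [CharZero K] (b₂ b₄ b₆ : K) (n : ℕ) :
    (((n + 2).factorial : ℕ) : K) * coeff (n + 2) (fe b₂ b₄ b₆) =
      ((n.factorial : ℕ) : K) * coeff n (rhs b₂ b₄ b₆ (fe b₂ b₄ b₆)) := by
  conv_lhs => rw [fe_fix]
  unfold int2
  rw [coeff_mk, if_neg (by omega), Nat.add_sub_cancel]
  have e1 : (((n + 2 : ℕ) : K)) ≠ 0 := Nat.cast_ne_zero.2 (by omega)
  have e2 : (((n + 2 : ℕ) : K)) - 1 = ((n + 1 : ℕ) : K) := by push_cast; ring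
  have e3 : (((n + 1 : ℕ) : K)) ≠ 0 := Nat.cast_ne_zero.2 (by omega)
  rw [e2, show (n + 2).factorial = (n + 2) * ((n + 1) * n.factorial) by
    rw [Nat.factorial_succ, Nat.factorial_succ], Nat.cast_mul, Nat.cast_mul]
  field_simp

theorem SerN_bound [CharZero K] (b₂ b₄ b₆ : K) (R : ℝ) (hR : 1 ≤ R) (h2 : ‖b₂‖ ≤ R)
    (h4 : ‖b₄‖ ≤ R) (h6 : ‖b₆‖ ≤ R) (n : ℕ) :
    ‖((n.factorial : ℕ) : K) * coeff n (fe b₂ b₄ b₆)‖ ≤ R ^ n := by
  have h0 : 0 ≤ R := by linarith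
  induction n using Nat.strong_induction_on with
  | _ n ih =>
    rcases n with _ | _ | n
    · rw [fe_coeff_zero, mul_zero, norm_zero]
      exact pow_nonneg h0 _
    · rw [zero_add, fe_coeff_one, mul_zero, norm_zero]
      exact pow_nonneg h0 _
    · rw [show n + 1 + 1 = n + 2 from rfl, SerN_rec]
      exact SerN_rhs b₂ b₄ b₆ hR h2 h4 h6 (fun i hi => ih i (by omega))

/-- Bound for the coefficients.  Let `A n = n! * coeff n f`.  By strong induction `‖A n‖ ≤ R ^ n`: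
from the differential equation `A (n+2) = n! * coeff n (rhs f)`, and for products
`n! coeff n (F G) = ∑ (n choose i) (i! coeff i F) ((n-i)! coeff (n-i) G)`, where binomial
coefficients have norm `≤ 1`.  Then divide by `n!`, `Ser_factorial`. -/
theorem fe_norm_coeff (b₂ b₄ b₆ : K) (R : ℝ) (hR : 1 ≤ R) (h2 : ‖b₂‖ ≤ R) (h4 : ‖b₄‖ ≤ R)
    (h6 : ‖b₆‖ ≤ R) (n : ℕ) : ‖coeff n (fe b₂ b₄ b₆)‖ ≤ ((p : ℝ) * R) ^ n := by
  have : CharZero K := charZero_of_injective_algebraMap (algebraMap ℚ_[p] K).injective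
  have h1 := SerN_bound b₂ b₄ b₆ R hR h2 h4 h6 n
  have h3 := Ser_factorial (K := K) (p := p) n
  rw [norm_mul] at h1
  have hp0 : (0 : ℝ) ≤ (p : ℝ) ^ n := by positivity
  calc ‖coeff n (fe b₂ b₄ b₆)‖ = 1 * ‖coeff n (fe b₂ b₄ b₆)‖ := (one_mul _).symm
    _ ≤ (‖((n.factorial : ℕ) : K)‖ * (p : ℝ) ^ n) * ‖coeff n (fe b₂ b₄ b₆)‖ :=
        mul_le_mul_of_nonneg_right h3 (norm_nonneg _)
    _ = (p : ℝ) ^ n * (‖((n.factorial : ℕ) : K)‖ * ‖coeff n (fe b₂ b₄ b₆)‖) := by ring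
    _ ≤ (p : ℝ) ^ n * R ^ n := mul_le_mul_of_nonneg_left h1 hp0
    _ = ((p : ℝ) * R) ^ n := (mul_pow _ _ _).symm

end Norm

end Pool.Agent.PTwist
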