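import Pool.Agent.W_52423f_h30.AddB
import Pool.Agent.W_52423f_h30.EvB
import Pool.Agent.W_52423f_h30.SerN

/-!
# The function `f` on a small ball

`f = fe b₂ b₄ b₆`, `f' = derivative K f`, evaluated on the ball of radius `rad ρ = ρ ^ (-6)`.
-/

namespace Pool.Agent.PTwist

open PowerSeries

/-- the constant `ρ` dominates `p` and the coefficients -/
structure LC {K : Type*} [NormedField K] (p : ℕ) (b₂ b₄ b₆ : K) (ρ : ℝ) : Prop where
  hp : (p : ℝ) ≤ ρ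
  h2 : p * ‖b₂‖ ≤ ρ
  h4 : p * ‖b₄‖ ≤ ρ
  h6 : p * ‖b₆‖ ≤ ρ

/-- the radius -/
noncomputable def rad (ρ : ℝ) : ℝ := (ρ ^ 6)⁻¹

section

variable {K : Type*} [NormedField K] {p : ℕ} [Fact p.Prime] {b₂ b₄ b₆ : K} {ρ : ℝ}

theorem LC.two_le (h : LC p b₂ b₄ b₆ ρ) : 2 ≤ ρ := by
  have h1 : 2 ≤ p := (Fact.out : p.Prime).two_le
  have h2 : (2 : ℝ) ≤ p := by exact_mod_cast h1
  exact h2.trans h.hp

theorem LC.rad_pos (h : LC p b₂ b₄ b₆ ρ) : 0 < rad ρ := by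
  have := h.two_le
  unfold rad
  positivity

theorem LC.mul_rad_lt (h : LC p b₂ b₄ b₆ ρ) : ρ * rad ρ < 1 := by
  have h2 := h.two_le
  unfold rad
  rw [← div_eq_mul_inv, div_lt_one (by positivity)]
  calc ρ = ρ ^ 1 := (pow_one ρ).symm
    _ < ρ ^ 6 := pow_lt_pow_right₀ (by linarith) (by norm_num)

end

variable {K : Type*} [NontriviallyNormedField K] [CompleteSpace K] [IsUltrametricDist K] {p : ℕ}
  [Fact p.Prime] [NormedAlgebra ℚ_[p] K] {b₂ b₄ b₆ : K} {ρ : ℝ}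

/-- from `fe_norm_coeff` with `R = ρ / p` -/
theorem LC.bd (h : LC p b₂ b₄ b₆ ρ) : Bd ρ 1 (fe b₂ b₄ b₆) := by
  intro n
  have hp : (0 : ℝ) < p := by exact_mod_cast (Fact.out : p.Prime).pos
  have h1 := fe_norm_coeff (p := p) b₂ b₄ b₆ (ρ / p) ((one_le_div hp).2 h.hp)
    ((le_div_iff₀ hp).2 (by rw [mul_comm]; exact h.h2))
    ((le_div_iff₀ hp).2 (by rw [mul_comm]; exact h.h4))
    ((le_div_iff₀ hp).2 (by rw [mul_comm]; exact h.h6)) n
  rw [mul_div_cancel₀ _ hp.ne'] at h1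
  rwa [one_mul]

/-- the part of degree at least 3 -/
theorem Loc_coeff (b₂ b₄ b₆ : K) [CharZero K] (n : ℕ) (hn : n < 3) :
    coeff n (fe b₂ b₄ b₆ - X ^ 2) = 0 := by
  rw [map_sub, coeff_X_pow]
  interval_cases n
  · rw [fe_coeff_zero, if_neg (by norm_num), sub_zero]
  · rw [fe_coeff_one, if_neg (by norm_num), sub_zero]
  · rw [fe_coeff_two, if_pos rfl, sub_self]

theorem Loc_X (hρ : 1 ≤ ρ) : Bd ρ 1 (X ^ 2 : PowerSeries K) := by
  intro n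
  rw [coeff_X_pow, one_mul]
  split_ifs with hn
  · rw [norm_one]
    exact one_le_pow₀ hρ
  · rw [norm_zero]
    positivity

theorem Loc_charZero (p : ℕ) [Fact p.Prime] (K : Type*) [NontriviallyNormedField K]
    [NormedAlgebra ℚ_[p] K] : CharZero K :=
  charZero_of_injective_algebraMap (algebraMap ℚ_[p] K).injective

theorem Loc_evX (z : K) : ev (X ^ 2 : PowerSeries K) z = z ^ 2 := by
  unfold ev
  rw [tsum_eq_single 2]
  · rw [coeff_X_pow, if_pos rfl, one_mul]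
  · intro n hn
    rw [coeff_X_pow, if_neg hn, zero_mul]

theorem Loc_small (hρ : 2 ≤ ρ) {z : K} (hz : ‖z‖ ≤ rad ρ) : ρ ^ 3 * ‖z‖ ≤ (ρ ^ 3)⁻¹ := by
  have h0 : 0 < ρ := by linarith
  calc ρ ^ 3 * ‖z‖ ≤ ρ ^ 3 * (ρ ^ 6)⁻¹ := mul_le_mul_of_nonneg_left hz (by positivity)
    _ = (ρ ^ 3)⁻¹ := by field_simp

theorem Loc_inv (hρ : 2 ≤ ρ) : (ρ ^ 3)⁻¹ < 1 := by
  apply inv_lt_one_of_one_lt₀
  exact one_lt_pow₀ (by linarith) (by norm_num)

theorem LC.lt_one (h : LC p b₂ b₄ b₆ ρ) {z : K} (hz : ‖z‖ ≤ rad ρ) : ρ * ‖z‖ < 1 := by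
  have h2 := h.two_le
  exact (mul_le_mul_of_nonneg_left hz (by linarith)).trans_lt h.mul_rad_lt

/-- the terms of degree `n ≥ 3` have norm `≤ ρ ^ n ‖z‖ ^ (n-2) ‖z‖² < ‖z‖²` -/
theorem LC.norm_ev (h : LC p b₂ b₄ b₆ ρ) {z : K} (hz : ‖z‖ ≤ rad ρ) :
    ‖ev (fe b₂ b₄ b₆) z‖ = ‖z‖ ^ 2 := by
  have hc := Loc_charZero p K
  have h2 := h.two_le
  have h0 : 0 ≤ ρ := by linarith
  have hX := Loc_X (K := K) (show 1 ≤ ρ by linarith)
  have hG : Bd ρ 1 (fe b₂ b₄ b₆ - X ^ 2) := h.bd.sub hX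
  have hlt := h.lt_one hz
  have e1 : ev (fe b₂ b₄ b₆) z = z ^ 2 + ev (fe b₂ b₄ b₆ - X ^ 2) z := by
    rw [ev_sub h0 h.bd hX hlt, Loc_evX]
    ring
  have h3 := norm_ev_le_of_coeff_eq_zero h0 hG hlt (m := 3) (Loc_coeff b₂ b₄ b₆)
  rcases eq_or_ne z 0 with rfl | hz0
  · rw [ev_at_zero, fe_coeff_zero, norm_zero]
    norm_num
  · have hz1 : 0 < ‖z‖ := norm_pos_iff.2 hz0
    have h4 : ‖ev (fe b₂ b₄ b₆ - X ^ 2) z‖ < ‖z ^ 2‖ := by
      rw [norm_pow]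
      calc _ ≤ 1 * (ρ * ‖z‖) ^ 3 := h3
        _ = (ρ ^ 3 * ‖z‖) * ‖z‖ ^ 2 := by ring
        _ ≤ (ρ ^ 3)⁻¹ * ‖z‖ ^ 2 := mul_le_mul_of_nonneg_right (Loc_small h2 hz) (by positivity)
        _ < 1 * ‖z‖ ^ 2 := mul_lt_mul_of_pos_right (Loc_inv h2) (by positivity)
        _ = ‖z‖ ^ 2 := one_mul _
    rw [e1, IsUltrametricDist.norm_add_eq_max_of_norm_ne_norm h4.ne', max_eq_left h4.le, norm_pow]

theorem Loc_two (p : ℕ) [Fact p.Prime] (K : Type*) [NontriviallyNormedField K]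
    [NormedAlgebra ℚ_[p] K] [IsUltrametricDist K] : 1 ≤ ‖(2 : K)‖ * (p : ℝ) ^ 2 := by
  have := Ser_factorial (K := K) (p := p) 2
  simpa using this

/-- same, note `‖2‖ ≥ 1 / 2 > ρ ^ (-3)` -/
theorem LC.norm_ev' (h : LC p b₂ b₄ b₆ ρ) {z : K} (hz : ‖z‖ ≤ rad ρ) :
    ‖ev (derivative K (fe b₂ b₄ b₆)) z‖ = ‖(2 : K)‖ * ‖z‖ := by
  have hc := Loc_charZero p K
  have h2 := h.two_le
  have h0 : 0 ≤ ρ := by linarith
  have h0' : 0 < ρ := by linarith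
  have hX := Loc_X (K := K) (show 1 ≤ ρ by linarith)
  have hG : Bd ρ (1 * ρ) (derivative K (fe b₂ b₄ b₆ - X ^ 2)) := (h.bd.sub hX).deriv h0
  have hlt := h.lt_one hz
  have e0 : ev (derivative K (X ^ 2 : PowerSeries K)) z = 2 * z := by
    unfold ev
    rw [tsum_eq_single 1]
    · rw [coeff_derivative, coeff_X_pow, if_pos rfl]
      push_cast
      ring
    · intro n hn
      rw [coeff_derivative, coeff_X_pow, if_neg (by omega), zero_mul, zero_mul]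
  have e1 : ev (derivative K (fe b₂ b₄ b₆)) z = 2 * z +
      ev (derivative K (fe b₂ b₄ b₆ - X ^ 2)) z := by
    rw [map_sub, ev_sub h0 (h.bd.deriv h0) (hX.deriv h0) hlt, e0]
    ring
  have h3 := norm_ev_le_of_coeff_eq_zero h0 hG hlt (m := 2) (fun i hi => by
    rw [coeff_derivative, Loc_coeff b₂ b₄ b₆ (i + 1) (by omega), zero_mul])
  rcases eq_or_ne z 0 with rfl | hz0
  · rw [ev_at_zero, coeff_derivative, zero_add, fe_coeff_one, zero_mul, norm_zero, mul_zero]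
  · have hz1 : 0 < ‖z‖ := norm_pos_iff.2 hz0
    have hpp : (0 : ℝ) < p := by exact_mod_cast (Fact.out : p.Prime).pos
    have h5 : (ρ ^ 3)⁻¹ < ‖(2 : K)‖ := by
      have h6 := Loc_two p K
      have h7 : 1 ≤ ‖(2 : K)‖ * ρ ^ 2 := h6.trans
        (mul_le_mul_of_nonneg_left (pow_le_pow_left₀ hpp.le h.hp 2) (norm_nonneg _))
      have h8 : (ρ ^ 2)⁻¹ ≤ ‖(2 : K)‖ := by
        rw [inv_le_iff_one_le_mul₀ (by positivity)]
        exact h7
      refine lt_of_lt_of_le ?_ h8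
      apply inv_strictAnti₀ (by positivity)
      exact pow_lt_pow_right₀ (by linarith) (by norm_num)
    have h4 : ‖ev (derivative K (fe b₂ b₄ b₆ - X ^ 2)) z‖ < ‖2 * z‖ := by
      rw [norm_mul]
      calc _ ≤ 1 * ρ * (ρ * ‖z‖) ^ 2 := h3
        _ = (ρ ^ 3 * ‖z‖) * ‖z‖ := by ring
        _ ≤ (ρ ^ 3)⁻¹ * ‖z‖ := mul_le_mul_of_nonneg_right (Loc_small h2 hz) (by positivity)
        _ < ‖(2 : K)‖ * ‖z‖ := mul_lt_mul_of_pos_right h5 (by positivity)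
    rw [e1, IsUltrametricDist.norm_add_eq_max_of_norm_ne_norm h4.ne', max_eq_left h4.le, norm_mul]

/-- from `fe_even` -/
theorem LC.even (b₂ b₄ b₆ : K) (z : K) : ev (fe b₂ b₄ b₆) (-z) = ev (fe b₂ b₄ b₆) z := by
  have h := ev_rescale (-1) (fe b₂ b₄ b₆) z
  rw [fe_even, neg_one_mul] at h
  exact h.symm

/-- the derivative is odd -/
theorem LC.odd (b₂ b₄ b₆ : K) (z : K) :
    ev (derivative K (fe b₂ b₄ b₆)) (-z) = -ev (derivative K (fe b₂ b₄ b₆)) z := by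
  have h := ev_rescale (-1) (derivative K (fe b₂ b₄ b₆)) z
  have h1 : rescale (-1 : K) (derivative K (fe b₂ b₄ b₆)) = -derivative K (fe b₂ b₄ b₆) := by
    ext n
    rw [coeff_rescale, map_neg, coeff_derivative]
    have h2 := congrArg (coeff (n + 1)) (fe_even b₂ b₄ b₆)
    rw [coeff_rescale, pow_succ] at h2
    linear_combination (-((n : K) + 1)) * h2
  rw [h1, ev_neg, neg_one_mul] at h
  exact h.symm

/-- from `fe_sq` -/
theorem LC.sq (h : LC p b₂ b₄ b₆ ρ) {z : K} (hz : ‖z‖ ≤ rad ρ) :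
    ev (derivative K (fe b₂ b₄ b₆)) z ^ 2 =
      4 * ev (fe b₂ b₄ b₆) z + b₂ * ev (fe b₂ b₄ b₆) z ^ 2 + 2 * b₄ * ev (fe b₂ b₄ b₆) z ^ 3 +
        b₆ * ev (fe b₂ b₄ b₆) z ^ 4 := by
  have hc := Loc_charZero p K
  have h2 := h.two_le
  have h0 : 0 ≤ ρ := by linarith
  have hlt := h.lt_one hz
  have e : ev (derivative K (fe b₂ b₄ b₆) ^ 2) z = ev (qq b₂ b₄ b₆ (fe b₂ b₄ b₆)) z :=
    congrArg (fun F => ev F z) (fe_sq b₂ b₄ b₆)
  have k2 := h.bd.pow h0 2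
  have k3 := h.bd.pow h0 3
  have k4 := h.bd.pow h0 4
  have c4 := Bd.const (K := K) (c := ‖(4 : K)‖) h0 (a := 4) le_rfl
  have c2 := Bd.const (K := K) (c := ‖b₂‖) h0 (a := b₂) le_rfl
  have cb4 := Bd.const (K := K) (c := ‖2 * b₄‖) h0 (a := 2 * b₄) le_rfl
  have cb6 := Bd.const (K := K) (c := ‖b₆‖) h0 (a := b₆) le_rfl
  have t1 := c4.mul h0 h.bd
  have t2 := c2.mul h0 k2
  have t3 := cb4.mul h0 k3
  have t4 := cb6.mul h0 k4
  have e4 : (4 : PowerSeries K) = C (4 : K) := by rw [map_ofNat]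
  rw [ev_pow h0 (h.bd.deriv h0) hlt] at e
  unfold qq at e
  have u1 := (t1.mono h0 (le_max_left _ (‖b₂‖ * 1 ^ 2))).add
    (t2.mono h0 (le_max_right (‖(4 : K)‖ * 1) _))
  have u2 := (u1.mono h0 (le_max_left _ (‖2 * b₄‖ * 1 ^ 3))).add
    (t3.mono h0 (le_max_right (max (‖(4 : K)‖ * 1) (‖b₂‖ * 1 ^ 2)) _))
  rw [e4, ev_add h0 u2 t4 hlt, ev_add h0 u1 t3 hlt, ev_add h0 t1 t2 hlt,
    ev_mul h0 c4 h.bd hlt, ev_mul h0 c2 k2 hlt, ev_mul h0 cb4 k3 hlt, ev_mul h0 cb6 k4 hlt,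
    ev_pow h0 h.bd hlt, ev_pow h0 h.bd hlt, ev_pow h0 h.bd hlt, ev_C, ev_C, ev_C, ev_C] at e
  exact e

theorem Loc_odd_coeff (b₂ b₄ b₆ : K) [CharZero K] (m : ℕ) :
    coeff (2 * m + 1) (fe b₂ b₄ b₆) = 0 := by
  have h2 := congrArg (coeff (2 * m + 1)) (fe_even b₂ b₄ b₆)
  rw [coeff_rescale, pow_succ, pow_mul, neg_one_sq, one_pow, one_mul, neg_one_mul] at h2
  have h3 : (2 : K) * coeff (2 * m + 1) (fe b₂ b₄ b₆) = 0 := by linear_combination -h2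
  exact (mul_eq_zero.1 h3).resolve_left two_ne_zero

/-- `f z - f w = (z² - w²) (1 + small)`: only even coefficients occur and
`z ^ (2m) - w ^ (2m) = (z² - w²) (sum of m monomials of norm ≤ rad ^ (2m-2))`. -/
theorem LC.ev_eq (h : LC p b₂ b₄ b₆ ρ) {z w : K} (hz : ‖z‖ ≤ rad ρ) (hw : ‖w‖ ≤ rad ρ)
    (he : ev (fe b₂ b₄ b₆) z = ev (fe b₂ b₄ b₆) w) : z = w ∨ z = -w := by
  have hc := Loc_charZero p K
  have h2 := h.two_le
  have h0 : 0 ≤ ρ := by linarith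
  have h0' : 0 < ρ := by linarith
  have hX := Loc_X (K := K) (show 1 ≤ ρ by linarith)
  have hG : Bd ρ 1 (fe b₂ b₄ b₆ - X ^ 2) := h.bd.sub hX
  have hltz := h.lt_one hz
  have hltw := h.lt_one hw
  have ez : ev (fe b₂ b₄ b₆) z = z ^ 2 + ev (fe b₂ b₄ b₆ - X ^ 2) z := by
    rw [ev_sub h0 h.bd hX hltz, Loc_evX]
    ring
  have ew : ev (fe b₂ b₄ b₆) w = w ^ 2 + ev (fe b₂ b₄ b₆ - X ^ 2) w := by
    rw [ev_sub h0 h.bd hX hltw, Loc_evX]
    ring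
  rw [ez, ew] at he
  have hr := h.rad_pos
  have hρr : ρ * rad ρ < 1 := h.mul_rad_lt
  have hsmall : ρ ^ 2 * (ρ * rad ρ) ^ 2 < 1 := by
    have e1 : ρ ^ 2 * (ρ * rad ρ) ^ 2 = (ρ ^ 8)⁻¹ := by
      unfold rad
      field_simp
    rw [e1]
    apply inv_lt_one_of_one_lt₀
    exact one_lt_pow₀ (by linarith) (by norm_num)
  have key : ∀ n, ‖coeff n (fe b₂ b₄ b₆ - X ^ 2) * z ^ n - coeff n (fe b₂ b₄ b₆ - X ^ 2) * w ^ n‖ ≤
      (ρ ^ 2 * (ρ * rad ρ) ^ 2) * ‖z ^ 2 - w ^ 2‖ := by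
    intro n
    by_cases hn : n < 3
    · rw [Loc_coeff b₂ b₄ b₆ n hn, zero_mul, zero_mul, sub_zero, norm_zero]
      positivity
    · rcases Nat.even_or_odd' n with ⟨m, rfl | rfl⟩
      · have hm : 2 ≤ m := by omega
        have e1 := geom_sum₂_mul (z ^ 2) (w ^ 2) m
        rw [← mul_sub, pow_mul, pow_mul, ← e1, norm_mul, norm_mul]
        have h3 : ‖∑ i ∈ Finset.range m, (z ^ 2) ^ i * (w ^ 2) ^ (m - 1 - i)‖ ≤
            rad ρ ^ (2 * (m - 1)) := by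
          refine IsUltrametricDist.norm_sum_le_of_forall_le_of_nonneg (by positivity) ?_
          intro i hi
          rw [Finset.mem_range] at hi
          rw [norm_mul, norm_pow, norm_pow, norm_pow, norm_pow, ← pow_mul, ← pow_mul]
          calc ‖z‖ ^ (2 * i) * ‖w‖ ^ (2 * (m - 1 - i)) ≤
              rad ρ ^ (2 * i) * rad ρ ^ (2 * (m - 1 - i)) :=
                mul_le_mul (pow_le_pow_left₀ (norm_nonneg _) hz _)
                  (pow_le_pow_left₀ (norm_nonneg _) hw _) (by positivity) (by positivity)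
            _ = rad ρ ^ (2 * (m - 1)) := by
                rw [← pow_add]
                congr 1
                omega
        calc ‖coeff (2 * m) (fe b₂ b₄ b₆ - X ^ 2)‖ *
            (‖∑ i ∈ Finset.range m, (z ^ 2) ^ i * (w ^ 2) ^ (m - 1 - i)‖ * ‖z ^ 2 - w ^ 2‖)
            ≤ (1 * ρ ^ (2 * m)) * (rad ρ ^ (2 * (m - 1)) * ‖z ^ 2 - w ^ 2‖) := by
              refine mul_le_mul (hG _) ?_ (by positivity) (by positivity)
              exact mul_le_mul_of_nonneg_right h3 (norm_nonneg _)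
          _ = (ρ ^ 2 * (ρ * rad ρ) ^ (2 * (m - 1))) * ‖z ^ 2 - w ^ 2‖ := by
              obtain ⟨k, rfl⟩ : ∃ k, m = k + 1 := ⟨m - 1, by omega⟩
              rw [Nat.add_sub_cancel, mul_pow, one_mul, show 2 * (k + 1) = 2 + 2 * k by ring,
                pow_add]
              ring
          _ ≤ (ρ ^ 2 * (ρ * rad ρ) ^ 2) * ‖z ^ 2 - w ^ 2‖ := by
              refine mul_le_mul_of_nonneg_right ?_ (norm_nonneg _)
              refine mul_le_mul_of_nonneg_left ?_ (by positivity)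
              exact pow_le_pow_of_le_one (by positivity) hρr.le (by omega)
      · have e1 : coeff (2 * m + 1) (fe b₂ b₄ b₆ - X ^ 2) = 0 := by
          rw [map_sub, Loc_odd_coeff, coeff_X_pow, if_neg (by omega), sub_zero]
        rw [e1, zero_mul, zero_mul, sub_zero, norm_zero]
        positivity
  have hsum : ‖ev (fe b₂ b₄ b₆ - X ^ 2) z - ev (fe b₂ b₄ b₆ - X ^ 2) w‖ ≤
      (ρ ^ 2 * (ρ * rad ρ) ^ 2) * ‖z ^ 2 - w ^ 2‖ := by
    unfold ev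
    rw [← (hG.summable h0 hltz).of_norm.tsum_sub (hG.summable h0 hltw).of_norm]
    exact IsUltrametricDist.norm_tsum_le_of_forall_le_of_nonneg (by positivity) key
  have h3 : z ^ 2 - w ^ 2 =
      -(ev (fe b₂ b₄ b₆ - X ^ 2) z - ev (fe b₂ b₄ b₆ - X ^ 2) w) := by
    linear_combination he
  have h4 : z ^ 2 - w ^ 2 = 0 := by
    by_contra hne
    have h5 : 0 < ‖z ^ 2 - w ^ 2‖ := norm_pos_iff.2 hne
    have h6 : ‖z ^ 2 - w ^ 2‖ = ‖ev (fe b₂ b₄ b₆ - X ^ 2) z - ev (fe b₂ b₄ b₆ - X ^ 2) w‖ := by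
      conv_lhs => rw [h3]
      exact norm_neg _
    have h7 := mul_lt_mul_of_pos_right hsmall h5
    linarith
  have h5 : (z - w) * (z + w) = 0 := by linear_combination h4
  rcases mul_eq_zero.1 h5 with h6 | h6
  · exact Or.inl (sub_eq_zero.1 h6)
  · exact Or.inr (eq_neg_of_add_eq_zero_left h6)

theorem Loc_add (h : LC p b₂ b₄ b₆ ρ) {z w : K} (hz : ‖z‖ ≤ rad ρ) (hwz : ‖w‖ ≤ ‖z‖) :
    ev (fe b₂ b₄ b₆) (z + w) *
      dd b₂ b₄ b₆ (ev (fe b₂ b₄ b₆) z) (ev (fe b₂ b₄ b₆) w)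
        (ev (derivative K (fe b₂ b₄ b₆)) z) (ev (derivative K (fe b₂ b₄ b₆)) w) =
    2 * (ev (fe b₂ b₄ b₆) z - ev (fe b₂ b₄ b₆) w) ^ 2 := by
  have hc := Loc_charZero p K
  have h2 := h.two_le
  have h0 : 0 ≤ ρ := by linarith
  rcases eq_or_ne z 0 with rfl | hz0
  · have hw0 : w = 0 := by
      rw [norm_zero] at hwz
      exact norm_le_zero_iff.1 hwz
    subst hw0
    rw [add_zero, ev_at_zero, fe_coeff_zero]
    ring
  · have hlt := h.lt_one hz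
    have hz1 : 0 < ‖z‖ := norm_pos_iff.2 hz0
    set β : K := w / z with hβ
    have hβz : β * z = w := div_mul_cancel₀ _ hz0
    have hβ1 : ‖β‖ ≤ 1 := by
      rw [hβ, norm_div]
      exact div_le_one_of_le₀ hwz (norm_nonneg _)
    have hβ2 : ‖1 + β‖ ≤ 1 :=
      (IsUltrametricDist.norm_add_le_max _ _).trans (max_le (by rw [norm_one]) hβ1)
    have e := congrArg (fun F => ev F z) (add_formal' b₂ b₄ b₆ β)
    set F := fe b₂ b₄ b₆ with hF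
    have bF : Bd ρ 1 F := h.bd
    have bF' : Bd ρ (1 * ρ) (derivative K F) := bF.deriv h0
    have bG : Bd ρ 1 (rescale β F) := bF.rescale hβ1
    have bG' : Bd ρ (1 * ρ) (rescale β (derivative K F)) := bF'.rescale hβ1
    have bH : Bd ρ 1 (rescale (1 + β) F) := bF.rescale hβ2
    have e2 : (2 : PowerSeries K) = C (2 : K) := by rw [map_ofNat]
    have c2 := Bd.const (K := K) (c := ‖(2 : K)‖) h0 (a := 2) le_rfl
    have k2 := Bd.const (K := K) (c := ‖b₂‖) h0 (a := b₂) le_rfl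
    have k4 := Bd.const (K := K) (c := ‖b₄‖) h0 (a := b₄) le_rfl
    have k6 := Bd.const (K := K) (c := ‖b₆‖) h0 (a := b₆) le_rfl
    have s1 : Bd ρ 1 (F + rescale β F) := bF.add bG
    have s2 := bF.sub bG
    have p1 := c2.mul h0 s1
    have p2 := (k2.mul h0 bF).mul h0 bG
    have p3 := ((k4.mul h0 bF).mul h0 bG).mul h0 s1
    have p4 := (k6.mul h0 (bF.pow h0 2)).mul h0 (bG.pow h0 2)
    have p5 := bF'.mul h0 bG'
    have evs : ∀ {c c' : ℝ} {A B : PowerSeries K}, Bd ρ c A → Bd ρ c' B →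
        Bd ρ (max c c') (A + B) := fun hA hB =>
      (hA.mono h0 (le_max_left _ _)).add (hB.mono h0 (le_max_right _ _))
    have q1 := evs p1 p2
    have q2 := evs q1 p3
    have q3 := evs q2 p4
    have q4 := evs q3 p5.neg
    rw [← sub_eq_add_neg] at q4
    unfold dd at e
    rw [e2] at e
    rw [ev_mul h0 bH q4 hlt, ev_sub h0 q3 p5 hlt, ev_add h0 q2 p4 hlt, ev_add h0 q1 p3 hlt,
      ev_add h0 p1 p2 hlt, ev_mul h0 c2 s1 hlt, ev_mul h0 (k2.mul h0 bF) bG hlt,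
      ev_mul h0 k2 bF hlt, ev_mul h0 ((k4.mul h0 bF).mul h0 bG) s1 hlt,
      ev_mul h0 (k4.mul h0 bF) bG hlt, ev_mul h0 k4 bF hlt,
      ev_mul h0 (k6.mul h0 (bF.pow h0 2)) (bG.pow h0 2) hlt, ev_mul h0 k6 (bF.pow h0 2) hlt,
      ev_mul h0 bF' bG' hlt, ev_add h0 bF bG hlt, ev_pow h0 bF hlt, ev_pow h0 bG hlt,
      ev_mul h0 c2 (s2.pow h0 2) hlt, ev_pow h0 s2 hlt, ev_sub h0 bF bG hlt, ev_C, ev_C, ev_C,
      ev_C, ev_rescale, ev_rescale, ev_rescale, hβz, add_mul, one_mul, hβz] at e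
    unfold dd
    exact e

/-- The addition theorem for the values.  By symmetry (`dd` and the right side are symmetric)
assume `‖w‖ ≤ ‖z‖`; `z = 0` is trivial; otherwise evaluate `add_formal'` with `β = w / z`,
`‖β‖ ≤ 1`, `‖1 + β‖ ≤ 1`, at `z` (`ev_rescale`). -/
theorem LC.add (h : LC p b₂ b₄ b₆ ρ) {z w : K} (hz : ‖z‖ ≤ rad ρ) (hw : ‖w‖ ≤ rad ρ) :
    ev (fe b₂ b₄ b₆) (z + w) *
      dd b₂ b₄ b₆ (ev (fe b₂ b₄ b₆) z) (ev (fe b₂ b₄ b₆) w)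
        (ev (derivative K (fe b₂ b₄ b₆)) z) (ev (derivative K (fe b₂ b₄ b₆)) w) =
    2 * (ev (fe b₂ b₄ b₆) z - ev (fe b₂ b₄ b₆) w) ^ 2 := by
  rcases le_total ‖w‖ ‖z‖ with hle | hle
  · exact Loc_add h hz hle
  · have e := Loc_add h hw hle
    rw [add_comm w z] at e
    unfold dd at e ⊢
    linear_combination e

end Pool.Agent.PTwist
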