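import Pool.Agent.W_52423f_h30.AddX
import Pool.Agent.W_52423f_h30.Loc

/-!
# The exponential map of an elliptic curve over an ultrametric field
-/

namespace Pool.Agent.PTwist

open WeierstrassCurve WeierstrassCurve.Affine PowerSeries

variable {K : Type*} [NontriviallyNormedField K] [CompleteSpace K] [IsUltrametricDist K] {p : ℕ}
  [Fact p.Prime] [NormedAlgebra ℚ_[p] K] (V : WeierstrassCurve K) [V.IsElliptic] {ρ : ℝ}

/-- the function `f` of the curve `V` -/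
noncomputable def fV : PowerSeries K := fe V.b₂ V.b₄ V.b₆

/-- the y-coordinate of `exp z` -/
noncomputable def yV (z : K) : K :=
  (-(ev (derivative K (fV V)) z) * (ev (fV V) z)⁻¹ ^ 2 - V.a₁ * (ev (fV V) z)⁻¹ - V.a₃) / 2

open Classical in
/-- the exponential map -/
noncomputable def expPt (z : K) : V.toAffine.Point :=
  if h : z ≠ 0 ∧ V.toAffine.Equation (ev (fV V) z)⁻¹ (yV V z) then Point.mk h.2 else 0

theorem expPt_zero : expPt V 0 = 0 := by
  unfold expPt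
  rw [dif_neg]
  simp

include p in
theorem Exp_two_ne (K : Type*) [NontriviallyNormedField K] [NormedAlgebra ℚ_[p] K] :
    (2 : K) ≠ 0 := by
  have : CharZero K := charZero_of_injective_algebraMap (algebraMap ℚ_[p] K).injective
  exact two_ne_zero

theorem Exp_ev_ne (h : LC p V.b₂ V.b₄ V.b₆ ρ) {z : K} (hz : ‖z‖ ≤ rad ρ) (h0 : z ≠ 0) :
    ev (fV V) z ≠ 0 := by
  intro h1
  have h2 := h.norm_ev hz
  rw [show fe V.b₂ V.b₄ V.b₆ = fV V from rfl, h1, norm_zero] at h2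
  have h3 : 0 < ‖z‖ := norm_pos_iff.2 h0
  have h4 : 0 < ‖z‖ ^ 2 := by positivity
  linarith

theorem Exp_ev_zero (h : LC p V.b₂ V.b₄ V.b₆ ρ) : ev (fV V) (0 : K) = 0 := by
  have h2 := h.norm_ev (z := 0) (by simpa using h.rad_pos.le)
  rw [show fe V.b₂ V.b₄ V.b₆ = fV V from rfl, norm_zero] at h2
  simpa using h2

theorem Exp_ev'_zero (h : LC p V.b₂ V.b₄ V.b₆ ρ) : ev (derivative K (fV V)) (0 : K) = 0 := by
  have h2 := h.norm_ev' (z := 0) (by simpa using h.rad_pos.le)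
  rw [show fe V.b₂ V.b₄ V.b₆ = fV V from rfl, norm_zero] at h2
  simpa using h2

/-- `LC.norm_ev` (so `f z ≠ 0`), `LC.sq`, `equation_of_sq` -/
theorem expPt_eq (h : LC p V.b₂ V.b₄ V.b₆ ρ) {z : K} (hz : ‖z‖ ≤ rad ρ) (h0 : z ≠ 0) :
    ∃ hn : V.toAffine.Nonsingular (ev (fV V) z)⁻¹ (yV V z),
      expPt V z = Point.some (ev (fV V) z)⁻¹ (yV V z) hn := by
  have hX := Exp_ev_ne V h hz h0
  have he : V.toAffine.Equation (ev (fV V) z)⁻¹ (yV V z) :=
    equation_of_sq V (Exp_two_ne (p := p) K) hX (h.sq hz)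
  refine ⟨equation_iff_nonsingular.1 he, ?_⟩
  unfold expPt
  rw [dif_pos ⟨h0, he⟩]
  rfl

theorem iX_expPt (h : LC p V.b₂ V.b₄ V.b₆ ρ) {z : K} (hz : ‖z‖ ≤ rad ρ) :
    iX V (expPt V z) = ev (fV V) z := by
  by_cases h0 : z = 0
  · subst h0
    rw [expPt_zero, iX_zero, Exp_ev_zero V h]
  · obtain ⟨hn, he⟩ := expPt_eq V h hz h0
    rw [he, iX_some, inv_inv]

theorem iV_expPt (h : LC p V.b₂ V.b₄ V.b₆ ρ) {z : K} (hz : ‖z‖ ≤ rad ρ) :
    iV V (expPt V z) = ev (derivative K (fV V)) z := by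
  by_cases h0 : z = 0
  · subst h0
    rw [expPt_zero, iV_zero, Exp_ev'_zero V h]
  · obtain ⟨hn, he⟩ := expPt_eq V h hz h0
    have hX := Exp_ev_ne V h hz h0
    have h2 := Exp_two_ne (p := p) K
    rw [he, iV_some, inv_inv, yV]
    field_simp
    ring

theorem expPt_eq_zero_iff (h : LC p V.b₂ V.b₄ V.b₆ ρ) {z : K} (hz : ‖z‖ ≤ rad ρ) :
    expPt V z = 0 ↔ z = 0 := by
  constructor
  · intro h1
    by_contra h0
    obtain ⟨hn, he⟩ := expPt_eq V h hz h0
    rw [h1] at he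
    exact Point.some_ne_zero hn he.symm
  · rintro rfl
    exact expPt_zero V

/-- `LC.even`, `LC.odd`, `eq_of_iX_iV`, `iX_neg`, `iV_neg` -/
theorem expPt_neg (h : LC p V.b₂ V.b₄ V.b₆ ρ) {z : K} (hz : ‖z‖ ≤ rad ρ) :
    expPt V (-z) = -expPt V z := by
  by_cases h0 : z = 0
  · subst h0
    rw [_root_.neg_zero, expPt_zero, Point.neg_zero]
  · have hz' : ‖-z‖ ≤ rad ρ := by rwa [norm_neg]
    have h2 := Exp_two_ne (p := p) K
    have hX := Exp_ev_ne V h hz h0
    have h3 : iX V (expPt V (-z)) = iX V (-expPt V z) := by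
      rw [iX_expPt V h hz', iX_neg, iX_expPt V h hz]
      exact LC.even V.b₂ V.b₄ V.b₆ z
    refine eq_of_iX_iV V h2 ?_ h3 ?_
    · rw [h3, iX_neg, iX_expPt V h hz]
      exact hX
    · rw [iV_expPt V h hz', iV_neg, iV_expPt V h hz]
      exact LC.odd V.b₂ V.b₄ V.b₆ z

/-- `LC.ev_eq` and `LC.norm_ev'` -/
theorem expPt_inj (h : LC p V.b₂ V.b₄ V.b₆ ρ) {z w : K} (hz : ‖z‖ ≤ rad ρ) (hw : ‖w‖ ≤ rad ρ)
    (he : expPt V z = expPt V w) : z = w := by
  have h1 : ev (fV V) z = ev (fV V) w := by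
    rw [← iX_expPt V h hz, ← iX_expPt V h hw, he]
  rcases h.ev_eq hz hw h1 with h2 | h2
  · exact h2
  · have h3 : ev (derivative K (fV V)) z = ev (derivative K (fV V)) w := by
      rw [← iV_expPt V h hz, ← iV_expPt V h hw, he]
    have h4 : ev (derivative K (fV V)) z = -ev (derivative K (fV V)) w := by
      rw [h2]
      exact LC.odd V.b₂ V.b₄ V.b₆ w
    have h5 : ev (derivative K (fV V)) w = 0 := by
      have h6 : (2 : K) * ev (derivative K (fV V)) w = 0 := by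
        linear_combination h4 - h3
      exact (mul_eq_zero.1 h6).resolve_left (Exp_two_ne (p := p) K)
    have h6 := h.norm_ev' hw
    rw [show fe V.b₂ V.b₄ V.b₆ = fV V from rfl, h5, norm_zero] at h6
    have h7 : w = 0 := by
      rcases mul_eq_zero.1 h6.symm with h8 | h8
      · exact absurd (norm_eq_zero.1 h8) (Exp_two_ne (p := p) K)
      · exact norm_eq_zero.1 h8
    rw [h2, h7, _root_.neg_zero]

/-- `‖x(exp z)‖ = ‖z‖ ^ (-2)` -/
theorem near_expPt (h : LC p V.b₂ V.b₄ V.b₆ ρ) {z : K} (hz : ‖z‖ ≤ rad ρ) (R : ℝ) :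
    Near V R (expPt V z) ↔ z = 0 ∨ R < (‖z‖ ^ 2)⁻¹ := by
  by_cases h0 : z = 0
  · subst h0
    simp [Near, expPt_zero]
  · obtain ⟨hn, he⟩ := expPt_eq V h hz h0
    have h1 : ‖(ev (fV V) z)⁻¹‖ = (‖z‖ ^ 2)⁻¹ := by
      rw [norm_inv]
      congr 1
      exact h.norm_ev hz
    rw [he]
    constructor
    · rintro (h2 | ⟨x, y, h3, h4, h5⟩)
      · exact absurd h2 (Point.some_ne_zero hn)
      · right
        have h6 : (ev (fV V) z)⁻¹ = x := by
          injection h4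
        rwa [← h1, h6]
    · rintro (h2 | h2)
      · exact absurd h2 h0
      · exact Or.inr ⟨_, _, hn, rfl, by rwa [h1]⟩

end Pool.Agent.PTwist
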