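import Pool.Agent.W_52423f_h30.Loc

/-!
# Local surjectivity of `z ↦ (f z, f' z)`
-/

namespace Pool.Agent.PTwist

open PowerSeries

variable {K : Type*} [NontriviallyNormedField K] [CompleteSpace K] [IsUltrametricDist K] {p : ℕ}
  [Fact p.Prime] [NormedAlgebra ℚ_[p] K] {b₂ b₄ b₆ : K} {ρ : ℝ}

omit [CompleteSpace K] [IsUltrametricDist K] in
/-- odd coefficients vanish -/
theorem LocSurj_odd [CharZero K] (b₂ b₄ b₆ : K) {n : ℕ} (hn : Odd n) :
    coeff n (fe b₂ b₄ b₆) = 0 := by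
  have h := congrArg (coeff n) (fe_even b₂ b₄ b₆)
  rw [coeff_rescale, hn.neg_one_pow] at h
  have h2 : (2 : K) * coeff n (fe b₂ b₄ b₆) = 0 := by linear_combination -h
  exact (mul_eq_zero.1 h2).resolve_left two_ne_zero

/-- the series in `u = z ^ 2` -/
noncomputable def LocSurj_G (b₂ b₄ b₆ : K) : PowerSeries K :=
  PowerSeries.mk fun m => coeff (2 * m) (fe b₂ b₄ b₆)

omit [CompleteSpace K] [IsUltrametricDist K] in
theorem LocSurj_ev_G [CharZero K] (b₂ b₄ b₆ z : K) :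
    ev (fe b₂ b₄ b₆) z = ev (LocSurj_G b₂ b₄ b₆) (z ^ 2) := by
  unfold ev LocSurj_G
  have hinj : Function.Injective (fun m : ℕ => 2 * m) := by
    intro a b h
    simpa using h
  have hsupp : Function.support (fun n => coeff n (fe b₂ b₄ b₆) * z ^ n) ⊆
      Set.range (fun m : ℕ => 2 * m) := by
    intro n hn
    by_contra hr
    apply hn
    have hodd : Odd n := by
      rw [← Nat.not_even_iff_odd]
      rintro ⟨m, hm⟩
      exact hr ⟨m, by simp only; omega⟩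
    simp only
    rw [LocSurj_odd b₂ b₄ b₆ hodd, zero_mul]
  rw [← Function.Injective.tsum_eq hinj hsupp]
  apply tsum_congr
  intro m
  rw [coeff_mk, ← pow_mul]

omit [CompleteSpace K] in
theorem LocSurj_pow {u v : K} {δ : ℝ} (hu : ‖u‖ ≤ δ) (hv : ‖v‖ ≤ δ) (n : ℕ) :
    ‖u ^ (n + 1) - v ^ (n + 1)‖ ≤ δ ^ n * ‖u - v‖ := by
  have hδ : 0 ≤ δ := (norm_nonneg _).trans hu
  induction n with
  | zero => simp
  | succ n ih =>
    have h1 : u ^ (n + 1 + 1) - v ^ (n + 1 + 1) =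
        u * (u ^ (n + 1) - v ^ (n + 1)) + (u - v) * v ^ (n + 1) := by ring
    rw [h1]
    refine (IsUltrametricDist.norm_add_le_max _ _).trans (max_le ?_ ?_)
    · rw [norm_mul]
      calc ‖u‖ * ‖u ^ (n + 1) - v ^ (n + 1)‖ ≤ δ * (δ ^ n * ‖u - v‖) := by gcongr
        _ = δ ^ (n + 1) * ‖u - v‖ := by ring
    · rw [norm_mul, norm_pow, mul_comm]
      gcongr

theorem LocSurj_lip {σ δ : ℝ} {H : PowerSeries K} (hσ : 0 ≤ σ) (hH : Bd σ 1 H)
    (h0 : coeff 0 H = 0) (h1 : coeff 1 H = 0) (hδ : σ * δ < 1) {u v : K} (hu : ‖u‖ ≤ δ)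
    (hv : ‖v‖ ≤ δ) : ‖ev H u - ev H v‖ ≤ σ ^ 2 * δ * ‖u - v‖ := by
  have hδ0 : 0 ≤ δ := (norm_nonneg _).trans hu
  have hsu : Summable fun n => coeff n H * u ^ n :=
    (hH.summable hσ ((mul_le_mul_of_nonneg_left hu hσ).trans_lt hδ)).of_norm
  have hsv : Summable fun n => coeff n H * v ^ n :=
    (hH.summable hσ ((mul_le_mul_of_nonneg_left hv hσ).trans_lt hδ)).of_norm
  unfold ev
  rw [← hsu.tsum_sub hsv]
  apply IsUltrametricDist.norm_tsum_le_of_forall_le_of_nonneg (by positivity)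
  intro n
  rcases n with _ | _ | k
  · rw [h0]; simp; positivity
  · rw [zero_add, h1]; simp; positivity
  · rw [← mul_sub, norm_mul]
    have e1 := hH (k + 1 + 1)
    rw [one_mul] at e1
    have e2 := LocSurj_pow hu hv (k + 1)
    calc ‖coeff (k + 1 + 1) H‖ * ‖u ^ (k + 1 + 1) - v ^ (k + 1 + 1)‖
        ≤ σ ^ (k + 1 + 1) * (δ ^ (k + 1) * ‖u - v‖) := by gcongr
      _ = (σ * δ) ^ k * (σ ^ 2 * δ * ‖u - v‖) := by ring
      _ ≤ 1 * (σ ^ 2 * δ * ‖u - v‖) := by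
          apply mul_le_mul_of_nonneg_right _ (by positivity)
          exact pow_le_one₀ (by positivity) hδ.le
      _ = σ ^ 2 * δ * ‖u - v‖ := one_mul _

/-- Let `g = ∑ coeff (2 m) f u ^ m = u + ...`, so that `f z = g (z ^ 2)`.  On a ball of radius `ε`
the map `u ↦ X - (g u - u)` is a contraction of the closed ball of radius `‖X‖` into itself
(ultrametric estimates), so `g u = X` has a solution (completeness), `‖u‖ ≤ ‖X‖`.  Take a square
root `z` of `u` (`K` is algebraically closed). -/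
theorem LocSurj_f [IsAlgClosed K] (h : LC p b₂ b₄ b₆ ρ) :
    ∃ ε > 0, ∀ X : K, ‖X‖ < ε → ∃ z : K, ‖z‖ ≤ rad ρ ∧ ev (fe b₂ b₄ b₆) z = X := by
  have : CharZero K := charZero_of_injective_algebraMap (algebraMap ℚ_[p] K).injective
  have hρ2 := h.two_le
  have hρ0 : 0 < ρ := by linarith
  have hr := h.rad_pos
  have hσ : (0 : ℝ) ≤ ρ ^ 2 := by positivity
  have hσ1 : (1 : ℝ) ≤ ρ ^ 2 := one_le_pow₀ (by linarith)
  set δ : ℝ := rad ρ ^ 2 with hδdef
  have hδ : δ = (ρ ^ 12)⁻¹ := by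
    rw [hδdef]
    unfold rad
    rw [inv_pow, ← pow_mul]
  have hδ0 : 0 < δ := by positivity
  have hbig : ∀ k : ℕ, 1 ≤ k → (ρ ^ k)⁻¹ ≤ 1 / 2 := by
    intro k hk
    rw [inv_le_comm₀ (by positivity) (by norm_num)]
    calc ((1 : ℝ) / 2)⁻¹ = 2 := by norm_num
      _ ≤ ρ ^ 1 := by rw [pow_one]; exact hρ2
      _ ≤ ρ ^ k := pow_le_pow_right₀ (by linarith) hk
  have hsd : ρ ^ 2 * δ < 1 := by
    have e : ρ ^ 2 * δ = (ρ ^ 10)⁻¹ := by
      rw [hδ]
      field_simp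
    rw [e]
    linarith [hbig 10 (by norm_num)]
  have hsd2 : (ρ ^ 2) ^ 2 * δ ≤ 1 / 2 := by
    have e : (ρ ^ 2) ^ 2 * δ = (ρ ^ 8)⁻¹ := by
      rw [hδ]
      field_simp
    rw [e]
    exact hbig 8 (by norm_num)
  set G := LocSurj_G b₂ b₄ b₆ with hGdef
  have hG : Bd (ρ ^ 2) 1 G := by
    intro m
    rw [hGdef, LocSurj_G, coeff_mk, ← pow_mul]
    exact h.bd (2 * m)
  have hX : Bd (ρ ^ 2) 1 (PowerSeries.X : PowerSeries K) := by
    intro m
    rw [coeff_X]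
    split_ifs with hm
    · rw [norm_one, one_mul]
      exact one_le_pow₀ hσ1
    · rw [norm_zero]
      positivity
  have hH : Bd (ρ ^ 2) 1 (G - PowerSeries.X) := hG.sub hX
  have hH0 : coeff 0 (G - PowerSeries.X) = 0 := by
    rw [map_sub, hGdef, LocSurj_G, coeff_mk, coeff_X, mul_zero, fe_coeff_zero]
    simp
  have hH1 : coeff 1 (G - PowerSeries.X) = 0 := by
    rw [map_sub, hGdef, LocSurj_G, coeff_mk, coeff_X, mul_one, fe_coeff_two]
    simp
  refine ⟨δ, hδ0, fun X hXδ => ?_⟩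
  set T : K → K := fun u => X - ev (G - PowerSeries.X) u with hT
  have hlip : ∀ u ∈ Metric.closedBall (0 : K) δ, ∀ v ∈ Metric.closedBall (0 : K) δ,
      ‖ev (G - PowerSeries.X) u - ev (G - PowerSeries.X) v‖ ≤ 1 / 2 * ‖u - v‖ := by
    intro u hu v hv
    rw [mem_closedBall_zero_iff] at hu hv
    refine (LocSurj_lip hσ hH hH0 hH1 hsd hu hv).trans ?_
    exact mul_le_mul_of_nonneg_right hsd2 (norm_nonneg _)
  have hmaps : Set.MapsTo T (Metric.closedBall (0 : K) δ) (Metric.closedBall (0 : K) δ) := by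
    intro u hu
    have h1 := hlip u hu 0 (by rw [mem_closedBall_zero_iff, norm_zero]; exact hδ0.le)
    rw [ev_at_zero, hH0, sub_zero, sub_zero] at h1
    rw [mem_closedBall_zero_iff] at hu ⊢
    rw [hT]
    simp only
    rw [sub_eq_add_neg]
    refine (IsUltrametricDist.norm_add_le_max _ _).trans (max_le hXδ.le ?_)
    rw [norm_neg]
    linarith
  have hcon : ContractingWith (1 / 2) (hmaps.restrict T _ _) := by
    refine ⟨by norm_num [← NNReal.coe_lt_coe], LipschitzWith.of_dist_le_mul ?_⟩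
    rintro ⟨u, hu⟩ ⟨v, hv⟩
    rw [Subtype.dist_eq, Subtype.dist_eq, Set.MapsTo.val_restrict_apply,
      Set.MapsTo.val_restrict_apply, dist_eq_norm, dist_eq_norm, hT]
    simp only
    have h1 := hlip v hv u hu
    rw [norm_sub_rev v u] at h1
    have e : X - ev (G - PowerSeries.X) u - (X - ev (G - PowerSeries.X) v) =
        ev (G - PowerSeries.X) v - ev (G - PowerSeries.X) u := by ring
    rw [e]
    refine h1.trans (le_of_eq ?_)
    norm_num
  have hcomp : IsComplete (Metric.closedBall (0 : K) δ) := Metric.isClosed_closedBall.isComplete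
  obtain ⟨u, hu, hfix, -, -⟩ := hcon.exists_fixedPoint' hcomp hmaps
    (x := 0) (by rw [mem_closedBall_zero_iff, norm_zero]; exact hδ0.le) (edist_ne_top _ _)
  rw [mem_closedBall_zero_iff] at hu
  obtain ⟨z, hz⟩ := IsAlgClosed.exists_pow_nat_eq u (n := 2) (by norm_num)
  refine ⟨z, ?_, ?_⟩
  · have h1 : ‖z‖ ^ 2 ≤ rad ρ ^ 2 := by
      rw [← norm_pow, hz]
      exact hu
    exact le_of_sq_le_sq h1 hr.le
  · rw [LocSurj_ev_G, hz, ← hGdef]
    have h1 : ev G u = ev (G - PowerSeries.X) u + ev PowerSeries.X u := by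
      rw [← ev_add hσ hH hX ((mul_le_mul_of_nonneg_left hu hσ).trans_lt hsd), sub_add_cancel]
    rw [h1, ev_X]
    have h2 : X - ev (G - PowerSeries.X) u = u := hfix
    linear_combination -h2

/-- From `LocSurj_f`, `LC.sq` and `LC.odd`, `LC.even`: `f' z = v` or `f' z = - v = - f' (-z)`. -/
theorem LC.surj [IsAlgClosed K] (h : LC p b₂ b₄ b₆ ρ) :
    ∃ ε > 0, ∀ X v : K, ‖X‖ < ε →
      v ^ 2 = 4 * X + b₂ * X ^ 2 + 2 * b₄ * X ^ 3 + b₆ * X ^ 4 →
      ∃ z : K, ‖z‖ ≤ rad ρ ∧ ev (fe b₂ b₄ b₆) z = X ∧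
        ev (derivative K (fe b₂ b₄ b₆)) z = v := by
  obtain ⟨ε, hε, hs⟩ := LocSurj_f (p := p) h
  refine ⟨ε, hε, fun X v hX hv => ?_⟩
  obtain ⟨z, hz, hzX⟩ := hs X hX
  have h1 := h.sq hz
  rw [hzX, ← hv] at h1
  rcases sq_eq_sq_iff_eq_or_eq_neg.1 h1 with h2 | h2
  · exact ⟨z, hz, hzX, h2⟩
  · refine ⟨-z, by rwa [norm_neg], ?_, ?_⟩
    · rw [LC.even, hzX]
    · rw [LC.odd, h2, neg_neg]

end Pool.Agent.PTwist
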