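import Pool.Agent.W_52423f_h30.Exp
import Pool.Agent.W_52423f_h30.LocSurj

/-!
# The exponential map is a homomorphism, and locally surjective
-/

namespace Pool.Agent.PTwist

open WeierstrassCurve WeierstrassCurve.Affine PowerSeries

variable {K : Type*} [NontriviallyNormedField K] [CompleteSpace K] [IsUltrametricDist K]
  [DecidableEq K] {p : ℕ}
  [Fact p.Prime] [NormedAlgebra ℚ_[p] K] (V : WeierstrassCurve K) [V.IsElliptic] {ρ : ℝ}

omit [CompleteSpace K] [DecidableEq K] [Fact p.Prime] [NormedAlgebra ℚ_[p] K] in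
theorem ExpAdd_norm_add {r : ℝ} {z w : K} (hz : ‖z‖ ≤ r) (hw : ‖w‖ ≤ r) : ‖z + w‖ ≤ r :=
  (IsUltrametricDist.norm_add_le_max z w).trans (max_le hz hw)

/-- For `z, w ≠ 0`, `z ≠ ± w` the points `exp z + exp w` and `exp (z + w)` have the same
x-coordinate: by `LC.ev_eq` the x-coordinates of `exp z`, `exp w` differ, so by `AddX_formula`
`exp z + exp w = (x₃, y₃)` with `x₃ * 2 (f z - f w)² = dd ..`, and by `LC.add`
`f (z + w) * dd .. = 2 (f z - f w)² ≠ 0`; so `x₃ f (z + w) = 1`.  Then `Point.X_eq_iff`. -/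
theorem ExpAdd_pm (h : LC p V.b₂ V.b₄ V.b₆ ρ) {z w : K} (hz : ‖z‖ ≤ rad ρ) (hw : ‖w‖ ≤ rad ρ)
    (hz0 : z ≠ 0) (hw0 : w ≠ 0) (h1 : z ≠ w) (h2 : z ≠ -w) :
    expPt V z + expPt V w = expPt V (z + w) ∨ expPt V z + expPt V w = -expPt V (z + w) := by
  have h2' := Exp_two_ne (p := p) K
  have hzw : ‖z + w‖ ≤ rad ρ := ExpAdd_norm_add hz hw
  have hzw0 : z + w ≠ 0 := fun h3 => h2 (eq_neg_of_add_eq_zero_left h3)
  obtain ⟨n1, e1⟩ := expPt_eq V h hz hz0
  obtain ⟨n2, e2⟩ := expPt_eq V h hw hw0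
  obtain ⟨n3, e3⟩ := expPt_eq V h hzw hzw0
  have hX1 := Exp_ev_ne V h hz hz0
  have hX2 := Exp_ev_ne V h hw hw0
  have hX3 := Exp_ev_ne V h hzw hzw0
  have hne : ev (fV V) z ≠ ev (fV V) w := by
    intro h3
    rcases h.ev_eq hz hw h3 with h4 | h4
    · exact h1 h4
    · exact h2 h4
  have hxne : (ev (fV V) z)⁻¹ ≠ (ev (fV V) w)⁻¹ := fun h3 => hne (inv_injective h3)
  obtain ⟨x3, y3, m3, hs, hf⟩ :=
    AddX_formula V h2' n1 n2 hxne (inv_ne_zero hX1) (inv_ne_zero hX2)
  have hv1 := iV_expPt V h hz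
  have hv2 := iV_expPt V h hw
  rw [e1] at hv1
  rw [e2] at hv2
  rw [hv1, hv2, inv_inv, inv_inv] at hf
  have hadd := h.add hz hw
  rw [show fe V.b₂ V.b₄ V.b₆ = fV V from rfl] at hadd
  set D := dd V.b₂ V.b₄ V.b₆ (ev (fV V) z) (ev (fV V) w) (ev (derivative K (fV V)) z)
    (ev (derivative K (fV V)) w) with hD
  have hD0 : D ≠ 0 := by
    intro h3
    rw [h3, mul_zero] at hadd
    have h4 : (ev (fV V) z - ev (fV V) w) ^ 2 = 0 :=
      (mul_eq_zero.1 hadd.symm).resolve_left h2'
    exact hne (sub_eq_zero.1 (pow_eq_zero_iff (two_ne_zero)|>.1 h4))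
  have h5 : x3 * ev (fV V) (z + w) = 1 := by
    have h6 : (x3 * ev (fV V) (z + w)) * D = 1 * D := by
      calc (x3 * ev (fV V) (z + w)) * D = x3 * (ev (fV V) (z + w) * D) := by ring
        _ = x3 * (2 * (ev (fV V) z - ev (fV V) w) ^ 2) := by rw [hadd]
        _ = D := hf
        _ = 1 * D := (one_mul D).symm
    exact mul_right_cancel₀ hD0 h6
  have h6 : x3 = (ev (fV V) (z + w))⁻¹ := eq_inv_of_mul_eq_one_left h5
  rw [e1, e2, e3, hs]
  exact Point.X_eq_iff.1 h6

theorem ExpAdd_two (h : LC p V.b₂ V.b₄ V.b₆ ρ) {z : K} (hz : ‖z‖ ≤ rad ρ) (hz0 : z ≠ 0)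
    (he : expPt V z + expPt V z = 0) : False := by
  have h1 := iV_eq_zero_of_two V (expPt V z) he
  rw [iV_expPt V h hz] at h1
  have h6 := h.norm_ev' hz
  rw [show fe V.b₂ V.b₄ V.b₆ = fV V from rfl, h1, norm_zero] at h6
  rcases mul_eq_zero.1 h6.symm with h8 | h8
  · exact absurd (norm_eq_zero.1 h8) (Exp_two_ne (p := p) K)
  · exact hz0 (norm_eq_zero.1 h8)

/-- The sign.  Suppose `exp z + exp w = - exp (z + w)`.  If `z ≠ -2 w` apply `ExpAdd_pm` to
`z + w` and `-w`: `- exp z - 2 exp w = ± exp z`, so `2 (exp z + exp w) = 0` or `2 exp w = 0`;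
both are impossible by `iV_eq_zero_of_two`, `iV_expPt`, `LC.norm_ev'` (`z + w ≠ 0`, `w ≠ 0`).
If `z = -2 w` then `w ≠ -2 z` and the same argument applies to `z + w` and `-z`. -/
theorem ExpAdd_generic (h : LC p V.b₂ V.b₄ V.b₆ ρ) {z w : K} (hz : ‖z‖ ≤ rad ρ)
    (hw : ‖w‖ ≤ rad ρ) (hz0 : z ≠ 0) (hw0 : w ≠ 0) (h1 : z ≠ w) (h2 : z ≠ -w) :
    expPt V (z + w) = expPt V z + expPt V w := by
  have h2' := Exp_two_ne (p := p) K
  have hzw : ‖z + w‖ ≤ rad ρ := ExpAdd_norm_add hz hw
  have hzw0 : z + w ≠ 0 := fun h3 => h2 (eq_neg_of_add_eq_zero_left h3)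
  rcases ExpAdd_pm V h hz hw hz0 hw0 h1 h2 with h3 | h3
  · exact h3.symm
  · exfalso
    by_cases hc : z = -(2 * w)
    · have hw' : ‖-z‖ ≤ rad ρ := by rwa [norm_neg]
      have h4 : expPt V (z + w) + expPt V (-z) = expPt V (z + w + -z) ∨
          expPt V (z + w) + expPt V (-z) = -expPt V (z + w + -z) := by
        refine ExpAdd_pm V h hzw hw' hzw0 (neg_ne_zero.2 hz0) ?_ ?_
        · intro h5
          -- z + w = -z : w = -2z = 4 w
          have h6 : (3 : K) * w = 0 := by
            rw [hc] at h5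
            linear_combination -h5
          have : CharZero K := charZero_of_injective_algebraMap (algebraMap ℚ_[p] K).injective
          exact hw0 ((mul_eq_zero.1 h6).resolve_left (by norm_num))
        · intro h5
          apply hw0
          linear_combination h5
      rw [show z + w + -z = w by ring, expPt_neg V h hz] at h4
      have h5 : expPt V (z + w) = -(expPt V z + expPt V w) := by rw [h3, neg_neg]
      rw [h5] at h4
      rcases h4 with h4 | h4
      · exact ExpAdd_two V h hzw hzw0 (by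
          rw [h5]
          have : -(expPt V z + expPt V w) + -(expPt V z + expPt V w) =
            (-(expPt V z + expPt V w) + -expPt V z) - expPt V w := by abel
          rw [this, h4, sub_self])
      · exact ExpAdd_two V h hz hz0 (by
          have : expPt V z + expPt V z =
            -(-(expPt V z + expPt V w) + -expPt V z) - expPt V w := by abel
          rw [this, h4, neg_neg, sub_self])
    · have hw' : ‖-w‖ ≤ rad ρ := by rwa [norm_neg]
      have h4 : expPt V (z + w) + expPt V (-w) = expPt V (z + w + -w) ∨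
          expPt V (z + w) + expPt V (-w) = -expPt V (z + w + -w) := by
        refine ExpAdd_pm V h hzw hw' hzw0 (neg_ne_zero.2 hw0) ?_ ?_
        · intro h5
          apply hc
          linear_combination h5
        · intro h5
          apply hz0
          linear_combination h5
      rw [show z + w + -w = z by ring, expPt_neg V h hw] at h4
      have h5 : expPt V (z + w) = -(expPt V z + expPt V w) := by rw [h3, neg_neg]
      rw [h5] at h4
      rcases h4 with h4 | h4
      · exact ExpAdd_two V h hzw hzw0 (by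
          rw [h5]
          have : -(expPt V z + expPt V w) + -(expPt V z + expPt V w) =
            (-(expPt V z + expPt V w) + -expPt V w) - expPt V z := by abel
          rw [this, h4, sub_self])
      · exact ExpAdd_two V h hw hw0 (by
          have : expPt V w + expPt V w =
            -(-(expPt V z + expPt V w) + -expPt V w) - expPt V z := by abel
          rw [this, h4, neg_neg, sub_self])

/-- Remaining cases: `z = 0`, `w = 0`, `z = -w` are trivial (`expPt_neg`); for `z = w ≠ 0` put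
`h = p z`: `exp (2 z) = exp (z + h) + exp (z - h)` and expand both terms with
`ExpAdd_generic`. -/
theorem expPt_add (h : LC p V.b₂ V.b₄ V.b₆ ρ) {z w : K} (hz : ‖z‖ ≤ rad ρ)
    (hw : ‖w‖ ≤ rad ρ) : expPt V (z + w) = expPt V z + expPt V w := by
  by_cases hz0 : z = 0
  · subst hz0
    rw [zero_add, expPt_zero, zero_add]
  by_cases hw0 : w = 0
  · subst hw0
    rw [add_zero, expPt_zero, add_zero]
  by_cases h2 : z = -w
  · subst h2
    rw [neg_add_cancel, expPt_zero, expPt_neg V h hw, neg_add_cancel]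
  by_cases h1 : z = w
  · subst h1
    have hc : CharZero K := charZero_of_injective_algebraMap (algebraMap ℚ_[p] K).injective
    have hp0 : (p : K) ≠ 0 := by exact_mod_cast (Fact.out : p.Prime).ne_zero
    have hpn : ‖(p : K)‖ < 1 := by
      have e1 : (p : K) = algebraMap ℚ_[p] K (p : ℚ_[p]) := by simp
      rw [e1, norm_algebraMap']
      exact Padic.norm_p_lt_one
    have hzn : 0 < ‖z‖ := norm_pos_iff.2 hz0
    set t : K := p * z with ht
    have ht0 : t ≠ 0 := mul_ne_zero hp0 hz0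
    have htn : ‖t‖ < ‖z‖ := by
      rw [ht, norm_mul]
      nlinarith
    have htr : ‖t‖ ≤ rad ρ := htn.le.trans hz
    have htr' : ‖-t‖ ≤ rad ρ := by rwa [norm_neg]
    have hzt : z ≠ t := fun h3 => by rw [← h3] at htn; exact lt_irrefl _ htn
    have hzt' : z ≠ -t := fun h3 => by
      have : ‖z‖ = ‖t‖ := by rw [h3, norm_neg]
      linarith
    have g1 : expPt V (z + t) = expPt V z + expPt V t :=
      ExpAdd_generic V h hz htr hz0 ht0 hzt hzt'
    have g2 : expPt V (z + -t) = expPt V z + expPt V (-t) :=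
      ExpAdd_generic V h hz htr' hz0 (neg_ne_zero.2 ht0) hzt' (by rwa [neg_neg])
    have g3 : expPt V ((z + t) + (z + -t)) = expPt V (z + t) + expPt V (z + -t) := by
      refine ExpAdd_generic V h (ExpAdd_norm_add hz htr) (ExpAdd_norm_add hz htr') ?_ ?_ ?_ ?_
      · exact fun h3 => hzt' (eq_neg_of_add_eq_zero_left h3)
      · exact fun h3 => hzt (by linear_combination h3)
      · intro h3
        have h4 : (2 : K) * t = 0 := by linear_combination h3
        exact ht0 ((mul_eq_zero.1 h4).resolve_left two_ne_zero)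
      · intro h3
        have h4 : (2 : K) * z = 0 := by linear_combination h3
        exact hz0 ((mul_eq_zero.1 h4).resolve_left two_ne_zero)
    rw [show z + z = (z + t) + (z + -t) by ring, g3, g1, g2, expPt_neg V h htr]
    abel
  · exact ExpAdd_generic V h hz hw hz0 hw0 h1 h2

theorem expPt_zsmul (h : LC p V.b₂ V.b₄ V.b₆ ρ) {z : K} (hz : ‖z‖ ≤ rad ρ) (m : ℤ) :
    expPt V (m • z) = m • expPt V z := by
  have hn : ∀ n : ℕ, expPt V (n • z) = n • expPt V z ∧ ‖n • z‖ ≤ rad ρ := by
    intro n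
    induction n with
    | zero =>
      refine ⟨by rw [zero_smul, zero_smul, expPt_zero], ?_⟩
      rw [zero_smul, norm_zero]
      exact h.rad_pos.le
    | succ n ih =>
      refine ⟨?_, ?_⟩
      · rw [succ_nsmul, succ_nsmul, expPt_add V h ih.2 hz, ih.1]
      · rw [succ_nsmul]
        exact ExpAdd_norm_add ih.2 hz
  obtain ⟨n, rfl | rfl⟩ := m.eq_nat_or_neg
  · rw [natCast_zsmul, natCast_zsmul]
    exact (hn n).1
  · rw [neg_smul, neg_smul, natCast_zsmul, natCast_zsmul, expPt_neg V h (hn n).2, (hn n).1]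

/-- integral combinations (integers have norm `≤ 1`) -/
theorem expPt_sum (h : LC p V.b₂ V.b₄ V.b₆ ρ) {ι : Type*} (t : Finset ι) (m : ι → ℤ)
    (z : ι → K) (hz : ∀ i ∈ t, ‖z i‖ ≤ rad ρ) :
    expPt V (∑ i ∈ t, m i • z i) = ∑ i ∈ t, m i • expPt V (z i) := by
  classical
  have key : expPt V (∑ i ∈ t, m i • z i) = ∑ i ∈ t, m i • expPt V (z i) ∧
      ‖∑ i ∈ t, m i • z i‖ ≤ rad ρ := by
    induction t using Finset.induction_on with
    | empty =>
      refine ⟨by rw [Finset.sum_empty, Finset.sum_empty, expPt_zero], ?_⟩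
      rw [Finset.sum_empty, norm_zero]
      exact h.rad_pos.le
    | insert a s ha ih =>
      have ih' := ih fun i hi => hz i (Finset.mem_insert_of_mem hi)
      have hza := hz a (Finset.mem_insert_self a s)
      have h1 : ‖m a • z a‖ ≤ rad ρ := by
        rw [zsmul_eq_mul, norm_mul]
        have h2 := IsUltrametricDist.norm_intCast_le_one K (m a)
        have h3 := norm_nonneg (z a)
        nlinarith
      rw [Finset.sum_insert ha, Finset.sum_insert ha]
      exact ⟨by rw [expPt_add V h h1 ih'.2, ih'.1, expPt_zsmul V h hza], ExpAdd_norm_add h1 ih'.2⟩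
  exact key.1

/-- local surjectivity: `LC.surj` for `X = iX P`, `v = iV P`; `‖iX P‖ = ‖x‖⁻¹` is small -/
theorem expPt_surj [IsAlgClosed K] (h : LC p V.b₂ V.b₄ V.b₆ ρ) :
    ∃ R : ℝ, ∀ P : V.toAffine.Point, Near V R P → ∃ z : K, ‖z‖ ≤ rad ρ ∧ expPt V z = P := by
  obtain ⟨ε, hε, hs⟩ := h.surj
  refine ⟨ε⁻¹, fun P hP => ?_⟩
  rcases hP with rfl | ⟨x, y, hn, rfl, hR⟩
  · exact ⟨0, by simpa using h.rad_pos.le, expPt_zero V⟩
  · have hx : x ≠ 0 := by
      rintro rfl
      rw [norm_zero] at hR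
      exact absurd hR (not_lt.2 (inv_pos.2 hε).le)
    have h1 : ‖x⁻¹‖ < ε := by
      rw [norm_inv]
      exact inv_lt_of_inv_lt₀ hε hR
    obtain ⟨z, hz, h2, h3⟩ := hs (iX V (.some x y hn)) (iV V (.some x y hn)) h1
      (iV_sq V hn hx)
    refine ⟨z, hz, ?_⟩
    have h4 : iX V (expPt V z) = iX V (.some x y hn) := by
      rw [iX_expPt V h hz]
      exact h2
    refine eq_of_iX_iV V (Exp_two_ne (p := p) K) ?_ h4 ?_
    · rw [h4, iX_some]
      exact inv_ne_zero hx
    · rw [iV_expPt V h hz]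
      exact h3

end Pool.Agent.PTwist
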