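import Mathlib

/-!
# Finitely generated abelian groups of rank `d`
-/

namespace Pool.Agent.PTwist

/-- A finitely generated abelian group of rank `d` has independent elements `u 1, ..., u d` such
that for all `N ≠ 0` the subgroup generated by the `N • u j` has finitely many cosets.  (The
quotient by the torsion subgroup is free of rank `d`, lift a basis; the torsion subgroup is finite;
the coset representatives are `s + ∑ c j • u j` with `s` torsion, `0 ≤ c j < |N|`.) -/
theorem Grp_basis {G : Type*} [AddCommGroup G] {L : AddSubgroup G} (hfg : L.FG) {d : ℕ}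
    (hd : Module.finrank ℤ L = d) :
    ∃ u : Fin d → G, (∀ j, u j ∈ L) ∧ (∀ m : Fin d → ℤ, ∑ j, m j • u j = 0 → m = 0) ∧
      ∀ N : ℤ, N ≠ 0 → ∃ A : Finset G, ∀ x ∈ L, ∃ s ∈ A, ∃ m : Fin d → ℤ,
        x = s + ∑ j, m j • (N • u j) := by
  classical
  haveI : Module.Finite ℤ L :=
    Module.Finite.iff_addGroup_fg.2 ((AddGroup.fg_iff_addSubgroup_fg L).2 hfg)
  let T : Submodule ℤ L := Submodule.torsion ℤ L
  haveI hTfin : Finite T := Module.finite_of_fg_torsion T Submodule.torsion_isTorsion
  have hT0 : Module.finrank ℤ T = 0 := by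
    rw [Module.finrank_eq_zero_iff]
    intro x
    obtain ⟨a, ha⟩ := @Submodule.torsion_isTorsion ℤ L _ _ _ x
    exact ⟨(a : ℤ), nonZeroDivisors.ne_zero a.2, ha⟩
  have hQ : Module.finrank ℤ (L ⧸ T) = d := by
    have h1 := Submodule.finrank_quotient_add_finrank T
    rw [hT0, add_zero, hd] at h1
    exact h1
  let b : Module.Basis (Fin d) ℤ (L ⧸ T) := Module.finBasisOfFinrankEq ℤ (L ⧸ T) hQ
  have hsurj := T.mkQ_surjective
  choose v hv using fun j => hsurj (b j)
  refine ⟨fun j => (v j : G), fun j => (v j).2, ?_, ?_⟩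
  · intro m hm
    have h1 : ∑ j, m j • v j = 0 := by
      apply Subtype.ext
      rw [AddSubgroup.coe_zero, ← hm]
      push_cast
      rfl
    have h2 : ∑ j, m j • b j = 0 := by
      have h3 := congrArg T.mkQ h1
      rw [map_sum, map_zero] at h3
      rw [← h3]
      exact Finset.sum_congr rfl fun j _ => by rw [map_smul, hv]
    funext j
    exact (Fintype.linearIndependent_iff.1 b.linearIndependent) m h2 j
  · intro N hN
    have hN' : 0 < |N| := abs_pos.2 hN
    let S : Set (L × (Fin d → ℤ)) := (T : Set L) ×ˢ {r | ∀ j, r j ∈ Set.Ico (0 : ℤ) |N|}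
    have hS : S.Finite :=
      Set.Finite.prod (Set.toFinite _) (Set.Finite.pi' fun _ => Set.finite_Ico _ _)
    let g : L × (Fin d → ℤ) → G := fun q => (q.1 : G) + ∑ j, q.2 j • (v j : G)
    refine ⟨(hS.image g).toFinset, fun x hx => ?_⟩
    let m : Fin d → ℤ := fun j => b.repr (T.mkQ ⟨x, hx⟩) j
    let r : Fin d → ℤ := fun j => m j % N
    let q : Fin d → ℤ := fun j => m j / N
    have hmr : ∀ j, m j = N * q j + r j := fun j => (Int.mul_ediv_add_emod (m j) N).symm
    let t : L := ⟨x, hx⟩ - ∑ j, m j • v j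
    have ht : t ∈ T := by
      have h1 : T.mkQ t = 0 := by
        change T.mkQ (⟨x, hx⟩ - ∑ j, m j • v j) = 0
        rw [map_sub, map_sum, sub_eq_zero]
        conv_lhs => rw [← b.sum_repr (T.mkQ ⟨x, hx⟩)]
        exact Finset.sum_congr rfl fun j _ => by rw [map_smul, hv]
      rwa [← Submodule.ker_mkQ T, LinearMap.mem_ker]
    have hx' : x = (t : G) + ∑ j, m j • (v j : G) := by
      have h1 : (t : G) = x - ∑ j, m j • (v j : G) := by
        change (((⟨x, hx⟩ : L) - ∑ j, m j • v j : L) : G) = _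
        push_cast
        rfl
      rw [h1, sub_add_cancel]
    refine ⟨g (t, r), ?_, q, ?_⟩
    · rw [Set.Finite.mem_toFinset]
      refine ⟨(t, r), ⟨ht, fun j => ⟨Int.emod_nonneg _ hN, ?_⟩⟩, rfl⟩
      exact Int.emod_lt_abs _ hN
    · change x = (t : G) + ∑ j, r j • (v j : G) + ∑ j, q j • (N • (v j : G))
      rw [add_assoc, ← Finset.sum_add_distrib]
      rw [hx']
      congr 1
      refine Finset.sum_congr rfl fun j _ => ?_
      rw [hmr j, add_smul, add_comm, mul_comm, mul_smul]

end Pool.Agent.PTwist
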