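import Mathlib

/-!
# The addition-and-subtraction map
-/

namespace Pool.Agent.PTwist

open WeierstrassCurve WeierstrassCurve.Affine WeierstrassCurve.Affine.Point

variable {k : Type*} [Field k] [DecidableEq k] (V : WeierstrassCurve k)

theorem HtA_eval (x : Fin 3 → k) : (fun i => (V.addSubMap i).eval x) =
    ![x 0 ^ 2 - V.b₄ * x 0 * x 2 - V.b₆ * x 1 * x 2 - V.b₈ * x 2 ^ 2,
      2 * x 1 * x 0 + V.b₂ * x 0 * x 2 + V.b₄ * x 1 * x 2 + V.b₆ * x 2 ^ 2,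
      x 1 ^ 2 - 4 * x 0 * x 2] := by
  funext i
  fin_cases i <;> simp [WeierstrassCurve.addSubMap]

theorem HtA_vec (c a₀ a₁ a₂ b₀ b₁ b₂ : k) (h0 : a₀ = c * b₀) (h1 : a₁ = c * b₁)
    (h2 : a₂ = c * b₂) : ![a₀, a₁, a₂] = c • ![b₀, b₁, b₂] := by
  rw [h0, h1, h2]
  simp

theorem HtA_some (x y : k) (x' y' : k) (h : V.toAffine.Nonsingular x y)
    (h' : V.toAffine.Nonsingular x' y') :
    (fun i => (V.addSubMap i).eval (sym2x (Point.some x y h) (Point.some x' y' h'))) =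
    ![(x * x') ^ 2 - V.b₄ * (x * x') - V.b₆ * (x + x') - V.b₈,
      2 * (x + x') * (x * x') + V.b₂ * (x * x') + V.b₄ * (x + x') + V.b₆,
      (x + x') ^ 2 - 4 * (x * x')] := by
  rw [HtA_eval, sym2x_some_some]
  simp

/-- Generic case `x₁ ≠ x₂` of `HtA_addSub`: `P ± Q` have x-coordinates
`((η₁ ∓ η₂) / (x₁ - x₂))² / 4 - b₂ / 4 - x₁ - x₂` (if `2 ≠ 0`) or directly from `addX`,
`slope_of_X_ne` for `Q` and `-Q`; the factor is `(x₁ - x₂)²`. -/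
theorem HtA_ne {x₁ y₁ x₂ y₂ : k} (h₁ : V.toAffine.Nonsingular x₁ y₁)
    (h₂ : V.toAffine.Nonsingular x₂ y₂) (hx : x₁ ≠ x₂) :
    (fun i => (V.addSubMap i).eval (sym2x (Point.some x₁ y₁ h₁) (Point.some x₂ y₂ h₂))) =
      ((x₁ - x₂) ^ 2) • sym2x (Point.some x₁ y₁ h₁ + Point.some x₂ y₂ h₂)
        (Point.some x₁ y₁ h₁ - Point.some x₂ y₂ h₂) := by
  have hsub : x₁ - x₂ ≠ 0 := sub_ne_zero.mpr hx
  have e₁ := (V.toAffine.equation_iff x₁ y₁).mp h₁.1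
  have e₂ := (V.toAffine.equation_iff x₂ y₂).mp h₂.1
  rw [HtA_some, sub_eq_add_neg (Point.some x₁ y₁ h₁), Point.neg_some, Point.add_of_X_ne hx,
    Point.add_of_X_ne hx, sym2x_some_some, V.toAffine.slope_of_X_ne hx,
    V.toAffine.slope_of_X_ne hx]
  obtain ⟨l, hl⟩ : ∃ l, l = (y₁ - y₂) / (x₁ - x₂) := ⟨_, rfl⟩
  obtain ⟨m, hm⟩ : ∃ m, m = (y₁ - V.toAffine.negY x₂ y₂) / (x₁ - x₂) := ⟨_, rfl⟩
  rw [← hl, ← hm]
  have hl' : l * (x₁ - x₂) = y₁ - y₂ := by rw [hl]; field_simp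
  have hm' : m * (x₁ - x₂) = y₁ - (-y₂ - V.a₁ * x₂ - V.a₃) := by
    rw [hm]; rw [div_mul_cancel₀ _ hsub]; rfl
  have h3 : V.toAffine.addX x₁ x₂ l * (x₁ - x₂) ^ 2 =
      (y₁ - y₂) ^ 2 + V.a₁ * (y₁ - y₂) * (x₁ - x₂) - (V.a₂ + x₁ + x₂) * (x₁ - x₂) ^ 2 := by
    rw [WeierstrassCurve.Affine.addX, ← hl']
    ring
  have h4 : V.toAffine.addX x₁ x₂ m * (x₁ - x₂) ^ 2 =
      (y₁ - (-y₂ - V.a₁ * x₂ - V.a₃)) ^ 2 +
        V.a₁ * (y₁ - (-y₂ - V.a₁ * x₂ - V.a₃)) * (x₁ - x₂) -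
        (V.a₂ + x₁ + x₂) * (x₁ - x₂) ^ 2 := by
    rw [WeierstrassCurve.Affine.addX, ← hm']
    ring
  obtain ⟨u, hu⟩ : ∃ u, u = V.toAffine.addX x₁ x₂ l := ⟨_, rfl⟩
  obtain ⟨w, hw⟩ : ∃ w, w = V.toAffine.addX x₁ x₂ m := ⟨_, rfl⟩
  rw [← hu] at h3 ⊢
  rw [← hw] at h4 ⊢
  simp only [WeierstrassCurve.b₂, WeierstrassCurve.b₄, WeierstrassCurve.b₆, WeierstrassCurve.b₈]
  refine HtA_vec _ _ _ _ _ _ _ ?_ ?_ ?_
  · have hD : (x₁ - x₂) ^ 2 ≠ 0 := pow_ne_zero 2 hsub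
    apply mul_left_cancel₀ hD
    have h34 : (x₁ - x₂) ^ 2 * ((x₁ - x₂) ^ 2 * (u * w)) =
        (u * (x₁ - x₂) ^ 2) * (w * (x₁ - x₂) ^ 2) := by ring
    rw [h34, h3, h4]
    linear_combination
      (-(-x₁ ^ 3 + 2 * x₁ ^ 2 * x₂ - x₁ ^ 2 * V.a₂ + 2 * x₁ * x₂ ^ 2 + x₁ * x₂ * V.a₁ ^ 2 +
        4 * x₁ * x₂ * V.a₂ + x₁ * y₁ * V.a₁ + x₁ * V.a₁ * V.a₃ + x₁ * V.a₄ - 2 * x₂ ^ 3 -
        x₂ ^ 2 * V.a₁ ^ 2 - 2 * x₂ ^ 2 * V.a₂ - 2 * x₂ * y₂ * V.a₁ - x₂ * V.a₁ * V.a₃ + y₁ ^ 2 +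
        y₁ * V.a₃ - 2 * y₂ ^ 2 - 2 * y₂ * V.a₃ + V.a₆)) * e₁ -
      (-4 * x₁ ^ 3 + 2 * x₁ ^ 2 * x₂ - x₁ ^ 2 * V.a₁ ^ 2 - 4 * x₁ ^ 2 * V.a₂ +
        2 * x₁ * x₂ ^ 2 + x₁ * x₂ * V.a₁ ^ 2 + 4 * x₁ * x₂ * V.a₂ - x₁ * V.a₁ * V.a₃ -
        2 * x₁ * V.a₄ - x₂ ^ 3 - x₂ ^ 2 * V.a₂ + x₂ * y₂ * V.a₁ + x₂ * V.a₁ * V.a₃ +
        x₂ * V.a₄ + y₂ ^ 2 + y₂ * V.a₃ - V.a₆) * e₂
  · have h34 : (x₁ - x₂) ^ 2 * (u + w) = u * (x₁ - x₂) ^ 2 + w * (x₁ - x₂) ^ 2 := by ring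
    rw [h34, h3, h4]
    linear_combination (-2 : k) * e₁ - (2 : k) * e₂
  · ring

/-- Doubling, `Q = P` with `2 y + a₁ x + a₃ ≠ 0`: `P + P = (x₃, y₃)` with
`x₃ (2 y + a₁ x + a₃)² = x⁴ - b₄ x² - 2 b₆ x - b₈`, `P - P = 0`; here `sym2x (P + P) 0 = ![x₃, 1, 0]`
and the factor is `(2 y + a₁ x + a₃)² = 4 x³ + b₂ x² + 2 b₄ x + b₆`. -/
theorem HtA_self {x y : k} (h : V.toAffine.Nonsingular x y)
    (hy : 2 * y + V.a₁ * x + V.a₃ ≠ 0) :
    (fun i => (V.addSubMap i).eval (sym2x (Point.some x y h) (Point.some x y h))) =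
      ((2 * y + V.a₁ * x + V.a₃) ^ 2) • sym2x (Point.some x y h + Point.some x y h) 0 := by
  have e := (V.toAffine.equation_iff x y).mp h.1
  have hY : y ≠ V.toAffine.negY x y := by
    intro hc
    apply hy
    have hc' : y = -y - V.a₁ * x - V.a₃ := hc
    linear_combination hc'
  rw [HtA_some, Point.add_self_of_Y_ne hY, sym2x_some_zero, V.toAffine.slope_of_Y_ne rfl hY]
  obtain ⟨l, hl⟩ : ∃ l, l = (3 * x ^ 2 + 2 * V.toAffine.a₂ * x + V.toAffine.a₄ -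
    V.toAffine.a₁ * y) / (y - V.toAffine.negY x y) := ⟨_, rfl⟩
  rw [← hl]
  have hl' : l * (2 * y + V.a₁ * x + V.a₃) = 3 * x ^ 2 + 2 * V.a₂ * x + V.a₄ - V.a₁ * y := by
    have h1 : y - V.toAffine.negY x y = 2 * y + V.a₁ * x + V.a₃ := by
      rw [WeierstrassCurve.Affine.negY]
      ring
    rw [hl, h1, div_mul_cancel₀ _ hy]
  have h3 : V.toAffine.addX x x l * (2 * y + V.a₁ * x + V.a₃) ^ 2 =
      (3 * x ^ 2 + 2 * V.a₂ * x + V.a₄ - V.a₁ * y) ^ 2 +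
      V.a₁ * (3 * x ^ 2 + 2 * V.a₂ * x + V.a₄ - V.a₁ * y) * (2 * y + V.a₁ * x + V.a₃) -
      (V.a₂ + 2 * x) * (2 * y + V.a₁ * x + V.a₃) ^ 2 := by
    rw [WeierstrassCurve.Affine.addX, ← hl']
    ring
  obtain ⟨u, hu⟩ : ∃ u, u = V.toAffine.addX x x l := ⟨_, rfl⟩
  rw [← hu] at h3 ⊢
  simp only [WeierstrassCurve.b₂, WeierstrassCurve.b₄, WeierstrassCurve.b₆, WeierstrassCurve.b₈]
  refine HtA_vec _ _ _ _ _ _ _ ?_ ?_ ?_
  · rw [mul_comm ((2 * y + V.a₁ * x + V.a₃) ^ 2) u, h3]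
    linear_combination (8 * x + V.a₁ ^ 2 + 4 * V.a₂) * e
  · linear_combination (-4 : k) * e
  · ring

/-- Doubling a point of order two: `2 y + a₁ x + a₃ = 0`, `P + P = 0`.  The value is
`![x⁴ - b₄ x² - 2 b₆ x - b₈, 0, 0]`; the first entry is not zero because `addSubMap` has no zero
(`WeierstrassCurve.addSubMap_ne_zero`, this uses `IsElliptic`). -/
theorem HtA_two [V.IsElliptic] {x y : k} (h : V.toAffine.Nonsingular x y)
    (hy : 2 * y + V.a₁ * x + V.a₃ = 0) :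
    ∃ c : k, c ≠ 0 ∧
      (fun i => (V.addSubMap i).eval (sym2x (Point.some x y h) (Point.some x y h))) =
        c • sym2x (0 : V.toAffine.Point) 0 := by
  have e := (V.toAffine.equation_iff x y).mp h.1
  refine ⟨x ^ 4 - V.b₄ * x ^ 2 - 2 * V.b₆ * x - V.b₈, ?_, ?_⟩
  · intro hc
    have h1 := V.addSubMap_ne_zero (sym2x_ne_zero (Point.some x y h) (Point.some x y h))
    apply h1
    rw [HtA_some]
    funext i
    fin_cases i
    · simp only [Fin.zero_eta, Matrix.cons_val_zero, Pi.zero_apply]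
      linear_combination hc
    · simp only [Fin.mk_one, Matrix.cons_val_one, Matrix.cons_val_zero, Pi.zero_apply]
      simp only [WeierstrassCurve.b₂, WeierstrassCurve.b₄, WeierstrassCurve.b₆]
      linear_combination (2 * y + V.a₁ * x + V.a₃) * hy - (4 : k) * e
    · simp only [Fin.reduceFinMk, Matrix.cons_val, Pi.zero_apply]
      ring
  · rw [HtA_some, sym2x_zero_zero]
    refine HtA_vec _ _ _ _ _ _ _ ?_ ?_ ?_
    · ring
    · simp only [WeierstrassCurve.b₂, WeierstrassCurve.b₄, WeierstrassCurve.b₆]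
      linear_combination (2 * y + V.a₁ * x + V.a₃) * hy - (4 : k) * e
    · ring

/-- `addSubMap` maps `(x(P) x(Q) : x(P) + x(Q) : 1)` to `(x(P+Q) x(P-Q) : x(P+Q) + x(P-Q) : 1)`.
Cases: `P = 0` or `Q = 0` (the value of `addSubMap` at `![x, 1, 0]` is `![x ^ 2, 2 x, 1]`, at
`![1, 0, 0]` it is `![1, 0, 0]`), `x₁ ≠ x₂` (`HtA_ne`), `Q = P` or `Q = -P` (`HtA_self`, `HtA_two`;
`sym2x_comm`, `sym2x_neg_right`). -/
theorem HtA_addSub [V.IsElliptic] (P Q : V.toAffine.Point) :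
    ∃ c : k, c ≠ 0 ∧ (fun i => (V.addSubMap i).eval (sym2x P Q)) =
      c • sym2x (P + Q) (P - Q) := by
  rcases P with _ | ⟨x₁, y₁, h₁⟩
  · have h0 : (Point.zero : V.toAffine.Point) = 0 := rfl
    rcases Q with _ | ⟨x₂, y₂, h₂⟩
    · refine ⟨1, one_ne_zero, ?_⟩
      rw [h0, add_zero, sub_zero, sym2x_zero_zero, HtA_eval]
      simp
    · refine ⟨1, one_ne_zero, ?_⟩
      rw [h0, zero_add, zero_sub, sym2x_neg_right, sym2x_zero_some, sym2x_some_some, HtA_eval]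
      refine HtA_vec _ _ _ _ _ _ _ ?_ ?_ ?_
      · simp
        ring
      · simp
        ring
      · simp
  · rcases Q with _ | ⟨x₂, y₂, h₂⟩
    · have h0 : (Point.zero : V.toAffine.Point) = 0 := rfl
      refine ⟨1, one_ne_zero, ?_⟩
      rw [h0, add_zero, sub_zero, sym2x_some_zero, sym2x_some_some, HtA_eval]
      refine HtA_vec _ _ _ _ _ _ _ ?_ ?_ ?_
      · simp
        ring
      · simp
        ring
      · simp
    · by_cases hx : x₁ = x₂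
      · by_cases hy : 2 * y₁ + V.a₁ * x₁ + V.a₃ = 0
        · -- both points are equal and of order two
          have hself : Point.some x₁ y₁ h₁ = -Point.some x₁ y₁ h₁ := by
            rw [Point.neg_some, Point.some.injEq]
            refine ⟨rfl, ?_⟩
            rw [WeierstrassCurve.Affine.negY]
            linear_combination hy
          have hPQ : Point.some x₂ y₂ h₂ = Point.some x₁ y₁ h₁ := by
            rcases Point.X_eq_iff (h₁ := h₁) (h₂ := h₂) |>.mp hx with h | h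
            · exact h.symm
            · rw [hself, h, neg_neg]
          rw [hPQ]
          obtain ⟨c, hc, h⟩ := HtA_two V h₁ hy
          refine ⟨c, hc, ?_⟩
          rw [h, sub_self]
          congr 2
          nth_rewrite 2 [hself]
          rw [add_neg_cancel]
        · rcases Point.X_eq_iff (h₁ := h₁) (h₂ := h₂) |>.mp hx with h | h
          · rw [← h]
            refine ⟨_, pow_ne_zero 2 hy, ?_⟩
            rw [HtA_self V h₁ hy, sub_self]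
          · have h' : Point.some x₂ y₂ h₂ = -Point.some x₁ y₁ h₁ := by
              rw [h, neg_neg]
            rw [h']
            refine ⟨_, pow_ne_zero 2 hy, ?_⟩
            rw [sym2x_neg_right, HtA_self V h₁ hy, add_neg_cancel, sub_neg_eq_add, sym2x_comm]
      · exact ⟨_, pow_ne_zero 2 (sub_ne_zero.mpr hx), HtA_ne V h₁ h₂ hx⟩

end Pool.Agent.PTwist
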