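import Mathlib

/-!
# Sequences with bounded second differences
-/

namespace Pool.Agent.PTwist

section Seq

/-- upper bound in the forward direction: `a n ≤ a 0 + n (a 1 - a 0) + m n (n-1) / 2` -/
theorem HtS_up {a : ℤ → ℝ} {m : ℝ}
    (h : ∀ j, a (j + 1) + a (j - 1) - 2 * a j ≤ m) (n : ℕ) :
    a (n : ℤ) ≤ a 0 + n * (a 1 - a 0) + m * (n * (n - 1)) / 2 ∧
      a ((n : ℤ) + 1) - a n ≤ (a 1 - a 0) + m * n := by
  induction n with
  | zero => simp
  | succ n ih =>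
    have h1 := h ((n : ℤ) + 1)
    rw [show (n : ℤ) + 1 - 1 = n by ring] at h1
    push_cast
    constructor
    · nlinarith [ih.1, ih.2]
    · nlinarith [ih.1, ih.2]

theorem HtS_pos {a : ℤ → ℝ} {m : ℝ} (h0 : ∀ j, 0 ≤ a j)
    (h : ∀ j, a (j + 1) + a (j - 1) - 2 * a j ≤ m) (n : ℕ) :
    a (n : ℤ) ≤ 2 * a 0 + m * (n : ℝ) ^ 2 := by
  have h1 := (HtS_up h n).1
  -- reversed sequence
  have h2 := (HtS_up (a := fun j => a (-j)) (m := m) (fun j => by
    have := h (-j)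
    rw [show -(j + 1) = -j - 1 by ring, show -(j - 1) = -j + 1 by ring]
    linarith) n).1
  simp only [_root_.neg_zero] at h2
  have h3 := h 0
  rw [zero_add, zero_sub] at h3
  have h4 := h0 (-(n : ℤ))
  have hn : (0 : ℝ) ≤ n := Nat.cast_nonneg n
  have h5 : (n : ℝ) * (a 1 - a 0) + n * (a (-1) - a 0) ≤ n * m := by
    have : a 1 - a 0 + (a (-1) - a 0) ≤ m := by linarith
    nlinarith
  -- a n + a (-n) ≤ 2 a 0 + n m + m n (n-1)
  nlinarith [h1, h2, h4, h5]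

/-- Let `a : ℤ → ℝ` be nonnegative with second differences at most `m`.  Then
`a j ≤ 2 * a 0 + m * j ^ 2` for all `j`.  (By symmetry `j ≥ 1`.  With `d i = a (i+1) - a i` we have
`d i ≤ d 0 + i m` and `d (-i) ≥ d 0 - i m`; `0 ≤ a (-j) ≤ a 0 - j d 0 + m j (j+1) / 2` gives
`j d 0 ≤ a 0 + m j (j+1) / 2`, and `a j ≤ a 0 + j d 0 + m j (j-1) / 2`.) -/
theorem HtB_seq {a : ℤ → ℝ} {m : ℝ} (h0 : ∀ j, 0 ≤ a j)
    (h : ∀ j, a (j + 1) + a (j - 1) - 2 * a j ≤ m) (j : ℤ) : a j ≤ 2 * a 0 + m * (j : ℝ) ^ 2 := by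
  obtain ⟨n, rfl | rfl⟩ := j.eq_nat_or_neg
  · simpa using HtS_pos h0 h n
  · have := HtS_pos (a := fun j => a (-j)) (m := m) (fun j => h0 _) (fun j => by
      have := h (-j)
      rw [show -(j + 1) = -j - 1 by ring, show -(j - 1) = -j + 1 by ring]
      linarith) n
    simpa using this

end Seq

end Pool.Agent.PTwist
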