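import Pool.Agent.W_52423f_h30.HtA
import Pool.Agent.W_52423f_h30.HtS

/-!
# Quadratic growth of the naive height
-/

namespace Pool.Agent.PTwist

open WeierstrassCurve WeierstrassCurve.Affine WeierstrassCurve.Affine.Point Height

variable {k : Type*} [Field k] [DecidableEq k] [AdmissibleAbsValues k] (V : WeierstrassCurve k)
  [V.IsElliptic]

/-- the naive logarithmic height of a point -/
noncomputable def hx (P : V.toAffine.Point) : ℝ := logHeight P.xRep

theorem hx_nonneg (P : V.toAffine.Point) : 0 ≤ hx V P := logHeight_nonneg _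

theorem HtB_eta (f : Fin 2 → k) : ![f 0, f 1] = f := by
  ext i
  fin_cases i <;> rfl

/-- Approximate parallelogram inequality.  With `s = sym2x P Q`: `logHeight_sym2_ge` for
`P + Q`, `P - Q` (`sym2x P Q = ![a c, a d + b c, b d]` for `xRep P = ![a, b]`, `xRep Q = ![c, d]`),
`HtA_addSub` and `logHeight_smul_eq_logHeight`, `abs_logHeight_addSubMap_sub_two_mul_logHeight_le`,
`logHeight_sym2_le`. -/
theorem hx_parallelogram : ∃ c : ℝ, 0 ≤ c ∧ ∀ P Q : V.toAffine.Point,
    hx V (P + Q) + hx V (P - Q) ≤ 2 * hx V P + 2 * hx V Q + c := by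
  obtain ⟨C1, hC1⟩ := V.abs_logHeight_addSubMap_sub_two_mul_logHeight_le
  obtain ⟨C2, hC2⟩ := logHeight_sym2_le k
  obtain ⟨C3, hC3⟩ := logHeight_sym2_ge k
  refine ⟨max 0 (C1 + 2 * C2 - C3), le_max_left _ _, fun P Q => ?_⟩
  obtain ⟨c, hc, he⟩ := HtA_addSub V P Q
  have h1 := hC1 (sym2x P Q)
  rw [he, logHeight_smul_eq_logHeight _ hc] at h1
  have h2 : logHeight (sym2x P Q) ≤ C2 + hx V P + hx V Q := by
    have := hC2 (P.xRep 0) (P.xRep 1) (Q.xRep 0) (Q.xRep 1)
    rw [HtB_eta, HtB_eta] at this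
    exact this
  have h3 : C3 + hx V (P + Q) + hx V (P - Q) ≤ logHeight (sym2x (P + Q) (P - Q)) := by
    have := @hC3 ((P + Q).xRep 0) ((P + Q).xRep 1) ((P - Q).xRep 0) ((P - Q).xRep 1)
      (by rw [HtB_eta]; exact xRep_ne_zero _) (by rw [HtB_eta]; exact xRep_ne_zero _)
    rw [HtB_eta, HtB_eta] at this
    exact this
  have h4 := (abs_le.1 h1).2
  have h5 := le_max_right 0 (C1 + 2 * C2 - C3)
  linarith

/-- `h(Q + j P) ≤ 2 h(Q) + (2 h(P) + c) j²`: `HtB_seq` for `a j = h(Q + j P)`. -/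
theorem hx_add_zsmul : ∃ c : ℝ, 0 ≤ c ∧ ∀ (P Q : V.toAffine.Point) (j : ℤ),
    hx V (Q + j • P) ≤ 2 * hx V Q + (2 * hx V P + c) * (j : ℝ) ^ 2 := by
  obtain ⟨c, hc, h⟩ := hx_parallelogram V
  refine ⟨c, hc, fun P Q j => ?_⟩
  have h1 := HtB_seq (a := fun j : ℤ => hx V (Q + j • P)) (m := 2 * hx V P + c)
    (fun j => hx_nonneg V _) (fun j => by
      have h2 := h (Q + j • P) P
      have e1 : Q + (j + 1) • P = Q + j • P + P := by rw [add_smul, one_smul, add_assoc]
      have e2 : Q + (j - 1) • P = Q + j • P - P := by rw [sub_smul, one_smul, add_sub_assoc]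
      simp only [e1, e2]
      linarith) j
  simpa using h1

/-- quadratic growth, by induction on `n` from `hx_add_zsmul` (constants may depend on `n` and the
points) -/
theorem hx_sum {n : ℕ} (P : Fin n → V.toAffine.Point) : ∃ c : ℝ, 0 ≤ c ∧ ∀ s : Fin n → ℤ,
    hx V (∑ i, s i • P i) ≤ c * (1 + ∑ i, (s i : ℝ) ^ 2) := by
  induction n with
  | zero =>
    refine ⟨hx V 0, hx_nonneg V 0, fun s => ?_⟩
    simp
  | succ n ih =>
    obtain ⟨c, hc, hs⟩ := ih fun i => P i.succ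
    obtain ⟨c1, hc1, h1⟩ := hx_add_zsmul V
    have hP := hx_nonneg V (P 0)
    refine ⟨2 * c + 2 * hx V (P 0) + c1, by positivity, fun s => ?_⟩
    have h2 := h1 (P 0) (∑ i : Fin n, s i.succ • P i.succ) (s 0)
    have h3 := hs fun i => s i.succ
    rw [Fin.sum_univ_succ, Fin.sum_univ_succ, add_comm (s 0 • P 0)]
    refine h2.trans ?_
    have h4 : 0 ≤ ∑ i : Fin n, (s i.succ : ℝ) ^ 2 := Finset.sum_nonneg fun i _ => sq_nonneg _
    have h5 : 0 ≤ (s 0 : ℝ) ^ 2 := sq_nonneg _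
    nlinarith [mul_nonneg hc h5, mul_nonneg hP h4, mul_nonneg hc1 h4]

/-- `logHeight₁ (iX P) = hx P` : for `P = (x, y)` this is `logHeight₁_inv` and
`logHeight₁_eq_logHeight`. Here `iX P` is written out by cases on `P`. -/
theorem logHeight_inv_x {x y : k} (h : V.toAffine.Nonsingular x y) :
    logHeight₁ (x⁻¹) = hx V (Point.some x y h) := by
  rw [logHeight₁_inv, logHeight₁_eq_logHeight]
  rfl

end Pool.Agent.PTwist
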