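import Pool.Agent.W_52423f_h30.HtB
import Pool.Agent.W_52423f_h30.Defs

/-!
# Denominators and conjugates of `1 / x(P)`
-/

namespace Pool.Agent.PTwist

open WeierstrassCurve WeierstrassCurve.Affine WeierstrassCurve.Affine.Point Height NumberField

/-- `X s ∈ M` has a denominator `≤ exp (c (1 + |s|²))` and all conjugates
`≤ exp (c (1 + |s|²))` in absolute value. -/
def Grow {M : Type*} [Field M] {n : ℕ} (c : ℝ) (X : (Fin n → ℤ) → M) : Prop :=
  ∀ s : Fin n → ℤ, ∃ b : ℕ, b ≠ 0 ∧ (b : ℝ) ≤ Real.exp (c * (1 + ∑ i, (s i : ℝ) ^ 2)) ∧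
    IsIntegral ℤ ((b : M) * X s) ∧
    ∀ τ : M →+* ℂ, ‖τ (X s)‖ ≤ Real.exp (c * (1 + ∑ i, (s i : ℝ) ^ 2))

variable {M : Type*} [Field M] [NumberField M]

theorem HtC_one_le_prod {ι : Type*} (s : Finset ι) (f : ι → ℝ) (h : ∀ i ∈ s, 1 ≤ f i) :
    1 ≤ ∏ i ∈ s, f i := by
  classical
  induction s using Finset.induction_on with
  | empty => simp
  | insert a s ha ih =>
    rw [Finset.prod_insert ha]
    exact one_le_mul_of_one_le_of_one_le (h a (Finset.mem_insert_self a s))
      (ih fun i hi => h i (Finset.mem_insert_of_mem hi))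

/-- the absolute values of the conjugates are bounded by the height: every factor of
`mulHeight₁` is `≥ 1` (`NumberField.mulHeight₁_eq`, `InfinitePlace.mk`) -/
theorem norm_embedding_le_mulHeight (x : M) (τ : M →+* ℂ) : ‖τ x‖ ≤ mulHeight₁ x := by
  classical
  rw [NumberField.mulHeight₁_eq]
  have h1 : ‖τ x‖ = InfinitePlace.mk τ x := (InfinitePlace.apply τ x).symm
  have h2 : (1 : ℝ) ≤ ∏ᶠ v : FinitePlace M, max (v x) 1 :=
    one_le_finprod fun _ => le_max_right _ _
  have h3 : ‖τ x‖ ≤ ∏ v : InfinitePlace M, max (v x) 1 ^ v.mult := by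
    have h4 : max (InfinitePlace.mk τ x) 1 ^ (InfinitePlace.mk τ).mult ≤
        ∏ v : InfinitePlace M, max (v x) 1 ^ v.mult := by
      rw [← Finset.mul_prod_erase Finset.univ _ (Finset.mem_univ (InfinitePlace.mk τ))]
      apply le_mul_of_one_le_right (by positivity)
      apply HtC_one_le_prod
      intro v _
      exact one_le_pow₀ (le_max_right _ _)
    refine le_trans ?_ h4
    rw [h1]
    refine le_trans (le_max_left _ 1) ?_
    exact le_self_pow₀ (le_max_right _ _) (InfinitePlace.mult_ne_zero)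
  calc ‖τ x‖ = ‖τ x‖ * 1 := (mul_one _).symm
    _ ≤ _ := mul_le_mul h3 h2 zero_le_one
        (Finset.prod_nonneg fun v _ => by positivity)

/-- `exists_nat_le_mulHeight₁`, `norm_embedding_le_mulHeight`, `hx_sum`, `logHeight_inv_x` -/
theorem grow_iX [DecidableEq M] (V : WeierstrassCurve M) [V.IsElliptic] {n : ℕ}
    (P : Fin n → V.toAffine.Point) : ∃ c : ℝ, 0 ≤ c ∧ Grow c fun s => iX V (∑ i, s i • P i) := by
  obtain ⟨c, hc, h⟩ := hx_sum V P
  refine ⟨c, hc, fun s => ?_⟩
  have hpos : 0 ≤ c * (1 + ∑ i, (s i : ℝ) ^ 2) := by positivity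
  have key : mulHeight₁ (iX V (∑ i, s i • P i)) ≤
      Real.exp (c * (1 + ∑ i, (s i : ℝ) ^ 2)) := by
    have h1 := h s
    generalize hQ : (∑ i, s i • P i) = Q at h1 ⊢
    cases Q with
    | zero =>
      have h2 : iX V (Point.zero : V.toAffine.Point) = 0 := rfl
      rw [h2, mulHeight₁_zero]
      exact Real.one_le_exp hpos
    | some x y hxy =>
      rw [iX_some, ← Real.log_le_iff_le_exp (mulHeight₁_pos _), ← logHeight₁_eq_log_mulHeight₁,
        logHeight_inv_x V]
      exact h1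
  obtain ⟨b, hb0, hb1, hb2⟩ := NumberField.exists_nat_le_mulHeight₁ (iX V (∑ i, s i • P i))
  exact ⟨b, hb0, hb1.trans key, hb2, fun τ => (norm_embedding_le_mulHeight _ τ).trans key⟩

end Pool.Agent.PTwist
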