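import Mathlib

/-!
# An element of a number field with only one conjugate is rational
-/

namespace Pool.Agent.PTwist

/-- The conjugates `ι κ` are the roots of the minimal polynomial of `κ` over `ℚ`
(`Algebra.IsAlgebraic.range_eval_eq_rootSet_minpoly`, `RingHom.toRatAlgHom`), which is separable
and splits in `K`; if there is only one root then the degree is one. -/
theorem rational_of_unique {M : Type*} [Field M] [NumberField M] {K : Type*} [Field K]
    [CharZero K] [IsAlgClosed K] {κ : M} {c : K} (h : ∀ ι : M →+* K, ι κ = c) :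
    ∃ q : ℚ, κ = q := by
  classical
  have hint : IsIntegral ℚ κ := Algebra.IsIntegral.isIntegral κ
  have hsub : (minpoly ℚ κ).rootSet K ⊆ {c} := by
    rw [← Algebra.IsAlgebraic.range_eval_eq_rootSet_minpoly (F := ℚ) (K := M) K κ]
    rintro _ ⟨ψ, rfl⟩
    exact h ψ.toRingHom
  have hsep : (minpoly ℚ κ).Separable := (minpoly.irreducible hint).separable
  have hcard := Polynomial.card_rootSet_eq_natDegree (K := K) hsep (IsAlgClosed.splits _)
  have h1 : (minpoly ℚ κ).natDegree ≤ 1 := by
    rw [← hcard]
    refine Fintype.card_le_one_iff.2 ?_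
    rintro ⟨a, ha⟩ ⟨b, hb⟩
    have h2 := hsub ha
    have h3 := hsub hb
    rw [Set.mem_singleton_iff] at h2 h3
    exact Subtype.ext (h2.trans h3.symm)
  have h2 : (minpoly ℚ κ).natDegree = 1 := le_antisymm h1 (minpoly.natDegree_pos hint)
  have h3 : κ ∈ (algebraMap ℚ M).range := minpoly.natDegree_eq_one_iff.1 h2
  obtain ⟨q, hq⟩ := h3
  refine ⟨q, ?_⟩
  rw [← hq]
  rfl

/-- If `ι a` is an embedding of `M` extending `a` for every embedding `a` of `F` and `M / F` is
Galois, then every embedding of `M` is `(ι a) ∘ g` with `a` its restriction to `F`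
(`Normal`: the images of `ι a` and of the given embedding coincide; or
`IsGalois`/`AlgHom.restrictNormal`, or count the embeddings). -/
theorem embedding_eq_comp {F M : Type*} [Field F] [NumberField F] [Field M] [NumberField M]
    [Algebra F M] [IsGalois F M] {K : Type*} [Field K] [CharZero K] [IsAlgClosed K]
    (ι : (F →+* K) → (M →+* K)) (hι : ∀ a, (ι a).comp (algebraMap F M) = a) (τ : M →+* K) :
    ∃ g : M ≃ₐ[F] M, τ = (ι (τ.comp (algebraMap F M))).comp (g : M →+* M) := by
  obtain ⟨a, ha⟩ : ∃ a : F →+* K, a = τ.comp (algebraMap F M) := ⟨_, rfl⟩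
  rw [← ha]
  letI : Algebra F K := a.toAlgebra
  letI : Algebra M K := (ι a).toAlgebra
  have : IsScalarTower F M K := IsScalarTower.of_algebraMap_eq' (hι a).symm
  let τ' : M →ₐ[F] K :=
    { τ with commutes' := fun x => (RingHom.congr_fun ha x).symm }
  refine ⟨AlgHom.restrictNormal' τ' M, RingHom.ext fun x => ?_⟩
  exact (AlgHom.restrictNormal_commutes τ' M x).symm

end Pool.Agent.PTwist
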