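import Pool.Agent.W_52423f_h30.MIndA
import Pool.Agent.W_52423f_h30.Rat

/-!
# Linear independence of the logarithm vectors
-/

namespace Pool.Agent.PTwist

open WeierstrassCurve WeierstrassCurve.Affine Matrix PowerSeries NumberField

variable {F M : Type*} [Field F] [NumberField F] [Field M] [NumberField M] [Algebra F M]
  [IsGalois F M] [DecidableEq M]
variable {K : Type*} [NontriviallyNormedField K] [CompleteSpace K] [IsUltrametricDist K]
  [IsAlgClosed K] [CharZero K] [DecidableEq K] {p : ℕ} [Fact p.Prime] [NormedAlgebra ℚ_[p] K]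
variable {W : WeierstrassCurve F} [(W⁄M).IsElliptic] {n : ℕ}
  {ρ : (M ≃ₐ[F] M) →* GL (Fin n) ℤ} {P Q : Fin n → (W⁄M).toAffine.Point}

/-- Two proportional logarithm vectors.  The coordinates of `P` and of `Q` are independent
(`IsTw.indep`).  Fix one embedding `a₀` of `F` in `K`; `MInd_relation`, `MInd_infinite`,
`MInd_finite` for `ι a₀` give the hypotheses of `exists_kappa`.  Every embedding `τ` of `M` is
`(ι a) ∘ g` (`embedding_eq_comp`), so `relOf` gives `τ κ = c` for all `τ`, and `κ = q` is rational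
(`rational_of_unique`), `c = q = A / B`.  Then `B • Q = A • P`, because `expPt_zsmul`,
`pmap_zsmul`, `pmap_injective`: contradiction. -/
theorem MInd_ratio (hn : 5 ≤ n) (hρ : Irr ρ) (hP : IsTw W ρ P) (hQ : IsTw W ρ Q)
    (hPQ : ∀ A B : ℤ, A • P + B • Q = 0 → A = 0 ∧ B = 0)
    (ι : (F →+* K) → (M →+* K)) (hι : ∀ a, (ι a).comp (algebraMap F M) = a)
    {r₀ : (F →+* K) → ℝ}
    (hLC : ∀ a, LC p ((W⁄M).map (ι a)).b₂ ((W⁄M).map (ι a)).b₄ ((W⁄M).map (ι a)).b₆ (r₀ a))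
    {z : (F →+* K) → Fin n → K} (hz : ∀ a i, ‖z a i‖ ≤ rad (r₀ a))
    (hzP : ∀ a i, expPt ((W⁄M).map (ι a)) (z a i) = pmap (W⁄M) (ι a) (P i))
    {c : K} (hc : ‖c‖ ≤ 1)
    (hzQ : ∀ a i, expPt ((W⁄M).map (ι a)) (c * z a i) = pmap (W⁄M) (ι a) (Q i)) : False := by
  have indP : ∀ s : Fin n → ℤ, ∑ i, s i • P i = 0 → s = 0 := fun s hs =>
    hP.indep hρ (fun N hN h0 => hN (hPQ N 0 (by rw [h0, zero_smul, add_zero])).1) hs
  have indQ : ∀ s : Fin n → ℤ, ∑ i, s i • Q i = 0 → s = 0 := fun s hs =>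
    hQ.indep hρ (fun N hN h0 => hN (hPQ 0 N (by rw [h0, zero_smul, add_zero])).2) hs
  let a₀ : F →+* K := (IsAlgClosed.lift : F →ₐ[ℚ] K).toRingHom
  have hcz : ∀ i, ‖c * z a₀ i‖ ≤ rad (r₀ a₀) := fun i => by
    rw [norm_mul]
    calc ‖c‖ * ‖z a₀ i‖ ≤ 1 * ‖z a₀ i‖ := mul_le_mul_of_nonneg_right hc (norm_nonneg _)
      _ = ‖z a₀ i‖ := one_mul _
      _ ≤ rad (r₀ a₀) := hz a₀ i
  have hXinf := MInd_infinite (W⁄M) (ι a₀) (by omega) (hLC a₀) (hz a₀) (hzP a₀) indP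
  have hU := MInd_finite (W⁄M) (ι a₀) (hLC a₀) hcz (hzQ a₀) indQ
  have hG := MInd_relation (W⁄M) (ι a₀) hn (hLC a₀) hc (hz a₀) (hzP a₀) (hzQ a₀) indP
  obtain ⟨κ, hκ⟩ := exists_kappa (K := K) (V := fun s => iV (W⁄M) (∑ i, s i • P i))
    (by omega : 0 < n) hXinf hU hG
  have hτ : ∀ τ : M →+* K, τ κ = c := by
    intro τ
    obtain ⟨g, hg⟩ := embedding_eq_comp ι hι τ
    have hrel := relOf hP hQ indP (ι (τ.comp (algebraMap F M))) (hLC _) hc (hz _) (hzP _)
      (hzQ _) g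
    have h1 := hκ _ _ _ _ _ hrel
    rw [← hg] at h1
    exact h1
  obtain ⟨q, hq⟩ := rational_of_unique hτ
  have hcq : c * (q.den : K) = (q.num : K) := by
    have h1 : c = (q : K) := by
      rw [← hτ (ι a₀), hq, map_ratCast]
    rw [h1]
    have h2 := Rat.mul_den_eq_num q
    calc (q : K) * (q.den : K) = ((q * q.den : ℚ) : K) := by push_cast; ring
      _ = ((q.num : ℚ) : K) := by rw [h2]
      _ = (q.num : K) := by push_cast; rfl
  have hrel : (-q.num) • P + (q.den : ℤ) • Q = 0 := by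
    funext i
    have h1 : (q.den : ℤ) • Q i = q.num • P i := by
      apply pmap_injective (W⁄M) (ι a₀)
      rw [pmap_zsmul, pmap_zsmul, ← hzQ a₀ i, ← hzP a₀ i, ← expPt_zsmul _ (hLC a₀) (hcz i),
        ← expPt_zsmul _ (hLC a₀) (hz a₀ i)]
      congr 1
      rw [zsmul_eq_mul, zsmul_eq_mul, ← hcq]
      push_cast
      ring
    rw [Pi.add_apply, Pi.smul_apply, Pi.smul_apply, Pi.zero_apply, h1, neg_smul, neg_add_cancel]
  have h3 := (hPQ _ _ hrel).2
  have h4 := q.den_pos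
  omega

/-- The logarithm vectors of two independent points are linearly independent over `K`:
`MInd_ratio` with `c = - x / y` if `‖x‖ ≤ ‖y‖`, and with the roles of `P` and `Q` exchanged
otherwise. -/
theorem logs_indep (hn : 5 ≤ n) (hρ : Irr ρ) (hP : IsTw W ρ P) (hQ : IsTw W ρ Q)
    (hPQ : ∀ A B : ℤ, A • P + B • Q = 0 → A = 0 ∧ B = 0)
    (ι : (F →+* K) → (M →+* K)) (hι : ∀ a, (ι a).comp (algebraMap F M) = a)
    {r₀ : (F →+* K) → ℝ}
    (hLC : ∀ a, LC p ((W⁄M).map (ι a)).b₂ ((W⁄M).map (ι a)).b₄ ((W⁄M).map (ι a)).b₆ (r₀ a))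
    {z w : (F →+* K) → Fin n → K} (hz : ∀ a i, ‖z a i‖ ≤ rad (r₀ a))
    (hw : ∀ a i, ‖w a i‖ ≤ rad (r₀ a))
    (hzP : ∀ a i, expPt ((W⁄M).map (ι a)) (z a i) = pmap (W⁄M) (ι a) (P i))
    (hwQ : ∀ a i, expPt ((W⁄M).map (ι a)) (w a i) = pmap (W⁄M) (ι a) (Q i))
    {x y : K} (hxy : ∀ a i, x * z a i + y * w a i = 0) : x = 0 ∧ y = 0 := by
  by_contra hne
  rcases le_total ‖x‖ ‖y‖ with hle | hle
  · have hy : y ≠ 0 := by
      rintro rfl
      rw [norm_zero] at hle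
      exact hne ⟨norm_le_zero_iff.1 hle, rfl⟩
    refine MInd_ratio hn hρ hP hQ hPQ ι hι hLC hz hzP (c := -x / y) ?_ ?_
    · rw [norm_div, norm_neg]
      exact div_le_one_of_le₀ hle (norm_nonneg _)
    · intro a i
      rw [← hwQ a i]
      congr 1
      rw [div_mul_eq_mul_div, div_eq_iff hy]
      linear_combination -hxy a i
  · have hx : x ≠ 0 := by
      rintro rfl
      rw [norm_zero] at hle
      exact hne ⟨rfl, norm_le_zero_iff.1 hle⟩
    refine MInd_ratio hn hρ hQ hP (fun A B h => ?_) ι hι hLC hw hwQ (c := -y / x) ?_ ?_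
    · rw [add_comm] at h
      exact (hPQ B A h).symm
    · rw [norm_div, norm_neg]
      exact div_le_one_of_le₀ hle (norm_nonneg _)
    · intro a i
      rw [← hzP a i]
      congr 1
      rw [div_mul_eq_mul_div, div_eq_iff hx]
      linear_combination -hxy a i

end Pool.Agent.PTwist
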