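import Pool.Agent.W_52423f_h30.RelOf

/-!
# The algebraic relation for proportional logarithm vectors
-/

namespace Pool.Agent.PTwist

open WeierstrassCurve WeierstrassCurve.Affine Matrix PowerSeries NumberField

section one

variable {M : Type*} [Field M] [NumberField M] [DecidableEq M]
variable {K : Type*} [NontriviallyNormedField K] [CompleteSpace K] [IsUltrametricDist K]
  [DecidableEq K] {p : ℕ} [Fact p.Prime] [NormedAlgebra ℚ_[p] K]
variable (V : WeierstrassCurve M) [V.IsElliptic] (ι : M →+* K) {n : ℕ} {r₀ : ℝ}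

theorem MIndA_neg (z : Fin n → K) (t : Fin n → ℤ) :
    ∑ i, (((-t) i : ℤ) : K) * z i = -∑ i, (t i : K) * z i := by
  rw [← Finset.sum_neg_distrib]
  refine Finset.sum_congr rfl fun i _ => ?_
  rw [Pi.neg_apply]
  push_cast
  ring

include ι in
theorem MIndA_pm (hLC : LC p (V.map ι).b₂ (V.map ι).b₄ (V.map ι).b₆ r₀)
    {P : Fin n → V.toAffine.Point} {z : Fin n → K} (hz : ∀ i, ‖z i‖ ≤ rad r₀)
    (hP : ∀ i, expPt (V.map ι) (z i) = pmap V ι (P i))
    (hind : ∀ s : Fin n → ℤ, ∑ i, s i • P i = 0 → s = 0) {s t : Fin n → ℤ}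
    (h : iX V (∑ i, s i • P i) = iX V (∑ i, t i • P i)) : s = t ∨ s = -t := by
  have hinj := RelOf_injective V ι hLC hz hP hind
  have h1 := congrArg ι h
  rw [RelOf_iX V ι hLC hz hP s, RelOf_iX V ι hLC hz hP t] at h1
  rcases hLC.ev_eq (RelOf_norm hz p hLC.rad_pos.le s) (RelOf_norm hz p hLC.rad_pos.le t) h1 with
    h2 | h2
  · exact Or.inl (hinj h2)
  · refine Or.inr (hinj ?_)
    show ∑ i, (s i : K) * z i = ∑ i, (((-t) i : ℤ) : K) * z i
    rw [MIndA_neg]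
    exact h2

omit [NumberField M] [DecidableEq M] in
theorem MIndA_grow {X : (Fin n → ℤ) → M} {c c' : ℝ} (hc : c ≤ c') (h : Grow c X) : Grow c' X := by
  intro s
  obtain ⟨b, h1, h2, h3, h4⟩ := h s
  have h5 : Real.exp (c * (1 + ∑ i, (s i : ℝ) ^ 2)) ≤ Real.exp (c' * (1 + ∑ i, (s i : ℝ) ^ 2)) := by
    refine Real.exp_le_exp.2 (mul_le_mul_of_nonneg_right hc ?_)
    positivity
  exact ⟨b, h1, h2.trans h5, h3, fun τ => (h4 τ).trans h5⟩

/-- Only finitely many (at most two) `s` have the same `X s`, by `LC.ev_eq` and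
`RelOf_injective`. -/
theorem MInd_infinite (hn : 0 < n) (hLC : LC p (V.map ι).b₂ (V.map ι).b₄ (V.map ι).b₆ r₀)
    {P : Fin n → V.toAffine.Point} {z : Fin n → K} (hz : ∀ i, ‖z i‖ ≤ rad r₀)
    (hP : ∀ i, expPt (V.map ι) (z i) = pmap V ι (P i))
    (hind : ∀ s : Fin n → ℤ, ∑ i, s i • P i = 0 → s = 0) :
    (Set.range fun s : Fin n → ℤ => iX V (∑ i, s i • P i)).Infinite := by
  have hinj : Function.Injective fun k : ℕ =>
      iX V (∑ i, (fun j : Fin n => if j = ⟨0, hn⟩ then (k : ℤ) else 0) i • P i) := by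
    intro k k' h
    have h0 := MIndA_pm V ι hLC hz hP hind h
    rcases h0 with h1 | h1
    · have h2 := congrFun h1 ⟨0, hn⟩
      simp only [if_true] at h2
      exact_mod_cast h2
    · have h2 := congrFun h1 ⟨0, hn⟩
      simp only [if_true, Pi.neg_apply] at h2
      omega
  exact Set.infinite_of_injective_forall_mem hinj fun k => ⟨_, rfl⟩

/-- `iV (∑ i, s i • Q i) = 0` only for `s = 0` (`RelOf_iV`, `LC.norm_ev'`, `RelOf_injective`). -/
theorem MInd_finite (hLC : LC p (V.map ι).b₂ (V.map ι).b₄ (V.map ι).b₆ r₀)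
    {Q : Fin n → V.toAffine.Point} {w : Fin n → K} (hw : ∀ i, ‖w i‖ ≤ rad r₀)
    (hQ : ∀ i, expPt (V.map ι) (w i) = pmap V ι (Q i))
    (hind : ∀ s : Fin n → ℤ, ∑ i, s i • Q i = 0 → s = 0) :
    {s : Fin n → ℤ | iV V (∑ i, s i • Q i) = 0}.Finite := by
  have hinj := RelOf_injective V ι hLC hw hQ hind
  refine (Set.finite_singleton (0 : Fin n → ℤ)).subset fun s hs => ?_
  have h1 : iV V (∑ i, s i • Q i) = 0 := hs
  have h2 := RelOf_iV V ι hLC hw hQ s
  rw [h1, map_zero] at h2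
  have h3 := hLC.norm_ev' (RelOf_norm hw p hLC.rad_pos.le s)
  rw [show fe (V.map ι).b₂ (V.map ι).b₄ (V.map ι).b₆ = fV (V.map ι) from rfl, ← h2, norm_zero] at h3
  have h4 : ∑ i, (s i : K) * w i = 0 := by
    rcases mul_eq_zero.1 h3.symm with h5 | h5
    · exact absurd (norm_eq_zero.1 h5) (Exp_two_ne (p := p) K)
    · exact norm_eq_zero.1 h5
  refine Set.mem_singleton_iff.2 (hinj ?_)
  show ∑ i, (s i : K) * w i = ∑ i, (((0 : Fin n → ℤ) i : ℤ) : K) * w i
  rw [h4]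
  simp

/-- The algebraic relation.  `core` with `f₁ = f`, `f₂ = rescale c f`, `z s = ∑ s i z i`,
`grow_iX` for `P` and `Q` (take the maximum of the two constants), `RelOf_iX`, `ev_rescale`,
`LC.bd`, `LC.mul_rad_lt`; then `Alg_poly`. -/
theorem MInd_relation (hn : 5 ≤ n) (hLC : LC p (V.map ι).b₂ (V.map ι).b₄ (V.map ι).b₆ r₀)
    {P Q : Fin n → V.toAffine.Point} {z : Fin n → K} {c : K} (hc : ‖c‖ ≤ 1)
    (hz : ∀ i, ‖z i‖ ≤ rad r₀)
    (hzP : ∀ i, expPt (V.map ι) (z i) = pmap V ι (P i))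
    (hzQ : ∀ i, expPt (V.map ι) (c * z i) = pmap V ι (Q i))
    (hind : ∀ s : Fin n → ℤ, ∑ i, s i • P i = 0 → s = 0) :
    ∃ G : Polynomial (Polynomial M), G ≠ 0 ∧ ∀ s : Fin n → ℤ,
      Polynomial.evalEval (iX V (∑ i, s i • P i)) (iX V (∑ i, s i • Q i)) G = 0 := by
  obtain ⟨c₁, hc₁, hP⟩ := grow_iX V P
  obtain ⟨c₂, hc₂, hQ⟩ := grow_iX V Q
  have hcz : ∀ i, ‖c * z i‖ ≤ rad r₀ := by
    intro i
    rw [norm_mul]
    calc ‖c‖ * ‖z i‖ ≤ 1 * ‖z i‖ := mul_le_mul_of_nonneg_right hc (norm_nonneg _)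
      _ ≤ rad r₀ := by rw [one_mul]; exact hz i
  have h2 := hLC.two_le
  have hbd : Bd r₀ 1 (fV (V.map ι)) := hLC.bd
  obtain ⟨D, g, hg, hv⟩ := core (p := p) hn (c := max c₁ c₂) (le_max_of_le_left hc₁)
    (MIndA_grow (le_max_left _ _) hP) (MIndA_grow (le_max_right _ _) hQ) ι
    (f₁ := fV (V.map ι)) (f₂ := PowerSeries.rescale c (fV (V.map ι))) (ρ := r₀) (r := rad r₀)
    (by linarith) hLC.mul_rad_lt hbd (hbd.rescale hc)
    (RelOf_injective V ι hLC hz hzP hind) (RelOf_norm hz p hLC.rad_pos.le)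
    (RelOf_iX V ι hLC hz hzP) (by
      intro s
      rw [ev_rescale, RelOf_iX V ι hLC hcz hzQ s, Finset.mul_sum]
      congr 1
      refine Finset.sum_congr rfl fun i _ => ?_
      ring)
  obtain ⟨G, hG, h3⟩ := Alg_poly g hg
  exact ⟨G, hG, fun s => by rw [h3, hv s]⟩

end one

end Pool.Agent.PTwist
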