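import Pool.Agent.W_52423f_h30.Defs

/-!
# Differences of close points are near the origin
-/

namespace Pool.Agent.PTwist

open WeierstrassCurve WeierstrassCurve.Affine

variable {K : Type*} [NormedField K] [IsUltrametricDist K] [DecidableEq K]
  (V : WeierstrassCurve K)

/-- y-coordinates of points with bounded x-coordinate are bounded (from the Weierstrass equation:
`‖y‖² ≤ max (‖a₁ x + a₃‖ ‖y‖) (...)`). -/
theorem TorB_bound_y (B : ℝ) : ∃ B' : ℝ, ∀ (x y : K), V.toAffine.Equation x y → ‖x‖ ≤ B →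
    ‖y‖ ≤ B' := by
  set M0 : ℝ := |B| ^ 3 + ‖V.a₂‖ * |B| ^ 2 + ‖V.a₄‖ * |B| + ‖V.a₆‖ with hM0
  set M1 : ℝ := ‖V.a₁‖ * |B| + ‖V.a₃‖ with hM1
  have hM0' : 0 ≤ M0 := by positivity
  have hM1' : 0 ≤ M1 := by positivity
  refine ⟨1 + M0 + M1, fun x y hE hx => ?_⟩
  have hx' : ‖x‖ ≤ |B| := hx.trans (le_abs_self B)
  have hx0 : 0 ≤ ‖x‖ := norm_nonneg x
  have e : y ^ 2 = x ^ 3 + V.a₂ * x ^ 2 + V.a₄ * x + V.a₆ - (V.a₁ * x + V.a₃) * y := by
    have := (equation_iff (W := V.toAffine) x y).1 hE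
    linear_combination this
  have h1 : ‖x ^ 3 + V.a₂ * x ^ 2 + V.a₄ * x + V.a₆‖ ≤ M0 := by
    refine (norm_add_le _ _).trans (add_le_add ?_ le_rfl)
    refine (norm_add_le _ _).trans (add_le_add ?_ ?_)
    · refine (norm_add_le _ _).trans (add_le_add ?_ ?_)
      · rw [norm_pow]
        exact pow_le_pow_left₀ hx0 hx' 3
      · rw [norm_mul, norm_pow]
        exact mul_le_mul_of_nonneg_left (pow_le_pow_left₀ hx0 hx' 2) (norm_nonneg _)
    · rw [norm_mul]
      exact mul_le_mul_of_nonneg_left hx' (norm_nonneg _)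
  have h2 : ‖V.a₁ * x + V.a₃‖ ≤ M1 := by
    refine (norm_add_le _ _).trans (add_le_add ?_ le_rfl)
    rw [norm_mul]
    exact mul_le_mul_of_nonneg_left hx' (norm_nonneg _)
  have h3 : ‖y‖ ^ 2 ≤ M0 + M1 * ‖y‖ := by
    rw [← norm_pow, e]
    refine (norm_sub_le _ _).trans (add_le_add h1 ?_)
    rw [norm_mul]
    exact mul_le_mul_of_nonneg_right h2 (norm_nonneg _)
  by_contra hc
  push Not at hc
  have h4 : 1 < ‖y‖ := by linarith
  nlinarith [mul_pos (sub_pos.2 hc) (lt_trans one_pos h4), mul_nonneg hM0' (sub_nonneg.2 h4.le)]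

/-- Let `P = (x, y)`, `Q = (x', y')` be close and `η = 2 y + a₁ x + a₃` not small.  Then
`P - Q` is near the origin.  If `P = Q` this is trivial.  If `x ≠ x'` then `P - Q` has x-coordinate
`λ² + a₁ λ - a₂ - x - x'` (`add_of_X_ne`, `slope_of_X_ne`, `addX`) with
`λ = (y - negY x' y') / (x - x')`, and `y - negY x' y' = η + ((y' - y) + a₁ (x' - x))` has norm
`≥ δ' ` once `δ` is small, so `‖λ‖ ≥ δ' / δ` is large and `‖λ² + ...‖ = ‖λ‖²`-ish is large.
If `x = x'` and `y ≠ y'` then `y' = negY x y`, so `y - y' = η`; this is excluded by `δ ≤ δ'`. -/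
theorem TorB_diff (B R δ' : ℝ) (hδ' : 0 < δ') : ∃ δ > 0, ∀ (x y x' y' : K)
    (h : V.toAffine.Nonsingular x y) (h' : V.toAffine.Nonsingular x' y'), ‖x‖ ≤ B → ‖x'‖ ≤ B →
    ‖x - x'‖ < δ → ‖y - y'‖ < δ → δ' ≤ ‖2 * y + V.a₁ * x + V.a₃‖ →
    Near V R (Point.some x y h - Point.some x' y' h') := by
  set C : ℝ := 1 + ‖V.a₁‖ + ‖V.a₂‖ + 2 * |B| + |R| with hC
  have hC1 : 1 ≤ C := by
    have := norm_nonneg V.a₁
    have := norm_nonneg V.a₂
    have := abs_nonneg B
    have := abs_nonneg R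
    rw [hC]
    linarith
  have hC0 : 0 < C := lt_of_lt_of_le one_pos hC1
  refine ⟨δ' / (2 * C), by positivity, fun x y x' y' h h' hx hx' hxx hyy hη => ?_⟩
  set δ : ℝ := δ' / (2 * C) with hδ
  have hδ0 : 0 < δ := by positivity
  have hCδ : C * δ = δ' / 2 := by
    rw [hδ]
    field_simp
  have ha1 := norm_nonneg V.a₁
  have ha2 := norm_nonneg V.a₂
  have hB0 := abs_nonneg B
  have hR0 := abs_nonneg R
  have hnegy : V.toAffine.negY x' y' = -y' - V.a₁ * x' - V.a₃ := rfl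
  have hnum : δ' / 2 ≤ ‖y - V.toAffine.negY x' y'‖ := by
    have e : 2 * y + V.a₁ * x + V.a₃ = (y - V.toAffine.negY x' y') +
        ((y - y') + V.a₁ * (x - x')) := by
      rw [hnegy]
      ring
    have h1 : ‖(y - y') + V.a₁ * (x - x')‖ ≤ δ + ‖V.a₁‖ * δ := by
      refine (norm_add_le _ _).trans (add_le_add hyy.le ?_)
      rw [norm_mul]
      exact mul_le_mul_of_nonneg_left hxx.le ha1
    have h2 : ‖2 * y + V.a₁ * x + V.a₃‖ ≤ ‖y - V.toAffine.negY x' y'‖ +
        ‖(y - y') + V.a₁ * (x - x')‖ := by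
      rw [e]
      exact norm_add_le _ _
    have h3 : δ + ‖V.a₁‖ * δ ≤ C * δ := by
      have : (1 + ‖V.a₁‖) ≤ C := by
        rw [hC]
        linarith
      nlinarith
    linarith
  rw [sub_eq_add_neg, Point.neg_some]
  by_cases hX : x = x'
  · left
    refine Point.add_of_Y_eq hX ?_
    rw [negY_negY]
    rcases Y_eq_of_X_eq h.1 h'.1 hX with h1 | h1
    · exact h1
    · exfalso
      rw [h1, sub_self, norm_zero] at hnum
      linarith
  · right
    rw [Point.add_of_X_ne hX]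
    refine ⟨_, _, _, rfl, ?_⟩
    rw [slope_of_X_ne hX]
    set l : K := (y - V.toAffine.negY x' y') / (x - x') with hl
    have hxne : 0 < ‖x - x'‖ := norm_pos_iff.2 (sub_ne_zero.2 hX)
    have hlC : C ≤ ‖l‖ := by
      rw [hl, norm_div, le_div_iff₀ hxne]
      calc C * ‖x - x'‖ ≤ C * δ := mul_le_mul_of_nonneg_left hxx.le hC0.le
        _ = δ' / 2 := hCδ
        _ ≤ _ := hnum
    have e : l ^ 2 = V.toAffine.addX x x' l + (V.a₂ + x + x' - V.a₁ * l) := by
      rw [addX]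
      ring
    have h1 : ‖l‖ ^ 2 ≤ ‖V.toAffine.addX x x' l‖ + (‖V.a₂‖ + |B| + |B| + ‖V.a₁‖ * ‖l‖) := by
      rw [← norm_pow, e]
      refine (norm_add_le _ _).trans (add_le_add le_rfl ?_)
      refine (norm_sub_le _ _).trans (add_le_add ?_ (norm_mul_le _ _))
      refine (norm_add_le _ _).trans (add_le_add ?_ (hx'.trans (le_abs_self B)))
      exact (norm_add_le _ _).trans (add_le_add le_rfl (hx.trans (le_abs_self B)))
    have h2 : C * (C - ‖V.a₁‖) ≤ ‖l‖ * (‖l‖ - ‖V.a₁‖) := by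
      have h3 : 0 ≤ C - ‖V.a₁‖ := by
        rw [hC]
        linarith
      exact mul_le_mul hlC (by linarith) h3 (norm_nonneg _)
    have h3 : (C - ‖V.a₁‖) ≤ C * (C - ‖V.a₁‖) := by
      have h3 : 0 ≤ C - ‖V.a₁‖ := by
        rw [hC]
        linarith
      nlinarith
    have h4 : C - ‖V.a₁‖ = 1 + ‖V.a₂‖ + 2 * |B| + |R| := by
      rw [hC]
      ring
    have h5 := le_abs_self R
    nlinarith

end Pool.Agent.PTwist
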