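import Pool.Agent.W_52423f_h30.Defs

/-!
# Doubling a point close to a point of order two
-/

namespace Pool.Agent.PTwist

open WeierstrassCurve WeierstrassCurve.Affine

section Poly

variable {k : Type*} [Field k] (V : WeierstrassCurve k)

/-- The polynomials `x⁴ - b₄ x² - 2 b₆ x - b₈` and `4 x³ + b₂ x² + 2 b₄ x + b₆` are coprime:
`U(x) (x⁴ - b₄ x² - 2 b₆ x - b₈) + T(x) (4 x³ + b₂ x² + 2 b₄ x + b₆) = Δ` with
`U = - 48 x² - 8 b₂ x - 32 b₄ + b₂²` and `T = 12 x³ - b₂ x² - 10 b₄ x + b₂ b₄ - 27 b₆`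
(checked by computer; uses `b_relation : 4 b₈ = b₂ b₆ - b₄²`). -/
theorem TorC_bezout : ∃ U T : Polynomial k, ∀ x : k,
    U.eval x * (x ^ 4 - V.b₄ * x ^ 2 - 2 * V.b₆ * x - V.b₈) +
      T.eval x * (4 * x ^ 3 + V.b₂ * x ^ 2 + 2 * V.b₄ * x + V.b₆) = V.Δ := by
  refine ⟨Polynomial.C (-48) * Polynomial.X ^ 2 - Polynomial.C (8 * V.b₂) * Polynomial.X +
      Polynomial.C (-32 * V.b₄ + V.b₂ ^ 2),
    Polynomial.C 12 * Polynomial.X ^ 3 - Polynomial.C V.b₂ * Polynomial.X ^ 2 -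
      Polynomial.C (10 * V.b₄) * Polynomial.X + Polynomial.C (V.b₂ * V.b₄ - 27 * V.b₆), ?_⟩
  intro x
  simp only [Polynomial.eval_add, Polynomial.eval_sub, Polynomial.eval_mul, Polynomial.eval_pow,
    Polynomial.eval_C, Polynomial.eval_X, WeierstrassCurve.Δ]
  linear_combination (12 * x ^ 2 + 2 * x * V.b₂ + 8 * V.b₄) * V.b_relation

/-- Doubling formula: if `η = 2 y + a₁ x + a₃ ≠ 0` then `P + P = (x₃, y₃)` with
`x₃ η² = x⁴ - b₄ x² - 2 b₆ x - b₈` -/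
theorem TorC_double [DecidableEq k] {x y : k} (h : V.toAffine.Nonsingular x y)
    (hη : 2 * y + V.a₁ * x + V.a₃ ≠ 0) :
    ∃ (x₃ y₃ : k) (h₃ : V.toAffine.Nonsingular x₃ y₃),
      Point.some x y h + Point.some x y h = Point.some x₃ y₃ h₃ ∧
      x₃ * (2 * y + V.a₁ * x + V.a₃) ^ 2 = x ^ 4 - V.b₄ * x ^ 2 - 2 * V.b₆ * x - V.b₈ := by
  have e := (V.toAffine.equation_iff x y).mp h.1
  have hY : y ≠ V.toAffine.negY x y := by
    intro hc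
    apply hη
    have hc' : y = -y - V.a₁ * x - V.a₃ := hc
    linear_combination hc'
  refine ⟨_, _, nonsingular_add h h fun hxy => hY hxy.right, Point.add_self_of_Y_ne hY, ?_⟩
  rw [V.toAffine.slope_of_Y_ne rfl hY]
  obtain ⟨l, hl⟩ : ∃ l, l = (3 * x ^ 2 + 2 * V.toAffine.a₂ * x + V.toAffine.a₄ -
    V.toAffine.a₁ * y) / (y - V.toAffine.negY x y) := ⟨_, rfl⟩
  rw [← hl]
  have hl' : l * (2 * y + V.a₁ * x + V.a₃) = 3 * x ^ 2 + 2 * V.a₂ * x + V.a₄ - V.a₁ * y := by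
    have h1 : y - V.toAffine.negY x y = 2 * y + V.a₁ * x + V.a₃ := by
      rw [WeierstrassCurve.Affine.negY]
      ring
    rw [hl, h1, div_mul_cancel₀ _ hη]
  have h3 : V.toAffine.addX x x l * (2 * y + V.a₁ * x + V.a₃) ^ 2 =
      (3 * x ^ 2 + 2 * V.a₂ * x + V.a₄ - V.a₁ * y) ^ 2 +
      V.a₁ * (3 * x ^ 2 + 2 * V.a₂ * x + V.a₄ - V.a₁ * y) * (2 * y + V.a₁ * x + V.a₃) -
      (V.a₂ + 2 * x) * (2 * y + V.a₁ * x + V.a₃) ^ 2 := by
    rw [WeierstrassCurve.Affine.addX, ← hl']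
    ring
  rw [h3]
  simp only [WeierstrassCurve.b₂, WeierstrassCurve.b₄, WeierstrassCurve.b₆, WeierstrassCurve.b₈]
  linear_combination (-8 * x - V.a₁ ^ 2 - 4 * V.a₂) * e

end Poly

variable {K : Type*} [NormedField K] [IsUltrametricDist K] [DecidableEq K]
  (V : WeierstrassCurve K)

omit [IsUltrametricDist K] [DecidableEq K] in
theorem TorC_bdd (p : Polynomial K) (B : ℝ) : ∃ C : ℝ, 0 < C ∧ ∀ x : K, ‖x‖ ≤ B →
    ‖p.eval x‖ ≤ C := by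
  refine ⟨1 + ∑ i ∈ Finset.range (p.natDegree + 1), ‖p.coeff i‖ * |B| ^ i, ?_, ?_⟩
  · have : 0 ≤ ∑ i ∈ Finset.range (p.natDegree + 1), ‖p.coeff i‖ * |B| ^ i :=
      Finset.sum_nonneg fun i _ => by positivity
    linarith
  · intro x hx
    rw [Polynomial.eval_eq_sum_range]
    refine (norm_sum_le _ _).trans ?_
    have h1 : ∑ i ∈ Finset.range (p.natDegree + 1), ‖p.coeff i * x ^ i‖ ≤
        ∑ i ∈ Finset.range (p.natDegree + 1), ‖p.coeff i‖ * |B| ^ i := by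
      refine Finset.sum_le_sum fun i _ => ?_
      rw [norm_mul, norm_pow]
      exact mul_le_mul_of_nonneg_left
        (pow_le_pow_left₀ (norm_nonneg x) (hx.trans (le_abs_self B)) i) (norm_nonneg _)
    linarith

/-- If `η = 0` then `2 P = 0` (`y = negY x y`).  Otherwise `x₃ η² = x⁴ - ...` (`TorC_double`),
where `η² = 4 x³ + b₂ x² + 2 b₄ x + b₆` is small; `TorC_bezout` shows that `x⁴ - ...` is bounded
from below (`U` and `T` are bounded on `‖x‖ ≤ B`), so `‖x₃‖` is large. -/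
theorem TorC_near [V.IsElliptic] (B R : ℝ) : ∃ δ > 0, ∀ (x y : K) (h : V.toAffine.Nonsingular x y),
    ‖x‖ ≤ B → ‖2 * y + V.a₁ * x + V.a₃‖ < δ →
    Near V R (Point.some x y h + Point.some x y h) := by
  obtain ⟨U, T, hUT⟩ := TorC_bezout V
  obtain ⟨CU, hCU, hU⟩ := TorC_bdd U B
  obtain ⟨CT, hCT, hT⟩ := TorC_bdd T B
  have hΔ0 : V.Δ ≠ 0 := V.isUnit_Δ.ne_zero
  have hΔ : 0 < ‖V.Δ‖ := norm_pos_iff.mpr hΔ0
  obtain ⟨M, hM⟩ : ∃ M : ℝ, M = 2 * (CT + CU) * (|R| + 1) := ⟨_, rfl⟩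
  have hR0 : 0 ≤ |R| := abs_nonneg R
  have hMpos : 0 < M := by rw [hM]; positivity
  refine ⟨min 1 (‖V.Δ‖ / M), lt_min one_pos (div_pos hΔ hMpos), ?_⟩
  intro x y h hx hη
  by_cases h0 : 2 * y + V.a₁ * x + V.a₃ = 0
  · left
    refine Point.add_self_of_Y_eq ?_
    rw [WeierstrassCurve.Affine.negY]
    linear_combination h0
  · right
    obtain ⟨x₃, y₃, h₃, hadd, hx₃⟩ := TorC_double V h h0
    refine ⟨x₃, y₃, h₃, hadd, ?_⟩
    obtain ⟨η, hηdef⟩ : ∃ η, η = 2 * y + V.a₁ * x + V.a₃ := ⟨_, rfl⟩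
    rw [← hηdef] at h0 hη hx₃
    obtain ⟨A, hA⟩ : ∃ A, A = x ^ 4 - V.b₄ * x ^ 2 - 2 * V.b₆ * x - V.b₈ := ⟨_, rfl⟩
    have e := (V.toAffine.equation_iff x y).mp h.1
    have hη2 : 4 * x ^ 3 + V.b₂ * x ^ 2 + 2 * V.b₄ * x + V.b₆ = η ^ 2 := by
      rw [hηdef]
      simp only [WeierstrassCurve.b₂, WeierstrassCurve.b₄, WeierstrassCurve.b₆]
      linear_combination (-4 : K) * e
    have hb := hUT x
    rw [hη2, ← hA] at hb
    rw [← hA] at hx₃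
    have hη0 : 0 < ‖η‖ := norm_pos_iff.mpr h0
    have hη1 : ‖η‖ < 1 := hη.trans_le (min_le_left _ _)
    have hη3 : ‖η‖ < ‖V.Δ‖ / M := hη.trans_le (min_le_right _ _)
    have hη4 : ‖η‖ ^ 2 ≤ ‖η‖ := by nlinarith
    have hη5 : ‖η‖ ^ 2 * M < ‖V.Δ‖ := by
      have := (lt_div_iff₀ hMpos).mp hη3
      nlinarith
    have h1 : ‖V.Δ‖ ≤ CU * ‖A‖ + CT * ‖η‖ ^ 2 := by
      rw [← hb]
      refine (norm_add_le _ _).trans ?_
      rw [norm_mul, norm_mul, norm_pow]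
      exact add_le_add (mul_le_mul_of_nonneg_right (hU x hx) (norm_nonneg _))
        (mul_le_mul_of_nonneg_right (hT x hx) (by positivity))
    have h2 : ‖A‖ = ‖x₃‖ * ‖η‖ ^ 2 := by rw [← hx₃, norm_mul, norm_pow]
    by_contra hcon
    have hcon' : ‖x₃‖ ≤ |R| := (not_lt.mp hcon).trans (le_abs_self R)
    have hsq : 0 < ‖η‖ ^ 2 := by positivity
    have h3 : ‖A‖ ≤ |R| * ‖η‖ ^ 2 := by
      rw [h2]
      exact mul_le_mul_of_nonneg_right hcon' hsq.le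
    have h4 : ‖V.Δ‖ ≤ CU * (|R| * ‖η‖ ^ 2) + CT * ‖η‖ ^ 2 :=
      h1.trans (by gcongr)
    have h5 : CU * (|R| * ‖η‖ ^ 2) + CT * ‖η‖ ^ 2 ≤ ‖η‖ ^ 2 * M := by
      rw [hM]
      have : 0 ≤ ‖η‖ ^ 2 * (CU * |R| + 2 * CU + 2 * CT * |R| + CT) := by positivity
      nlinarith
    linarith

end Pool.Agent.PTwist
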