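import Pool.Agent.W_52423f_h30.TorA
import Pool.Agent.W_52423f_h30.TorB
import Pool.Agent.W_52423f_h30.TorC
import Pool.Agent.W_52423f_h30.PMap
import Pool.Agent.W_52423f_h30.NearGrp

/-!
# A multiple of every point is near the origin
-/

namespace Pool.Agent.PTwist

open WeierstrassCurve WeierstrassCurve.Affine

variable {M : Type*} [Field M] [NumberField M] [DecidableEq M] (V : WeierstrassCurve M)
  [V.IsElliptic]
variable {K : Type*} [NontriviallyNormedField K] [CompleteSpace K] [IsUltrametricDist K]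
  [DecidableEq K] [IsAlgClosed K]

instance Tor_elliptic (ι : M →+* K) : (V.map ι).IsElliptic := inferInstance

/-- If some multiple `(k + 1) P` is zero or has `‖ι x‖ > R` this multiple works.  Otherwise all
x-coordinates are bounded by `R`, and the y-coordinates too (`TorB_bound_y`); apply `TorA_close`
to the coordinates of the `(k + 1) P` with `δ` from `TorB_diff` (for `B = R` and `δ'` from
`TorC_near`): for `k < l` the points `(k + 1) P`, `(l + 1) P` are close.  If `‖η‖ ≥ δ'` at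
`(l + 1) P` then `(l - k) P` is near the origin, otherwise `2 (l + 1) P` is. -/
theorem exists_near (p : ℕ) [Fact p.Prime] [NormedAlgebra ℚ_[p] K] (ι : M →+* K)
    (P : V.toAffine.Point) (R : ℝ) :
    ∃ N : ℕ, 0 < N ∧ Near (V.map ι) R (pmap V ι ((N : ℤ) • P)) := by
  by_contra hneg
  push Not at hneg
  have hpt : ∀ k : ℕ, ∃ (x y : M) (h : V.toAffine.Nonsingular x y),
      ((k + 1 : ℕ) : ℤ) • P = Point.some x y h ∧ ‖ι x‖ ≤ R := by
    intro k
    have h1 := hneg (k + 1) (Nat.succ_pos k)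
    rcases hQ : ((k + 1 : ℕ) : ℤ) • P with _ | ⟨x, y, h⟩
    · exfalso
      rw [hQ] at h1
      exact h1 (Or.inl rfl)
    · refine ⟨x, y, h, rfl, ?_⟩
      rw [hQ] at h1
      by_contra hx
      exact h1 (Or.inr ⟨ι x, ι y, _, pmap_some V ι h, not_le.1 hx⟩)
  choose x y h hk hxR using hpt
  have hns : ∀ k, (V.map ι).toAffine.Nonsingular (ι (x k)) (ι (y k)) := fun k =>
    (map_nonsingular _ ι.injective (x k) (y k)).mpr (h k)
  have hpm : ∀ k, pmap V ι (((k + 1 : ℕ) : ℤ) • P) = Point.some (ι (x k)) (ι (y k)) (hns k) := by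
    intro k
    rw [hk k]
    exact pmap_some V ι (h k)
  obtain ⟨B', hB'⟩ := TorB_bound_y (V.map ι) R
  obtain ⟨δ', hδ', hC⟩ := TorC_near (V.map ι) R R
  obtain ⟨δ, hδ, hD⟩ := TorB_diff (V.map ι) R R δ' hδ'
  obtain ⟨k, l, hkl, hx, hy⟩ := TorA_close p ι (fun k => (x k, y k)) (B := max R B')
    (fun k => ⟨(hxR k).trans (le_max_left _ _),
      (hB' _ _ (hns k).1 (hxR k)).trans (le_max_right _ _)⟩) hδ
  simp only at hx hy
  by_cases hη : ‖2 * ι (y l) + (V.map ι).a₁ * ι (x l) + (V.map ι).a₃‖ < δ'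
  · have h1 := hC _ _ (hns l) (hxR l) hη
    rw [← hpm l, ← pmap_add, ← add_smul] at h1
    apply hneg (2 * (l + 1)) (by omega)
    have e : (((l + 1 : ℕ) : ℤ) + ((l + 1 : ℕ) : ℤ)) = ((2 * (l + 1) : ℕ) : ℤ) := by
      push_cast
      ring
    rwa [e] at h1
  · have h1 := hD _ _ _ _ (hns l) (hns k) (hxR l) (hxR k) (by rwa [norm_sub_rev])
      (by rwa [norm_sub_rev]) (not_lt.1 hη)
    rw [← hpm l, ← hpm k, ← pmap_sub, ← sub_smul] at h1
    apply hneg (l - k) (by omega)
    have e : (((l + 1 : ℕ) : ℤ) - ((k + 1 : ℕ) : ℤ)) = ((l - k : ℕ) : ℤ) := by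
      omega
    rwa [e] at h1

/-- For finitely many points and embeddings: product of the `N`, `near_zsmul` (for `R` at least the
maximum of the `R₀` of the finitely many curves, `near_mono`). -/
theorem exists_near_family (p : ℕ) [Fact p.Prime] [NormedAlgebra ℚ_[p] K] {T : Type*} [Finite T]
    (ι : T → (M →+* K)) (P : T → V.toAffine.Point) (R : ℝ) :
    ∃ N : ℕ, 0 < N ∧ ∀ t, Near (V.map (ι t)) R (pmap V (ι t) ((N : ℤ) • P t)) := by
  classical
  have := Fintype.ofFinite T
  choose R₀ hR₀ using fun t => near_zsmul (V.map (ι t)) p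
  obtain ⟨R₁, hR₁⟩ := Finite.exists_le R₀
  choose N hN0 hN using fun t => exists_near V p (ι t) (P t) (max R R₁)
  refine ⟨∏ t, N t, Finset.prod_pos fun t _ => hN0 t, fun t => ?_⟩
  obtain ⟨m, hm⟩ := Finset.dvd_prod_of_mem N (Finset.mem_univ t)
  have e : (((∏ t, N t : ℕ)) : ℤ) • P t = (m : ℤ) • ((N t : ℤ) • P t) := by
    rw [hm, smul_smul]
    congr 1
    push_cast
    ring
  rw [e, pmap_zsmul]
  exact near_mono _ (le_max_left R R₁)
    (hR₀ t (max R R₁) ((hR₁ t).trans (le_max_right _ _)) _ m (hN t))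

end Pool.Agent.PTwist
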