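import Pool.Agent.W_52423f_h30.MInd
import Pool.Agent.W_52423f_h30.Clos
import Pool.Agent.W_52423f_h30.Tor
import Pool.Agent.W_52423f_h30.Grp

/-!
# The closure of a subgroup of rank two of the twist
-/

namespace Pool.Agent.PTwist

open WeierstrassCurve WeierstrassCurve.Affine

variable {F M : Type*} [Field F] [NumberField F] [Field M] [NumberField M] [Algebra F M]
  [IsGalois F M] [DecidableEq M]
variable {K : Type*} [NontriviallyNormedField K] [CompleteSpace K] [IsUltrametricDist K]
  [IsAlgClosed K] [CharZero K] [DecidableEq K] {p : ℕ} [Fact p.Prime] [NormedAlgebra ℚ_[p] K]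

/-- The theorem over a general field `K`. Let `u` be as in `Grp_basis` (`d = 2`).  By
`exists_near_family` (for the finite family of all pairs of an embedding `a` and a coordinate
`(j, i)`, with `R` the maximum of the constants in `expPt_surj`) there is `N > 0` such that all
`ι a (N • u j i)` are `exp (z j (a, i))`.  `logs_indep` for `P = N • u 0`, `Q = N • u 1` gives the
independence over `ℤ_p` and `clos_hasRank` the conclusion; the finite set is the image of that of
`Grp_basis`. -/
theorem main_general (W : WeierstrassCurve F) [W.IsElliptic] {n : ℕ} (hn : 5 ≤ n)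
    (ρ : (M ≃ₐ[F] M) →* Matrix.GeneralLinearGroup (Fin n) ℤ) (hρ : Irr ρ)
    (ι : (F →+* K) → (M →+* K)) (hι : ∀ a, (ι a).comp (algebraMap F M) = a)
    (L : AddSubgroup (Fin n → (W⁄M).toAffine.Point)) (hL : ∀ P ∈ L, IsTw W ρ P) (hfg : L.FG)
    (hr : Module.finrank ℤ L = 2) :
    HasRank (fun t : (F →+* K) × Fin n => (W⁄M).map (ι t.1)) p 2
      (clos (fun t : (F →+* K) × Fin n => (W⁄M).map (ι t.1))
        ((fun P t => pmap (W⁄M) (ι t.1) (P t.2)) '' (L : Set (Fin n → (W⁄M).toAffine.Point)))) := by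
  classical
  have hE : (W⁄M).IsElliptic :=
    inferInstanceAs (W.map (algebraMap F M)).IsElliptic
  have hEa : ∀ a : F →+* K, ((W⁄M).map (ι a)).IsElliptic := fun a =>
    inferInstanceAs ((W⁄M).map (ι a)).IsElliptic
  have hEt : ∀ t : (F →+* K) × Fin n, ((W⁄M).map (ι t.1)).IsElliptic := fun t => hEa t.1
  obtain ⟨u, huL, huind, hucos⟩ := Grp_basis hfg hr
  choose r₀ hLC using fun a : F →+* K => exists_LC p ((W⁄M).map (ι a)).b₂ ((W⁄M).map (ι a)).b₄
    ((W⁄M).map (ι a)).b₆
  choose R hR using fun a : F →+* K => expPt_surj ((W⁄M).map (ι a)) (hLC a)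
  obtain ⟨R₁, hR₁⟩ := Finite.exists_le R
  obtain ⟨N, hN0, hN⟩ := exists_near_family (W⁄M) (K := K) p
    (T := (F →+* K) × (Fin 2 × Fin n)) (fun t => ι t.1) (fun t => u t.2.1 t.2.2) R₁
  have hex : ∀ (j : Fin 2) (a : F →+* K) (i : Fin n), ∃ z : K, ‖z‖ ≤ rad (r₀ a) ∧
      expPt ((W⁄M).map (ι a)) z = pmap (W⁄M) (ι a) ((N : ℤ) • u j i) := fun j a i =>
    hR a _ (near_mono _ (hR₁ a) (hN (a, (j, i))))
  choose z hz hzu using hex
  -- the homomorphism to the product
  let f : (Fin n → (W⁄M).toAffine.Point) →+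
      ((t : (F →+* K) × Fin n) → ((W⁄M).map (ι t.1)).toAffine.Point) :=
    { toFun := fun P t => pmap (W⁄M) (ι t.1) (P t.2)
      map_zero' := by
        funext t
        exact pmap_zero (W⁄M) (ι t.1)
      map_add' := by
        intro P Q
        funext t
        exact pmap_add (W⁄M) (ι t.1) (P t.2) (Q t.2) }
  have hf : ∀ P t, f P t = pmap (W⁄M) (ι t.1) (P t.2) := fun P t => rfl
  have hNz : (N : ℤ) ≠ 0 := by exact_mod_cast hN0.ne'
  obtain ⟨A, hA⟩ := hucos N hNz
  refine clos_hasRank (fun t : (F →+* K) × Fin n => (W⁄M).map (ι t.1))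
    (r₀ := fun t => r₀ t.1) (z := fun j t => z j t.1 t.2)
    (u := fun j => f ((N : ℤ) • u j)) (A := A.image f) (fun t => hLC t.1)
    (fun j t => hz j t.1 t.2) ?_ ?_ ?_ ?_
  · -- independence
    intro a ha
    have h1 := logs_indep hn hρ (P := (N : ℤ) • u 0) (Q := (N : ℤ) • u 1)
      (IsTw.zsmul (hL _ (huL 0)) N) (IsTw.zsmul (hL _ (huL 1)) N) ?_ ι hι hLC
      (z := z 0) (w := z 1) (hz 0) (hz 1) (hzu 0) (hzu 1)
      (x := algebraMap ℚ_[p] K (a 0 : ℚ_[p])) (y := algebraMap ℚ_[p] K (a 1 : ℚ_[p])) ?_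
    · have h2 : ∀ b : ℤ_[p], algebraMap ℚ_[p] K (b : ℚ_[p]) = 0 → b = 0 := by
        intro b hb
        have h3 := (map_eq_zero (algebraMap ℚ_[p] K)).1 hb
        exact Subtype.ext h3
      funext j
      fin_cases j
      · exact h2 _ h1.1
      · exact h2 _ h1.2
    · intro A' B' hAB
      have h3 := huind ![A' * N, B' * N] (by
        rw [Fin.sum_univ_two]
        simp only [Matrix.cons_val_zero, Matrix.cons_val_one]
        rw [mul_smul, mul_smul]
        exact hAB)
      have h4 := congrFun h3 0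
      have h5 := congrFun h3 1
      simp only [Matrix.cons_val_zero, Matrix.cons_val_one, Pi.zero_apply] at h4 h5
      exact ⟨(mul_eq_zero.1 h4).resolve_right hNz, (mul_eq_zero.1 h5).resolve_right hNz⟩
    · intro b i
      have h6 := ha (b, i)
      rw [Fin.sum_univ_two] at h6
      exact h6
  · intro j t
    rw [hf]
    exact hzu j t.1 t.2
  · intro m
    refine ⟨∑ j, m j • ((N : ℤ) • u j), ?_, ?_⟩
    · exact sum_mem fun j _ => zsmul_mem (zsmul_mem (huL j) _) _
    · change f (∑ j, m j • ((N : ℤ) • u j)) = _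
      rw [map_sum]
      exact Finset.sum_congr rfl fun j _ => map_zsmul f _ _
  · rintro x ⟨P, hP, rfl⟩
    obtain ⟨s, hs, m, hm⟩ := hA P hP
    refine ⟨f s, Finset.mem_image_of_mem f hs, m, ?_⟩
    change f P = _
    rw [hm, map_add, map_sum]
    congr 1
    exact Finset.sum_congr rfl fun j _ => map_zsmul f _ _

end Pool.Agent.PTwist
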