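import Pool.Agent.W_52423f_h30.PMap
import Pool.Agent.W_52423f_h30.ExpAdd

/-!
# Values at integral combinations
-/

namespace Pool.Agent.PTwist

open WeierstrassCurve WeierstrassCurve.Affine Matrix PowerSeries

variable {M : Type*} [Field M] [DecidableEq M]
variable {K : Type*} [NontriviallyNormedField K] [CompleteSpace K] [IsUltrametricDist K]
  [DecidableEq K] {p : ℕ} [Fact p.Prime] [NormedAlgebra ℚ_[p] K]

section

variable (V : WeierstrassCurve M) [V.IsElliptic] (ι : M →+* K) {n : ℕ} {r₀ : ℝ}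

/-- a sum of integral multiples stays in the ball -/
theorem RelOf_norm {z : Fin n → K} (hz : ∀ i, ‖z i‖ ≤ rad r₀) (p : ℕ) [Fact p.Prime]
    [NormedAlgebra ℚ_[p] K] (h0 : 0 ≤ rad r₀) (s : Fin n → ℤ) :
    ‖∑ i, (s i : K) * z i‖ ≤ rad r₀ := by
  refine IsUltrametricDist.norm_sum_le_of_forall_le_of_nonneg h0 fun i _ => ?_
  rw [norm_mul]
  have h1 := IsUltrametricDist.norm_intCast_le_one K (s i)
  have h2 := norm_nonneg (z i)
  have h3 := hz i
  nlinarith

/-- the exponential of an integral combination -/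
theorem RelA_key (hLC : LC p (V.map ι).b₂ (V.map ι).b₄ (V.map ι).b₆ r₀)
    {P : Fin n → V.toAffine.Point} {z : Fin n → K} (hz : ∀ i, ‖z i‖ ≤ rad r₀)
    (hP : ∀ i, expPt (V.map ι) (z i) = pmap V ι (P i)) (s : Fin n → ℤ) :
    expPt (V.map ι) (∑ i, (s i : K) * z i) = pmap V ι (∑ i, s i • P i) := by
  have h1 : ∑ i, (s i : K) * z i = ∑ i, s i • z i :=
    Finset.sum_congr rfl fun i _ => (zsmul_eq_mul _ _).symm
  rw [h1, expPt_sum (V.map ι) hLC Finset.univ s z fun i _ => hz i, pmap_sum]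
  refine Finset.sum_congr rfl fun i _ => ?_
  rw [hP i, pmap_zsmul]

/-- `expPt_sum`, `pmap_sum`, `pmap_zsmul`, `iX_expPt`, `iX_pmap` -/
theorem RelOf_iX (hLC : LC p (V.map ι).b₂ (V.map ι).b₄ (V.map ι).b₆ r₀)
    {P : Fin n → V.toAffine.Point} {z : Fin n → K} (hz : ∀ i, ‖z i‖ ≤ rad r₀)
    (hP : ∀ i, expPt (V.map ι) (z i) = pmap V ι (P i)) (s : Fin n → ℤ) :
    ι (iX V (∑ i, s i • P i)) = ev (fV (V.map ι)) (∑ i, (s i : K) * z i) := by
  rw [← iX_pmap, ← RelA_key V ι hLC hz hP s]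
  exact iX_expPt (V.map ι) hLC (RelOf_norm hz p hLC.rad_pos.le s)

theorem RelOf_iV (hLC : LC p (V.map ι).b₂ (V.map ι).b₄ (V.map ι).b₆ r₀)
    {P : Fin n → V.toAffine.Point} {z : Fin n → K} (hz : ∀ i, ‖z i‖ ≤ rad r₀)
    (hP : ∀ i, expPt (V.map ι) (z i) = pmap V ι (P i)) (s : Fin n → ℤ) :
    ι (iV V (∑ i, s i • P i)) =
      ev (derivative K (fV (V.map ι))) (∑ i, (s i : K) * z i) := by
  rw [← iV_pmap, ← RelA_key V ι hLC hz hP s]
  exact iV_expPt (V.map ι) hLC (RelOf_norm hz p hLC.rad_pos.le s)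

/-- if the points are independent then so are their logarithms -/
theorem RelOf_injective (hLC : LC p (V.map ι).b₂ (V.map ι).b₄ (V.map ι).b₆ r₀)
    {P : Fin n → V.toAffine.Point} {z : Fin n → K} (hz : ∀ i, ‖z i‖ ≤ rad r₀)
    (hP : ∀ i, expPt (V.map ι) (z i) = pmap V ι (P i))
    (hind : ∀ s : Fin n → ℤ, ∑ i, s i • P i = 0 → s = 0) :
    Function.Injective fun s : Fin n → ℤ => ∑ i, (s i : K) * z i := by
  intro s t hst
  have hst' : ∑ i, (s i : K) * z i = ∑ i, (t i : K) * z i := hst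
  have h1 : pmap V ι (∑ i, s i • P i) = pmap V ι (∑ i, t i • P i) := by
    rw [← RelA_key V ι hLC hz hP s, ← RelA_key V ι hLC hz hP t, hst']
  have h2 : ∑ i, s i • P i = ∑ i, t i • P i := pmap_injective V ι h1
  have h3 : ∑ i, (s - t) i • P i = 0 := by
    simp only [Pi.sub_apply, sub_smul, Finset.sum_sub_distrib]
    rw [h2, sub_self]
  exact sub_eq_zero.1 (hind _ h3)

end

end Pool.Agent.PTwist
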