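import Pool.Agent.W_52423f_h30.Tw
import Pool.Agent.W_52423f_h30.RelA
import Pool.Agent.W_52423f_h30.AlgB

/-!
# The relation data of a pair of proportional logarithm vectors
-/

namespace Pool.Agent.PTwist

open WeierstrassCurve WeierstrassCurve.Affine Matrix PowerSeries

variable {M : Type*} [Field M] [DecidableEq M]
variable {K : Type*} [NontriviallyNormedField K] [CompleteSpace K] [IsUltrametricDist K]
  [DecidableEq K] {p : ℕ} [Fact p.Prime] [NormedAlgebra ℚ_[p] K]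

variable {F : Type*} [Field F] [Algebra F M] {W : WeierstrassCurve F} [(W⁄M).IsElliptic] {n : ℕ}
  {ρ : (M ≃ₐ[F] M) →* GL (Fin n) ℤ} {P Q : Fin n → (W⁄M).toAffine.Point}

/-- The relation data for the embedding `ι ∘ g`: the points are `z' s = ∑ i, t i * z i` with
`t = s ᵥ* ρ(g)⁻¹`.  By `iX_map`, `IsTw.map_sum` and `RelOf_iX`
`ι (g (X s)) = ι (iX (g (∑ s i P i))) = ι (iX (∑ t i P i)) = f (z' s)`; the same for `Q` with
`c z i` instead of `z i`, and for `iV`. -/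
theorem relOf (hP : IsTw W ρ P) (hQ : IsTw W ρ Q)
    (hind : ∀ s : Fin n → ℤ, ∑ i, s i • P i = 0 → s = 0) (ι : M →+* K) {r₀ : ℝ}
    (hLC : LC p ((W⁄M).map ι).b₂ ((W⁄M).map ι).b₄ ((W⁄M).map ι).b₆ r₀) {z : Fin n → K} {c : K}
    (hc : ‖c‖ ≤ 1) (hz : ∀ i, ‖z i‖ ≤ rad r₀)
    (hzP : ∀ i, expPt ((W⁄M).map ι) (z i) = pmap (W⁄M) ι (P i))
    (hzQ : ∀ i, expPt ((W⁄M).map ι) (c * z i) = pmap (W⁄M) ι (Q i)) (g : M ≃ₐ[F] M) :
    Rel (fun s => iX (W⁄M) (∑ i, s i • P i)) (fun s => iX (W⁄M) (∑ i, s i • Q i))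
      (fun s => iV (W⁄M) (∑ i, s i • P i)) (fun s => iV (W⁄M) (∑ i, s i • Q i))
      (fV ((W⁄M).map ι)) r₀ (rad r₀) (ι.comp (g : M →+* M)) c := by
  have hρ0 : (0 : ℝ) ≤ r₀ := by linarith [hLC.two_le]
  have hcz : ∀ i, ‖c * z i‖ ≤ rad r₀ := fun i => by
    rw [norm_mul]
    calc ‖c‖ * ‖z i‖ ≤ 1 * rad r₀ :=
          mul_le_mul hc (hz i) (norm_nonneg _) zero_le_one
      _ = rad r₀ := one_mul _
  have hsum : ∀ t : Fin n → ℤ, ∑ i, (t i : K) * (c * z i) = c * ∑ i, (t i : K) * z i := by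
    intro t
    rw [Finset.mul_sum]
    exact Finset.sum_congr rfl fun i _ => by ring
  refine ⟨hρ0, hLC.rad_pos, hLC.mul_rad_lt, hLC.bd, hc, ?_⟩
  refine ⟨fun s => ∑ i, ((s ᵥ* ((ρ g)⁻¹ : GL (Fin n) ℤ).val) i : K) * z i, ?_, ?_, ?_, ?_,
    ?_, ?_⟩
  · exact (RelOf_injective (W⁄M) ι hLC hz hzP hind).comp (Tw_vecMul_injective ((ρ g)⁻¹))
  · intro s
    exact RelOf_norm hz p hLC.rad_pos.le _
  · intro s
    have h1 := iX_map W (g : M →ₐ[F] M) (∑ i, s i • P i)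
    rw [hP.map_sum g s] at h1
    change ι (g (iX (W⁄M) (∑ i, s i • P i))) = _
    have h2 : g (iX (W⁄M) (∑ i, s i • P i)) =
        iX (W⁄M) (∑ i, (s ᵥ* ((ρ g)⁻¹ : GL (Fin n) ℤ).val) i • P i) := h1.symm
    rw [h2]
    exact RelOf_iX (W⁄M) ι hLC hz hzP _
  · intro s
    have h1 := iX_map W (g : M →ₐ[F] M) (∑ i, s i • Q i)
    rw [hQ.map_sum g s] at h1
    change ι (g (iX (W⁄M) (∑ i, s i • Q i))) = _
    have h2 : g (iX (W⁄M) (∑ i, s i • Q i)) =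
        iX (W⁄M) (∑ i, (s ᵥ* ((ρ g)⁻¹ : GL (Fin n) ℤ).val) i • Q i) := h1.symm
    rw [h2, ← hsum]
    exact RelOf_iX (W⁄M) ι hLC hcz hzQ _
  · intro s
    have h1 := iV_map W (g : M →ₐ[F] M) (∑ i, s i • P i)
    rw [hP.map_sum g s] at h1
    change ι (g (iV (W⁄M) (∑ i, s i • P i))) = _
    have h2 : g (iV (W⁄M) (∑ i, s i • P i)) =
        iV (W⁄M) (∑ i, (s ᵥ* ((ρ g)⁻¹ : GL (Fin n) ℤ).val) i • P i) := h1.symm
    rw [h2]
    exact RelOf_iV (W⁄M) ι hLC hz hzP _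
  · intro s
    have h1 := iV_map W (g : M →ₐ[F] M) (∑ i, s i • Q i)
    rw [hQ.map_sum g s] at h1
    change ι (g (iV (W⁄M) (∑ i, s i • Q i))) = _
    have h2 : g (iV (W⁄M) (∑ i, s i • Q i)) =
        iV (W⁄M) (∑ i, (s ᵥ* ((ρ g)⁻¹ : GL (Fin n) ℤ).val) i • Q i) := h1.symm
    rw [h2, ← hsum]
    exact RelOf_iV (W⁄M) ι hLC hcz hzQ _

end Pool.Agent.PTwist
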