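import Mathlib

/-!
# The power series `f = 1 / x (exp z)` of an elliptic curve

`f = z ^ 2 + ...` is the solution of `f'' = 2 + b₂ f + 3 b₄ f ^ 2 + 2 b₆ f ^ 3`,
`f 0 = f' 0 = 0`; it satisfies `f' ^ 2 = 4 f + b₂ f ^ 2 + 2 b₄ f ^ 3 + b₆ f ^ 4`.
-/

namespace Pool.Agent.PTwist

open PowerSeries

section Formal

variable {k : Type*} [Field k]

/-- `2 + b₂ f + 3 b₄ f ^ 2 + 2 b₆ f ^ 3` -/
noncomputable def rhs (b₂ b₄ b₆ : k) (f : PowerSeries k) : PowerSeries k :=
  2 + C b₂ * f + C (3 * b₄) * f ^ 2 + C (2 * b₆) * f ^ 3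

/-- `4 f + b₂ f ^ 2 + 2 b₄ f ^ 3 + b₆ f ^ 4` -/
noncomputable def qq (b₂ b₄ b₆ : k) (f : PowerSeries k) : PowerSeries k :=
  4 * f + C b₂ * f ^ 2 + C (2 * b₄) * f ^ 3 + C b₆ * f ^ 4

/-- the second antiderivative with vanishing first two coefficients -/
noncomputable def int2 (g : PowerSeries k) : PowerSeries k :=
  PowerSeries.mk fun n => if n < 2 then 0 else coeff (n - 2) g / ((n : k) * ((n : k) - 1))

/-- the power series `f`, as the fixed point of `f ↦ int2 (rhs f)` -/
noncomputable def fe (b₂ b₄ b₆ : k) : PowerSeries k :=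
  PowerSeries.mk fun n => coeff n ((fun f => int2 (rhs b₂ b₄ b₆ f))^[n] 0)

variable (b₂ b₄ b₆ : k)

theorem Ser_sub_dvd (f g : PowerSeries k) : f - g ∣ rhs b₂ b₄ b₆ f - rhs b₂ b₄ b₆ g := by
  refine ⟨C b₂ + C (3 * b₄) * (f + g) + C (2 * b₆) * (f ^ 2 + f * g + g ^ 2), ?_⟩
  unfold rhs
  ring

theorem Ser_coeff_int2 (g : PowerSeries k) (n : ℕ) :
    coeff n (int2 g) = if n < 2 then 0 else coeff (n - 2) g / ((n : k) * ((n : k) - 1)) := by
  unfold int2
  rw [coeff_mk]

theorem Ser_coeff_fe (n : ℕ) :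
    coeff n (fe b₂ b₄ b₆) = coeff n ((fun f => int2 (rhs b₂ b₄ b₆ f))^[n] 0) := by
  unfold fe
  rw [coeff_mk]

/-- If `f` and `g` have the same coefficients below `n` then `int2 (rhs f)` and `int2 (rhs g)` have
the same coefficients below `n + 1` (even `n + 2`). -/
theorem Ser_contract {f g : PowerSeries k} {n : ℕ} (h : ∀ i < n, coeff i f = coeff i g) :
    ∀ i < n + 1, coeff i (int2 (rhs b₂ b₄ b₆ f)) = coeff i (int2 (rhs b₂ b₄ b₆ g)) := by
  intro i hi
  rw [Ser_coeff_int2, Ser_coeff_int2]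
  split_ifs with h2
  · rfl
  · have h3 : X ^ n ∣ rhs b₂ b₄ b₆ f - rhs b₂ b₄ b₆ g := by
      refine dvd_trans (X_pow_dvd_iff.2 fun m hm => ?_) (Ser_sub_dvd b₂ b₄ b₆ f g)
      rw [map_sub, h m hm, sub_self]
    have h4 := X_pow_dvd_iff.1 h3 (i - 2) (by omega)
    rw [map_sub] at h4
    rw [sub_eq_zero.1 h4]

theorem Ser_iter (n : ℕ) : ∀ m, n ≤ m → ∀ i < n + 1,
    coeff i ((fun f => int2 (rhs b₂ b₄ b₆ f))^[n] 0) =
      coeff i ((fun f => int2 (rhs b₂ b₄ b₆ f))^[m] 0) := by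
  induction n with
  | zero =>
    intro m _ i hi
    have hi0 : i = 0 := by omega
    subst hi0
    cases m with
    | zero => rfl
    | succ m =>
      rw [Function.iterate_succ_apply', Ser_coeff_int2, if_pos (by norm_num)]
      exact map_zero _
  | succ n ih =>
    intro m hm i hi
    obtain ⟨m', rfl⟩ : ∃ m', m = m' + 1 := ⟨m - 1, by omega⟩
    rw [Function.iterate_succ_apply', Function.iterate_succ_apply']
    exact Ser_contract b₂ b₄ b₆ (ih m' (by omega)) i hi

theorem Ser_fe_iter (m : ℕ) : ∀ i < m + 1, coeff i (fe b₂ b₄ b₆) =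
    coeff i ((fun f => int2 (rhs b₂ b₄ b₆ f))^[m] 0) := by
  intro i hi
  rw [Ser_coeff_fe]
  exact Ser_iter b₂ b₄ b₆ i m (by omega) i (by omega)

/-- By `Ser_contract` and induction the `n`-th and all later iterates have the same coefficients
below `n + 1`; hence `fe` is a fixed point. -/
theorem fe_fix : fe b₂ b₄ b₆ = int2 (rhs b₂ b₄ b₆ (fe b₂ b₄ b₆)) := by
  ext n
  rw [Ser_fe_iter b₂ b₄ b₆ (n + 1) n (by omega), Function.iterate_succ_apply']
  exact Ser_contract b₂ b₄ b₆ (n := n + 1) (fun i hi => (Ser_fe_iter b₂ b₄ b₆ n i hi).symm) n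
    (by omega)

theorem fe_coeff_zero : coeff 0 (fe b₂ b₄ b₆) = 0 := by
  rw [fe_fix, Ser_coeff_int2, if_pos (by norm_num)]

theorem fe_coeff_one : coeff 1 (fe b₂ b₄ b₆) = 0 := by
  rw [fe_fix, Ser_coeff_int2, if_pos (by norm_num)]

theorem Ser_rhs_zero : coeff 0 (rhs b₂ b₄ b₆ (fe b₂ b₄ b₆)) = 2 := by
  have h0 : constantCoeff (fe b₂ b₄ b₆) = 0 := by
    rw [← coeff_zero_eq_constantCoeff_apply]
    exact fe_coeff_zero b₂ b₄ b₆
  rw [coeff_zero_eq_constantCoeff_apply]
  unfold rhs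
  simp only [map_add, map_mul, map_pow, h0, map_ofNat]
  ring

theorem fe_coeff_two [CharZero k] : coeff 2 (fe b₂ b₄ b₆) = 1 := by
  rw [fe_fix, Ser_coeff_int2, if_neg (by norm_num), Nat.sub_self, Ser_rhs_zero]
  norm_num

/-- the differential equation, from `fe_fix` -/
theorem fe_ode [CharZero k] :
    derivative k (derivative k (fe b₂ b₄ b₆)) = rhs b₂ b₄ b₆ (fe b₂ b₄ b₆) := by
  ext n
  rw [coeff_derivative, coeff_derivative]
  have h1 : coeff (n + 1 + 1) (fe b₂ b₄ b₆) =
      coeff n (rhs b₂ b₄ b₆ (fe b₂ b₄ b₆)) / (((n + 1 + 1 : ℕ) : k) * (((n + 1 + 1 : ℕ) : k) - 1)) := by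
    conv_lhs => rw [fe_fix]
    rw [Ser_coeff_int2, if_neg (by omega)]
    rfl
  rw [h1]
  have h2 : ((n : k) + 1) ≠ 0 := Nat.cast_add_one_ne_zero n
  have h3 : ((n : k) + 1 + 1) ≠ 0 := by
    have h4 := Nat.cast_add_one_ne_zero (R := k) (n + 1)
    push_cast at h4
    exact h4
  push_cast
  rw [add_sub_cancel_right]
  field_simp

/-- Both sides have constant coefficient `0` and the derivative of the difference is
`2 f' (f'' - rhs f) = 0`. -/
theorem fe_sq [CharZero k] :
    derivative k (fe b₂ b₄ b₆) ^ 2 = qq b₂ b₄ b₆ (fe b₂ b₄ b₆) := by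
  set f := fe b₂ b₄ b₆ with hf
  have hode := fe_ode b₂ b₄ b₆
  rw [← hf] at hode
  apply derivative.ext
  · have h1 : derivative k (derivative k f ^ 2) =
        2 * derivative k f * derivative k (derivative k f) := by
      rw [derivative_pow]
      push_cast
      ring
    rw [h1, hode]
    unfold qq rhs
    have h2 : derivative k (4 : PowerSeries k) = 0 := by
      have h3 : (4 : PowerSeries k) = C (4 : k) := by rw [map_ofNat]
      rw [h3, derivative_C]
    rw [map_add, map_add, map_add, Derivation.leibniz, Derivation.leibniz, Derivation.leibniz,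
      Derivation.leibniz, h2, derivative_C, derivative_C, derivative_C, derivative_pow,
      derivative_pow, derivative_pow]
    simp only [smul_eq_mul, map_mul, map_ofNat]
    push_cast
    ring
  · have h0 : constantCoeff f = 0 := by
      rw [← coeff_zero_eq_constantCoeff_apply, hf]
      exact fe_coeff_zero b₂ b₄ b₆
    have h1 : constantCoeff (derivative k f) = 0 := by
      rw [← coeff_zero_eq_constantCoeff_apply, coeff_derivative, hf]
      rw [zero_add, fe_coeff_one, zero_mul]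
    unfold qq
    simp only [map_add, map_mul, map_pow, h0, h1]
    ring

theorem Ser_rescale_int2 (g : PowerSeries k) :
    rescale (-1 : k) (int2 g) = int2 (rescale (-1 : k) g) := by
  ext n
  rw [coeff_rescale, Ser_coeff_int2, Ser_coeff_int2]
  split_ifs with h
  · rw [mul_zero]
  · obtain ⟨m, rfl⟩ : ∃ m, n = m + 2 := ⟨n - 2, by omega⟩
    rw [Nat.add_sub_cancel, coeff_rescale, pow_add]
    ring

theorem Ser_rescale_C (a : k) : rescale (-1 : k) (C a) = C a := by
  ext n
  rw [coeff_rescale, coeff_C]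
  split_ifs with h
  · rw [h, pow_zero, one_mul]
  · rw [mul_zero]

theorem Ser_rescale_rhs (f : PowerSeries k) :
    rescale (-1 : k) (rhs b₂ b₄ b₆ f) = rhs b₂ b₄ b₆ (rescale (-1 : k) f) := by
  unfold rhs
  simp only [map_add, map_mul, map_pow, Ser_rescale_C, map_ofNat]

/-- `fe` is even: `int2 (rhs f)` is even for even `f`, so all iterates are even. -/
theorem fe_even : rescale (-1 : k) (fe b₂ b₄ b₆) = fe b₂ b₄ b₆ := by
  have key : ∀ n : ℕ, rescale (-1 : k) ((fun f => int2 (rhs b₂ b₄ b₆ f))^[n] 0) =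
      (fun f => int2 (rhs b₂ b₄ b₆ f))^[n] 0 := by
    intro n
    induction n with
    | zero => exact map_zero _
    | succ n ih =>
      rw [Function.iterate_succ_apply']
      show rescale (-1 : k) (int2 (rhs b₂ b₄ b₆ _)) = int2 (rhs b₂ b₄ b₆ _)
      rw [Ser_rescale_int2, Ser_rescale_rhs, ih]
  ext n
  rw [coeff_rescale, Ser_coeff_fe, ← coeff_rescale, key]

end Formal

end Pool.Agent.PTwist
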