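import Mathlib

/-!
# The definitions used in the statement

Twists of powers of elliptic curves, neighbourhoods of the origin, closures and their rank.
-/

namespace Pool.Agent.PTwist

open WeierstrassCurve WeierstrassCurve.Affine Matrix

/-- `P` is the point at infinity or has `‖x(P)‖ > R` -/
def Near {K : Type*} [NormedField K] (V : WeierstrassCurve K) (R : ℝ) (P : V.toAffine.Point) :
    Prop :=
  P = 0 ∨ ∃ (x y : K) (h : V.toAffine.Nonsingular x y), P = .some x y h ∧ R < ‖x‖

/-- the image of a point under a homomorphism of fields: `(x, y) ↦ (ι x, ι y)` -/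
def pmap {k K : Type*} [Field k] [Field K] (V : WeierstrassCurve k) (ι : k →+* K) :
    V.toAffine.Point → (V.map ι).toAffine.Point
  | .zero => .zero
  | .some x y h => .some (ι x) (ι y) ((map_nonsingular _ ι.injective x y).mpr h)

/-- `Λ = ℤ ^ n` with the action `ρ` of the group is irreducible over `ℚ`: there is no stable
subspace of `ℚ ^ n` besides `0` and `ℚ ^ n`. -/
def Irr {G : Type*} [Group G] {n : ℕ} (ρ : G →* GL (Fin n) ℤ) : Prop :=
  ∀ U : Submodule ℚ (Fin n → ℚ),
    (∀ g, ∀ u ∈ U, ((ρ g : Matrix (Fin n) (Fin n) ℤ).map (Int.cast : ℤ → ℚ)) *ᵥ u ∈ U) →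
      U = ⊥ ∨ U = ⊤

/-- The `F`-rational points of the twist `E ⊗ Λ` of `E ^ n` by `ρ : Gal(M/F) → GL n ℤ`: the
vectors `P ∈ E(M) ^ n` with `P i = ∑ j, ρ(g) i j • g (P j)` for all `g` and `i`. -/
def IsTw {F M : Type*} [Field F] [Field M] [Algebra F M] [DecidableEq M]
    (W : WeierstrassCurve F) {n : ℕ} (ρ : (M ≃ₐ[F] M) →* GL (Fin n) ℤ)
    (P : Fin n → (W⁄M).toAffine.Point) : Prop :=
  ∀ (g : M ≃ₐ[F] M) (i : Fin n),
    P i = ∑ j, (ρ g : Matrix (Fin n) (Fin n) ℤ) i j • Point.map (g : M →ₐ[F] M) (P j)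

section

variable {K : Type*} [NormedField K] [DecidableEq K] {T : Type*} (C : T → WeierstrassCurve K)

/-- the closure of a set `S` of points of the product of the curves `C t`: the points `h` such
that for all `R` some element `s` of `S` satisfies: `h t - s t` is the origin or has
x-coordinate of norm `> R`, for all `t` -/
def clos (S : Set ((t : T) → (C t).toAffine.Point)) : Set ((t : T) → (C t).toAffine.Point) :=
  {h | ∀ R : ℝ, ∃ s ∈ S, ∀ t, Near (C t) R (h t - s t)}

/-- `H` has `ℤ_p`-rank `d`: there is an injective continuous homomorphism `φ` from `ℤ_p ^ d` with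
values in `H` such that `H` is covered by finitely many cosets of the image of `φ`. -/
def HasRank (p : ℕ) [Fact p.Prime] (d : ℕ) (H : Set ((t : T) → (C t).toAffine.Point)) : Prop :=
  ∃ φ : (Fin d → ℤ_[p]) →+ ((t : T) → (C t).toAffine.Point), Function.Injective φ ∧
    (∀ R : ℝ, ∃ k : ℕ, ∀ a : Fin d → ℤ_[p], (∀ j, ‖a j‖ * (p : ℝ) ^ k ≤ 1) →
      ∀ t, Near (C t) R (φ a t)) ∧
    (∀ a, φ a ∈ H) ∧
    ∃ A : Finset ((t : T) → (C t).toAffine.Point), ∀ h ∈ H, ∃ s ∈ A, ∃ a, h = s + φ a

end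

end Pool.Agent.PTwist
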