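import Mathlib

/-!
# Compactness: elements of a number field in an ultrametric field
-/

namespace Pool.Agent.PTwist

variable {M : Type*} [Field M] [NumberField M]
variable {K : Type*} [NormedField K] {p : ℕ} [Fact p.Prime] [NormedAlgebra ℚ_[p] K]

theorem TorA_mem (p : ℕ) [Fact p.Prime] [NormedAlgebra ℚ_[p] K] (ι : M →+* K) (x : M) :
    ι x ∈ Submodule.span ℚ_[p]
      (Set.range fun i => ι (Module.finBasis ℚ M i)) := by
  rw [← (Module.finBasis ℚ M).sum_repr x, map_sum]
  refine Submodule.sum_mem _ fun i _ => ?_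
  have h1 : ι ((Module.finBasis ℚ M).repr x i • Module.finBasis ℚ M i) =
      (((Module.finBasis ℚ M).repr x i : ℚ) : ℚ_[p]) • ι (Module.finBasis ℚ M i) := by
    rw [Algebra.smul_def, map_mul, Algebra.smul_def]
    congr 1
    simp
  rw [h1]
  exact Submodule.smul_mem _ _ (Submodule.subset_span ⟨i, rfl⟩)

/-- The `ℚ_[p]`-span `E` of the image of a `ℚ`-basis of `M` is finite dimensional and contains
`ι M`; it is a proper metric space (`FiniteDimensional.proper`), so the bounded sequence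
`(ι (u k).1, ι (u k).2)` in `E × E` has a convergent subsequence, which is Cauchy. -/
theorem TorA_close (p : ℕ) [Fact p.Prime] [NormedAlgebra ℚ_[p] K] (ι : M →+* K) (u : ℕ → M × M)
    {B : ℝ} (hB : ∀ k, ‖ι (u k).1‖ ≤ B ∧ ‖ι (u k).2‖ ≤ B) {δ : ℝ} (hδ : 0 < δ) :
    ∃ k l, k < l ∧ ‖ι (u k).1 - ι (u l).1‖ < δ ∧ ‖ι (u k).2 - ι (u l).2‖ < δ := by
  classical
  let E : Submodule ℚ_[p] K := Submodule.span ℚ_[p]
    (Set.range fun i => ι (Module.finBasis ℚ M i))
  have hfin : FiniteDimensional ℚ_[p] E :=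
    FiniteDimensional.span_of_finite ℚ_[p] (Set.finite_range _)
  have hprop : ProperSpace E := FiniteDimensional.proper ℚ_[p] E
  let v : ℕ → E × E := fun k => (⟨ι (u k).1, TorA_mem p ι _⟩, ⟨ι (u k).2, TorA_mem p ι _⟩)
  have hv : ∀ k, v k ∈ Metric.closedBall (0 : E × E) B := by
    intro k
    rw [mem_closedBall_zero_iff, Prod.norm_def]
    exact max_le (hB k).1 (hB k).2
  obtain ⟨a, _, φ, hφ, hlim⟩ := tendsto_subseq_of_bounded Metric.isBounded_closedBall hv
  have hc := hlim.cauchySeq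
  obtain ⟨N, hN⟩ := Metric.cauchySeq_iff'.1 hc δ hδ
  have h1 := hN (N + 1) (Nat.le_succ N)
  rw [dist_comm, dist_eq_norm, Prod.norm_def, max_lt_iff] at h1
  exact ⟨φ N, φ (N + 1), hφ (Nat.lt_succ_self N), h1.1, h1.2⟩

end Pool.Agent.PTwist
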