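import Pool.Agent.W_52423f_h30.PMap

/-!
# The twist `E ⊗ Λ` and its rational points
-/

namespace Pool.Agent.PTwist

open WeierstrassCurve WeierstrassCurve.Affine Matrix

variable {F M : Type*} [Field F] [Field M] [Algebra F M]

variable [DecidableEq M] {W : WeierstrassCurve F} {n : ℕ} {ρ : (M ≃ₐ[F] M) →* GL (Fin n) ℤ}
  {P Q : Fin n → (W⁄M).toAffine.Point}

theorem IsTw.zsmul (h : IsTw W ρ P) (m : ℤ) : IsTw W ρ (m • P) := by
  intro g i
  rw [Pi.smul_apply]
  conv_lhs => rw [h g i]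
  rw [Finset.smul_sum]
  refine Finset.sum_congr rfl fun j _ => ?_
  rw [Pi.smul_apply, _root_.map_zsmul, smul_comm]

/-- `g P_k = ∑ i, ρ(g)⁻¹ k i • P_i`, hence the Galois action on the integral combinations -/
theorem IsTw.map_sum (h : IsTw W ρ P) (g : M ≃ₐ[F] M) (s : Fin n → ℤ) :
    Point.map (g : M →ₐ[F] M) (∑ i, s i • P i) =
      ∑ i, (s ᵥ* ((ρ g)⁻¹ : GL (Fin n) ℤ).val) i • P i := by
  rw [_root_.map_sum]
  have h1 : ∀ i, (s ᵥ* ((ρ g)⁻¹ : GL (Fin n) ℤ).val) i • P i =
      ∑ j, ((s ᵥ* ((ρ g)⁻¹ : GL (Fin n) ℤ).val) i * (ρ g : Matrix (Fin n) (Fin n) ℤ) i j) •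
        Point.map (g : M →ₐ[F] M) (P j) := by
    intro i
    conv_lhs => rw [h g i]
    rw [Finset.smul_sum]
    exact Finset.sum_congr rfl fun j _ => smul_smul _ _ _
  rw [Finset.sum_congr rfl fun i _ => h1 i, Finset.sum_comm]
  refine Finset.sum_congr rfl fun j _ => ?_
  rw [← Finset.sum_smul, _root_.map_zsmul]
  congr 1
  have h2 : ((s ᵥ* ((ρ g)⁻¹ : GL (Fin n) ℤ).val) ᵥ* (ρ g).val) j = s j := by
    rw [Matrix.vecMul_vecMul, ← Units.val_mul, inv_mul_cancel, Units.val_one, Matrix.vecMul_one]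
  rw [← h2]
  rfl

/-- The map `s ↦ s ᵥ* ρ(g)⁻¹` is injective -/
theorem Tw_vecMul_injective (g : GL (Fin n) ℤ) :
    Function.Injective fun s : Fin n → ℤ => s ᵥ* g.val := by
  intro s t hst
  have h1 : (s ᵥ* g.val) ᵥ* (g⁻¹).val = (t ᵥ* g.val) ᵥ* (g⁻¹).val := congrArg (· ᵥ* (g⁻¹).val) hst
  rwa [Matrix.vecMul_vecMul, Matrix.vecMul_vecMul, ← Units.val_mul, mul_inv_cancel, Units.val_one,
    Matrix.vecMul_one, Matrix.vecMul_one] at h1

/-- the relations between the coordinates -/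
def Tw_rel (P : Fin n → (W⁄M).toAffine.Point) : AddSubgroup (Fin n → ℤ) where
  carrier := {s | ∑ i, s i • P i = 0}
  zero_mem' := by simp
  add_mem' := by
    intro a b ha hb
    simp only [Set.mem_ofPred_eq] at ha hb ⊢
    simp only [Pi.add_apply, add_smul, Finset.sum_add_distrib, ha, hb, add_zero]
  neg_mem' := by
    intro a ha
    simp only [Set.mem_ofPred_eq] at ha ⊢
    simp only [Pi.neg_apply, neg_smul, Finset.sum_neg_distrib, ha, neg_zero]

theorem Tw_mem_rel {s : Fin n → ℤ} : s ∈ Tw_rel P ↔ ∑ i, s i • P i = 0 := Iff.rfl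

theorem Tw_rel_stable (h : IsTw W ρ P) (g : M ≃ₐ[F] M) {s : Fin n → ℤ} (hs : s ∈ Tw_rel P) :
    s ᵥ* (ρ g).val ∈ Tw_rel P := by
  have h1 := h.map_sum g⁻¹ s
  rw [Tw_mem_rel.mp hs, map_zero, map_inv, inv_inv] at h1
  exact h1.symm

/-- the cast of an integral vector -/
def Tw_cast (s : Fin n → ℤ) : Fin n → ℚ := fun i => (s i : ℚ)

/-- the orthogonal complement of the relations -/
def Tw_orth (P : Fin n → (W⁄M).toAffine.Point) : Submodule ℚ (Fin n → ℚ) where
  carrier := {u | ∀ s ∈ Tw_rel P, Tw_cast s ⬝ᵥ u = 0}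
  zero_mem' := by
    intro s _
    exact dotProduct_zero _
  add_mem' := by
    intro a b ha hb s hs
    rw [dotProduct_add, ha s hs, hb s hs, add_zero]
  smul_mem' := by
    intro c a ha s hs
    rw [dotProduct_smul, ha s hs, smul_zero]

theorem Tw_cast_vecMul (s : Fin n → ℤ) (A : Matrix (Fin n) (Fin n) ℤ) :
    Tw_cast (s ᵥ* A) = Tw_cast s ᵥ* A.map (Int.cast : ℤ → ℚ) := by
  funext j
  simp [Tw_cast, Matrix.vecMul, dotProduct]

theorem Tw_clear {v : Fin n → ℚ}
    (hv : v ∈ Submodule.span ℚ (Tw_cast '' (Tw_rel P : Set (Fin n → ℤ)))) :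
    ∃ N : ℤ, N ≠ 0 ∧ ∃ s ∈ Tw_rel P, (N : ℚ) • v = Tw_cast s := by
  induction hv using Submodule.span_induction with
  | mem x hx =>
    obtain ⟨s, hs, rfl⟩ := hx
    exact ⟨1, one_ne_zero, s, hs, by simp⟩
  | zero => exact ⟨1, one_ne_zero, 0, zero_mem _, by ext i; simp [Tw_cast]⟩
  | add x y _ _ hx hy =>
    obtain ⟨N, hN, s, hs, h1⟩ := hx
    obtain ⟨N', hN', s', hs', h2⟩ := hy
    refine ⟨N * N', mul_ne_zero hN hN', N' • s + N • s',
      add_mem (zsmul_mem hs _) (zsmul_mem hs' _), ?_⟩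
    ext i
    have h1' := congrFun h1 i
    have h2' := congrFun h2 i
    simp only [Pi.smul_apply, smul_eq_mul, Tw_cast, Pi.add_apply, Int.cast_add, Int.cast_mul,
      Int.cast_mul] at h1' h2' ⊢
    rw [← h1', ← h2']
    ring
  | smul a x _ hx =>
    obtain ⟨N, hN, s, hs, h1⟩ := hx
    refine ⟨a.den * N, mul_ne_zero (by exact_mod_cast a.den_nz) hN, a.num • s, zsmul_mem hs _, ?_⟩
    ext i
    have h1' := congrFun h1 i
    simp only [Pi.smul_apply, smul_eq_mul, Tw_cast, Int.cast_mul, Int.cast_natCast] at h1' ⊢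
    rw [← h1']
    have h3 : (a.den : ℚ) * a = a.num := by
      rw [mul_comm]; exact Rat.mul_den_eq_num a
    calc (a.den : ℚ) * N * (a * x i) = ((a.den : ℚ) * a) * (N * x i) := by ring
      _ = a.num * (N * x i) := by rw [h3]

theorem Tw_span_top (hU : Tw_orth P = ⊥) :
    Submodule.span ℚ (Tw_cast '' (Tw_rel P : Set (Fin n → ℤ))) = ⊤ := by
  by_contra hne
  obtain ⟨f, hf0, hf⟩ := Submodule.exists_le_ker_of_lt_top _ (lt_top_iff_ne_top.mpr hne)
  apply hf0
  have hfe : ∀ v : Fin n → ℚ, f v = v ⬝ᵥ fun i => f (Pi.single i 1) := by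
    intro v
    rw [LinearMap.pi_apply_eq_sum_univ f v]
    simp only [dotProduct, smul_eq_mul]
    refine Finset.sum_congr rfl fun i _ => ?_
    congr 2
    ext j
    simp [Pi.single_apply, eq_comm]
  have hu : (fun i => f (Pi.single i 1)) ∈ Tw_orth P := by
    intro s hs
    rw [← hfe]
    exact hf (Submodule.subset_span ⟨s, hs, rfl⟩)
  rw [hU, Submodule.mem_bot] at hu
  apply LinearMap.ext
  intro v
  rw [hfe v, hu]
  simp

/-- The coordinates of a point of infinite order of the twist are independent.  Let `U` be the set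
of all `u ∈ ℚ ^ n` such that for all `s ∈ ℤ ^ n` with `∑ i, s i • P i = 0` one has
`∑ i, s i * u i = 0`.  This is a subspace stable under `ρ` (if `s` is a relation then
`∑ i, s i • P i = ∑ j, (s ᵥ* ρ(g)) j • g (P j)`, so `s ᵥ* ρ(g)` is a relation, apply `g⁻¹`).  If
`U = ⊤` then `s = 0` is the only relation.  If `U = ⊥` then the relations span `ℚ ^ n` and for
every `i` there are `N ≠ 0` with `N e_i` a relation, so a common multiple `N • P = 0`,
contradiction. -/
theorem IsTw.indep (h : IsTw W ρ P) (hρ : Irr ρ) (hP : ∀ N : ℤ, N ≠ 0 → N • P ≠ 0)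
    {s : Fin n → ℤ} (hs : ∑ i, s i • P i = 0) : s = 0 := by
  have hst : ∀ g, ∀ u ∈ Tw_orth P,
      ((ρ g : Matrix (Fin n) (Fin n) ℤ).map (Int.cast : ℤ → ℚ)) *ᵥ u ∈ Tw_orth P := by
    intro g u hu s hs
    rw [Matrix.dotProduct_mulVec, ← Tw_cast_vecMul]
    exact hu _ (Tw_rel_stable h g hs)
  rcases hρ (Tw_orth P) hst with hU | hU
  · exfalso
    have htop := Tw_span_top hU
    have h1 : ∀ i : Fin n, ∃ N : ℤ, N ≠ 0 ∧ N • P i = 0 := by
      intro i
      obtain ⟨N, hN, s, hs, h2⟩ := Tw_clear (P := P) (v := Pi.single i 1)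
        (by rw [htop]; exact Submodule.mem_top)
      refine ⟨N, hN, ?_⟩
      have h3 : s = Pi.single i N := by
        ext j
        have h4 := congrFun h2 j
        simp only [Pi.smul_apply, smul_eq_mul, Tw_cast] at h4
        by_cases hj : j = i
        · subst hj
          rw [Pi.single_eq_same, mul_one] at h4
          rw [Pi.single_eq_same]
          exact_mod_cast h4.symm
        · rw [Pi.single_eq_of_ne hj, mul_zero] at h4
          rw [Pi.single_eq_of_ne hj]
          exact_mod_cast h4.symm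
      rw [Tw_mem_rel, h3, Finset.sum_eq_single i] at hs
      · rwa [Pi.single_eq_same] at hs
      · intro j _ hj
        rw [Pi.single_eq_of_ne hj, zero_smul]
      · intro hi
        exact absurd (Finset.mem_univ i) hi
    choose N hN hNP using h1
    refine hP (∏ i, N i) (Finset.prod_ne_zero_iff.mpr fun i _ => hN i) ?_
    funext i
    rw [Pi.smul_apply, ← Finset.prod_erase_mul _ _ (Finset.mem_univ i), mul_smul, hNP i,
      smul_zero, Pi.zero_apply]
  · funext i
    have h1 : (Pi.single i 1 : Fin n → ℚ) ∈ Tw_orth P := by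
      rw [hU]; exact Submodule.mem_top
    have h2 := h1 s hs
    rw [dotProduct_single, mul_one] at h2
    simp only [Tw_cast] at h2
    exact_mod_cast h2

end Pool.Agent.PTwist
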